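import Pool.Agent.MP_807c24_nt.Z23.Nonzero

/-! Denominators of the Bernoulli numbers and the distribution relation. -/

namespace Pool.Agent.MP_807c24_nt.Z23

open Finset Polynomial
open Pool.Agent.MP_807c24_nt.H13 (pn)
open Pool.Agent.MP_807c24_nt.H13.Class

theorem bern : BernStmt := by
  intro p hp l
  have key : ∀ B : ℝ, 1 ≤ B → (∀ q : ℕ, q.Prime → q ≤ l + 1 → pn p (q : ℚ)⁻¹ ≤ B) →
      pn p (_root_.bernoulli l) ≤ B := by
    intro B hB H
    rcases Nat.even_or_odd' l with ⟨k, rfl | rfl⟩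
    · obtain ⟨z, hz⟩ := Bernoulli.vonStaudt_clausen k
      rw [eq_comm, ← eq_sub_iff_add_eq] at hz
      rw [hz]
      refine pn_sub ((pn_int z).trans hB) (pn_sum (zero_le_one.trans hB) fun q hq => ?_)
      rw [one_div]
      exact H q (mem_filter.1 hq).2.1 (Nat.lt_succ_iff.1 (mem_range.1 (mem_filter.1 hq).1))
    · rcases Nat.eq_zero_or_pos k with rfl | hk
      · rw [show _root_.bernoulli (2 * 0 + 1) = -((2 : ℕ) : ℚ)⁻¹ by norm_num, pn_neg]
        exact H 2 Nat.prime_two le_rfl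
      · rw [bernoulli_eq_zero_of_odd ⟨k, rfl⟩ (by omega), pn_zero]
        exact zero_le_one.trans hB
  refine ⟨key p one_le_p fun q hq _ => ?_,
    fun h => key 1 le_rfl fun q hq h' => (H13.pn_inv_nat hq.pos (by omega)).le⟩
  by_cases h : q = p
  · rw [h, pn_inv, pn_p, inv_inv]
  · exact (H13.unit_nat fun g => h ((Nat.prime_dvd_prime_iff_eq hp.out hq).1 g).symm).le.trans
      one_le_p

theorem dist : DistStmt := fun a b Q P hQ => by
  have h0 : (Q : ℚ) ≠ 0 := by exact_mod_cast hQ.ne'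
  have e : bt a b 1 = fun k =>
      a * _root_.bernoulli k - b * k * _root_.bernoulli (k - 1) / 2 := funext fun k => by simp [bt]
  rw [e]
  refine (H13.Lam_dist a b hQ P).trans (sum_congr rfl fun c _ => ?_)
  have e2 : P.comp (C (c : ℚ) + C (Q : ℚ) * X) = (taylor (c : ℚ) P).comp (C (Q : ℚ) * X) := by
    rw [taylor_apply, comp_assoc, add_comp, X_comp, C_comp, add_comm]
  rw [e2, H13.lam_scale]
  congr 1
  funext l
  rw [H13.ww, bt]
  rcases l with _ | l
  · simp
  · rw [Nat.add_sub_cancel]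
    field_simp
    ring

end Pool.Agent.MP_807c24_nt.Z23
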