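import Pool.Agent.MP_807c24_nt.Z23.Basic

/-! The functional is an integral along a vertical line, hence bounded by the size on the line. -/

namespace Pool.Agent.MP_807c24_nt.Z23

open Finset Polynomial
open Pool.Agent.MP_807c24_nt.H13 (zr)
open Pool.Agent.MP_807c24_nt.D57 (lam)

namespace BoundP

theorem ln_re (n : ℕ) (y : ℝ) : -1 < (ln n y).re := by
  have : (0 : ℝ) ≤ n := Nat.cast_nonneg n
  simp [ln]
  linarith

theorem JJ_congr (a b : ℤ) (n : ℕ) {f g : ℂ → ℂ} (h : ∀ s : ℂ, -1 < s.re → f s = g s) :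
    JJ a b n f = JJ a b n g := by
  simp only [JJ, h _ (ln_re n _)]

theorem JJ_add (hi : IntStmt) (a b : ℤ) (n : ℕ) {f g : ℂ → ℂ} (hf : Good f) (hg : Good g) :
    JJ a b n (fun s => f s + g s) = JJ a b n f + JJ a b n g := by
  simp only [JJ, add_mul]
  exact MeasureTheory.integral_add ((hi a b).1 n f hf) ((hi a b).1 n g hg)

theorem JJ_cmul (a b : ℤ) (n : ℕ) (c : ℂ) (f : ℂ → ℂ) :
    JJ a b n (fun s => c * f s) = c * JJ a b n f := by
  simp only [JJ, mul_assoc]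
  exact MeasureTheory.integral_const_mul c _

theorem JJ_sum (hi : IntStmt) (a b : ℤ) (n : ℕ) {ι : Type} (t : Finset ι) {f : ι → ℂ → ℂ}
    (hf : ∀ i ∈ t, Good (f i)) :
    JJ a b n (fun s => ∑ i ∈ t, f i s) = ∑ i ∈ t, JJ a b n (f i) := by
  simp only [JJ, sum_mul]
  exact MeasureTheory.integral_finset_sum t fun i h => (hi a b).1 n (f i) (hf i h)

theorem JJ_aeval (hi : IntStmt) (hv : ValStmt) (a b : ℤ) (Q : ℚ[X]) :
    JJ a b 0 (fun s => aeval s Q) = ((lam (bt a b 1) Q : ℚ) : ℂ) := by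
  have h1 : ∀ s : ℂ, aeval s Q = ∑ i ∈ Q.support, ((Q.coeff i : ℚ) : ℂ) * s ^ i := fun s => by
    rw [aeval_def, eval₂_eq_sum, Polynomial.sum_def]
    simp
  simp only [h1]
  rw [JJ_sum hi a b 0 Q.support (f := fun i s => ((Q.coeff i : ℚ) : ℂ) * s ^ i)
    fun i _ => (Good.const _).mul (Good.id.pow i), lam, Polynomial.sum_def]
  push_cast
  refine sum_congr rfl fun i _ => ?_
  rw [JJ_cmul, (hv a b).1 i]

theorem aeval_Dp (S : Finset ℕ) (s : ℂ) : aeval s (Dp S) = ∏ j ∈ S, (s + j) := by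
  simp [Dp, map_prod]

theorem aeval_Z (L : ℕ) (s : ℂ) : aeval s (Np (Zm L)) = ∏ t ∈ range L, (s - t) ^ 3 := by
  rw [Zm, Np_nsmul, Np_rg, map_pow, map_prod, ← prod_pow]
  simp

theorem split (hp : PfStmt) (L : ℕ) (P : ℚ[X]) {s : ℂ} (hs : -1 < s.re) :
    Rr L s * aeval s P = aeval s ((Np (Zm L) * P) /ₘ Dp (Icc 1 (3 * L))) +
      ∑ j ∈ Icc 1 (3 * L), ((res (Icc 1 (3 * L)) (Np (Zm L) * P) j : ℚ) : ℂ) * (s + j)⁻¹ := by
  have hne : ∀ j ∈ Icc 1 (3 * L), s + (j : ℂ) ≠ 0 := fun j hj => Good.ne (mem_Icc.1 hj).1 hs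
  have hD : ∏ j ∈ Icc 1 (3 * L), (s + (j : ℂ)) ≠ 0 := prod_ne_zero_iff.2 hne
  have h := congrArg (aeval s) (hp (Icc 1 (3 * L)) (Np (Zm L) * P))
  rw [map_add, map_mul, map_mul, map_sum, aeval_Z, aeval_Dp] at h
  rw [Rr, div_mul_eq_mul_div, div_eq_iff hD, h, add_mul, sum_mul]
  congr 1
  refine sum_congr rfl fun j hj => ?_
  rw [map_mul, aeval_C, aeval_Dp, ← mul_prod_erase _ _ hj, mul_assoc, ← mul_assoc (s + (j : ℂ))⁻¹,
    inv_mul_cancel₀ (hne j hj), one_mul]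
  simp

theorem base (hp : PfStmt) (hl : LinkStmt) (hi : IntStmt) (hv : ValStmt) (a b x : ℤ)
    (hx : (x : ℝ) = a * zr 2 + b * zr 3) (L : ℕ) (P : ℚ[X]) :
    JJ a b 0 (fun s => Rr L s * aeval s P) = ((lam (mom a b x L) P : ℚ) : ℂ) := by
  have hg : ∀ j ∈ Icc 1 (3 * L), Good fun s : ℂ =>
      ((res (Icc 1 (3 * L)) (Np (Zm L) * P) j : ℚ) : ℂ) * (s + j)⁻¹ :=
    fun j hj => (Good.const _).mul (Good.inv (mem_Icc.1 hj).1)
  rw [JJ_congr a b 0 fun s hs => split hp L P hs, JJ_add hi a b 0 (Good.aeval _) (Good.sum hg),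
    JJ_sum hi a b 0 _ hg, JJ_aeval hi hv, hl, Mu]
  push_cast
  congr 1
  refine sum_congr rfl fun j hj => ?_
  rw [JJ_cmul, (hv a b).2 j (mem_Icc.1 hj).1, ← hx]
  push_cast
  rfl

theorem step (hs : ShiftStmt) (a b : ℤ) (L n : ℕ) (P : ℚ[X]) (hn : n < L) :
    JJ a b (n + 1) (fun s => Rr L s * aeval s P) = JJ a b n (fun s => Rr L s * aeval s P) := by
  have hg : Good fun s : ℂ => (∏ t ∈ (range L).erase n, (s - t) ^ 3) *
      (∏ j ∈ Icc 1 (3 * L), (s + j)⁻¹) * aeval s P :=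
    ((Good.prod fun t _ => (Good.id.sub (Good.const _)).pow 3).mul
      (Good.prod fun j hj => Good.inv (mem_Icc.1 hj).1)).mul (Good.aeval P)
  have he : (fun s : ℂ => Rr L s * aeval s P) = fun s : ℂ => (s - n) ^ 3 *
      ((∏ t ∈ (range L).erase n, (s - t) ^ 3) * (∏ j ∈ Icc 1 (3 * L), (s + j)⁻¹) * aeval s P) := by
    funext s
    rw [Rr, ← mul_prod_erase _ _ (mem_range.2 hn), div_eq_mul_inv, prod_inv_distrib]
    ring
  rw [he]
  exact hs a b n _ hg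

end BoundP

theorem bound (hp : PfStmt) (hl : LinkStmt) (hi : IntStmt) (hs : ShiftStmt) (hv : ValStmt) :
    BoundStmt := by
  intro a b x hx
  obtain ⟨C, hC, hb⟩ := (hi a b).2
  refine ⟨C, hC, fun L n P B hn hB => ?_⟩
  have h : ∀ m : ℕ, m ≤ L →
      JJ a b m (fun s => Rr L s * aeval s P) = ((lam (mom a b x L) P : ℚ) : ℂ) := by
    intro m hm
    induction m with
    | zero => exact BoundP.base hp hl hi hv a b x hx L P
    | succ m ih => rw [BoundP.step hs a b L m P hm, ih (Nat.le_of_succ_le hm)]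
  have h2 := hb n (fun s => Rr L s * aeval s P) B hB
  rw [h n hn, ← Complex.ofReal_ratCast, Complex.norm_real, Real.norm_eq_abs] at h2
  exact h2

end Pool.Agent.MP_807c24_nt.Z23
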