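import Pool.Agent.MP_807c24_nt.Z23.Gauss
import Pool.Agent.MP_807c24_nt.H13.Crude

/-! p-adic bounds for the residues and for one entry. -/

namespace Pool.Agent.MP_807c24_nt.Z23

open Finset Polynomial
open Pool.Agent.MP_807c24_nt.H13 (pn)
open Pool.Agent.MP_807c24_nt.H13.Class
open Pool.Agent.MP_807c24_nt.D57 (lam)

namespace EntryP

variable {p : ℕ} [hp : Fact p.Prime]

/-- Truncated valuation. -/
def wv (p A : ℕ) (z : ℤ) : ℤ := ∑ e ∈ Icc 1 A, if ((p ^ e : ℕ) : ℤ) ∣ z then 1 else 0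

omit hp in
theorem wv_le (A : ℕ) (z : ℤ) : wv p A z ≤ A := by
  refine (sum_le_card_nsmul _ _ 1 fun e _ => by split_ifs <;> omega).trans ?_
  simp

omit hp in
theorem wv_zero (A : ℕ) : wv p A 0 = A := by simp [wv]

omit hp in
theorem wv_neg (A : ℕ) (z : ℤ) : wv p A (-z) = wv p A z := by simp [wv]

theorem pn_pow_p (A : ℕ) : pn p ((p ^ A : ℕ) : ℚ) = (p : ℝ) ^ (-(A : ℤ)) := by
  rw [Nat.cast_pow, pn_pow, pn_p, inv_pow, zpow_neg, zpow_natCast]

theorem pn_Q_le (A : ℕ) (z : ℤ) : pn p ((p ^ A : ℕ) : ℚ) ≤ (p : ℝ) ^ (-wv p A z) := by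
  rw [pn_pow_p]
  exact zpow_le_zpow_right₀ one_le_p (neg_le_neg (wv_le A z))

theorem pn_le_wv (A : ℕ) (z : ℤ) : pn p (z : ℚ) ≤ (p : ℝ) ^ (-wv p A z) := by
  induction A with
  | zero => simpa [wv] using pn_int (p := p) z
  | succ A ih =>
    by_cases h : ((p ^ (A + 1) : ℕ) : ℤ) ∣ z
    · obtain ⟨d, hd⟩ := h
      refine le_trans ?_ (pn_Q_le (A + 1) z)
      rw [hd, Int.cast_mul, Int.cast_natCast]
      simpa using pn_mul_le (le_refl (pn p ((p ^ (A + 1) : ℕ) : ℚ))) (pn_int (p := p) d)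
    · rwa [wv, sum_Icc_succ_top (by omega), if_neg h, add_zero]

theorem pn_eq_wv (A : ℕ) {z : ℤ} (h0 : z ≠ 0) (h : z.natAbs < p ^ (A + 1)) :
    pn p (z : ℚ) = (p : ℝ) ^ (-wv p A z) := by
  rw [H13.Crude.pn_int p z h0, H13.Crude.val_eq p z h0 A h, wv]
  simp only [Nat.cast_pow]
  rfl

theorem prod_zp {ι : Type} (s : Finset ι) (f : ι → ℤ) :
    ∏ i ∈ s, (p : ℝ) ^ f i = (p : ℝ) ^ ∑ i ∈ s, f i := by
  classical
  induction s using Finset.induction_on with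
  | empty => simp
  | insert i t hi ih => rw [prod_insert hi, sum_insert hi, ih, zpow_add₀ p_pos.ne']

/-- Number of zeros in the classes of `c`. -/
def cz (p A : ℕ) (M : Multiset ℤ) (c : ℤ) : ℤ :=
  ∑ e ∈ Icc 1 A, (M.countP (fun t => ((p ^ e : ℕ) : ℤ) ∣ t - c) : ℤ)

omit hp in
theorem cz_cons (A : ℕ) (t : ℤ) (M : Multiset ℤ) (c : ℤ) :
    cz p A (t ::ₘ M) c = wv p A (t - c) + cz p A M c := by
  rw [cz, cz, wv, ← sum_add_distrib]
  refine sum_congr rfl fun e _ => ?_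
  rw [Multiset.countP_cons]
  push_cast
  ring

omit hp in
theorem sum_od (A : ℕ) (M : Multiset ℤ) (S : Finset ℕ) (c : ℤ) :
    ∑ e ∈ Icc 1 A, od M S (p ^ e) c = cz p A M c - ∑ j ∈ S, wv p A (j + c) := by
  simp only [od, sum_sub_distrib, cz, wv, card_filter]
  rw [sum_comm (s := S)]
  push_cast
  rfl

theorem gb_Np (A c : ℕ) (M : Multiset ℤ) :
    Gb p (p ^ A) c (Np M) ((p : ℝ) ^ (-cz p A M c)) := by
  induction M using Multiset.induction_on with
  | empty => simpa [Np_zero, cz] using Gb.of_cb Cb.one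
  | cons t M ih =>
    rw [Np_cons, cz_cons, neg_add, zpow_add₀ p_pos.ne']
    refine Gb.mul (Gb.X_sub ?_ (pn_Q_le A _)) ih
    have := pn_le_wv (p := p) A (-(t - c))
    rw [wv_neg] at this
    simpa using this

theorem eval_Np (A : ℕ) (c : ℤ) (M : Multiset ℤ) :
    pn p ((Np M).eval (c : ℚ)) ≤ (p : ℝ) ^ (-cz p A M c) := by
  induction M using Multiset.induction_on with
  | empty => simpa [Np_zero, cz] using (pn_one (p := p)).le
  | cons t M ih =>
    rw [Np_cons, cz_cons, neg_add, zpow_add₀ p_pos.ne', eval_mul]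
    refine pn_mul_le ?_ ih
    have := pn_le_wv (p := p) A (-(t - c))
    rw [wv_neg] at this
    simpa using this

theorem pn_Hh (a b : ℤ) {j : ℕ} {B : ℝ} (hB : 1 ≤ B)
    (h : ∀ u : ℕ, 1 ≤ u → u < j → (pn p (u : ℚ))⁻¹ ≤ B) (x : ℤ) :
    pn p (x - Hh a b j) ≤ B ^ 3 := by
  refine pn_sub ((pn_int x).trans (one_le_pow₀ hB)) (pn_sum (by positivity) fun u hu => ?_)
  obtain ⟨u1, u2⟩ := mem_Ico.1 hu
  have h1 : ∀ n : ℕ, pn p ((u : ℚ) ^ n)⁻¹ ≤ B ^ n := fun n => by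
    rw [pn_inv, pn_pow, ← inv_pow]
    exact pow_le_pow_left₀ (inv_nonneg.2 (pn_nonneg _)) (h u u1 u2) n
  rw [div_eq_mul_inv, div_eq_mul_inv]
  refine pn_add (le_trans ?_ (pow_le_pow_right₀ hB (show 2 ≤ 3 by omega))) ?_
  · simpa using pn_mul_le (pn_int (p := p) a) (h1 2)
  · simpa using pn_mul_le (pn_int (p := p) b) (h1 3)

theorem pn_Hh_pow (a b x : ℤ) {j A : ℕ} (h : j ≤ p ^ (A + 1)) :
    pn p (x - Hh a b j) ≤ (p : ℝ) ^ (3 * (A : ℤ)) := by
  refine (pn_Hh a b (B := (p : ℝ) ^ A) (one_le_pow₀ one_le_p) (fun u u1 u2 => ?_) x).trans_eq ?_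
  · have := pn_eq_wv (p := p) A (z := u) (by omega) (by simpa using u2.trans_le h)
    rw [Int.cast_natCast] at this
    rw [this, zpow_neg, inv_inv, ← zpow_natCast]
    exact zpow_le_zpow_right₀ one_le_p (wv_le A _)
  · rw [← pow_mul, ← zpow_natCast]
    congr 1
    push_cast
    ring

end EntryP

open EntryP

theorem resB : ResStmt := by
  intro p _ S M A j hj hS
  have e : ∏ i ∈ S.erase j, pn p ((i : ℚ) - j) =
      (p : ℝ) ^ (-∑ i ∈ S.erase j, wv p A (i + -(j : ℤ))) := by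
    rw [← sum_neg_distrib, ← prod_zp]
    refine prod_congr rfl fun i hi => ?_
    obtain ⟨i1, i2⟩ := mem_erase.1 hi
    have h1 := hS i i2
    have h2 := hS j hj
    have := pn_eq_wv (p := p) A (z := i + -(j : ℤ)) (by omega) (by omega)
    simpa [sub_eq_add_neg] using this
  have h := eval_Np (p := p) A (-(j : ℤ)) M
  rw [Int.cast_neg, Int.cast_natCast] at h
  rw [res, div_eq_mul_inv, pn_mul, pn_inv, pn_prod, e, ← zpow_neg, sum_od,
    ← Finset.add_sum_erase S _ hj, add_neg_cancel, wv_zero]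
  refine (mul_le_mul_of_nonneg_right h (zpow_nonneg p_pos.le _)).trans_eq ?_
  rw [← zpow_add₀ p_pos.ne']
  congr 1
  ring

namespace EntryP

variable {p : ℕ} [hp : Fact p.Prime]

theorem res_le {S : Finset ℕ} {M : Multiset ℤ} {A : ℕ} {y : ℤ}
    (hS : ∀ j ∈ S, 1 ≤ j ∧ j + p ^ A ≤ p ^ (A + 1))
    (hy : ∀ c : ℤ, y ≤ ∑ e ∈ Icc 1 A, od M S (p ^ e) c) {j : ℕ} (hj : j ∈ S) :
    pn p (res S (Np M) j) ≤ (p : ℝ) ^ (-(y + A)) := by
  have p0 : 0 < p ^ A := pow_pos hp.out.pos A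
  refine (resB p S M A j hj fun i hi => by have := hS i hi; omega).trans
    (zpow_le_zpow_right₀ one_le_p ?_)
  have := hy (-(j : ℤ))
  omega

theorem gb_quot (hpf : PfStmt) {S : Finset ℕ} {M : Multiset ℤ} {A : ℕ} {y : ℤ}
    (hS : ∀ j ∈ S, 1 ≤ j ∧ j + p ^ A ≤ p ^ (A + 1))
    (hy : ∀ c : ℤ, y ≤ ∑ e ∈ Icc 1 A, od M S (p ^ e) c) {c : ℕ} (hc : c < p ^ A) :
    Gb p (p ^ A) c (Np M /ₘ Dp S) ((p : ℝ) ^ (-y)) := by
  have e : ∀ j ∈ S, pn p ((c : ℚ) + j) = (p : ℝ) ^ (-wv p A (j + c)) := fun j hj => by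
    have h1 := hS j hj
    have := pn_eq_wv (p := p) A (z := j + (c : ℤ)) (by omega) (by omega)
    simpa [add_comm] using this
  refine Gb.quot hpf (fun j hj => (hS j hj).1) (fun j hj => (e j hj).symm ▸ pn_Q_le A _)
    ((gb_Np A c M).mono ?_) fun j hj => (res_le hS hy hj).trans ?_
  · rw [prod_congr rfl e, prod_zp, ← zpow_add₀ p_pos.ne', sum_neg_distrib]
    refine zpow_le_zpow_right₀ one_le_p ?_
    have := hy c
    rw [sum_od] at this
    omega
  · rw [e j hj, ← zpow_add₀ p_pos.ne']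
    refine zpow_le_zpow_right₀ one_le_p ?_
    have := wv_le (p := p) A (j + c)
    omega

theorem res_part (a b x : ℤ) {S : Finset ℕ} {M : Multiset ℤ} {A : ℕ} {y : ℤ}
    (hS : ∀ j ∈ S, 1 ≤ j ∧ j + p ^ A ≤ p ^ (A + 1))
    (hy : ∀ c : ℤ, y ≤ ∑ e ∈ Icc 1 A, od M S (p ^ e) c) :
    pn p (∑ j ∈ S, res S (Np M) j * (x - Hh a b j)) ≤ (p : ℝ) ^ (2 * (A : ℤ) - y) := by
  refine pn_sum (zpow_nonneg p_pos.le _) fun j hj => ?_
  refine (pn_mul_le (res_le hS hy hj)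
    (pn_Hh_pow a b x (A := A) (by have := hS j hj; omega))).trans_eq ?_
  rw [← zpow_add₀ p_pos.ne']
  congr 1
  ring

end EntryP

theorem entryS (hpf : PfStmt) (hb : BernStmt) (hd : DistStmt) : EntrySStmt := by
  intro p hp a b x S M A y hS hy
  refine pn_add ?_ ((res_part a b x hS hy).trans (zpow_le_zpow_right₀ one_le_p (by omega)))
  rw [hd a b (p ^ A) _ (pow_pos hp.out.pos A)]
  refine pn_sum (zpow_nonneg p_pos.le _) fun c hc => ?_
  refine (nu_any hb a b (gb_quot hpf hS hy (mem_range.1 hc))).trans_eq ?_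
  rw [← zpow_natCast, ← zpow_add₀ p_pos.ne']
  congr 1
  push_cast
  ring

theorem entryM (hpf : PfStmt) (hb : BernStmt) (hd : DistStmt) : EntryMStmt := by
  intro p hp a b x S M y h2 hS hy1 hy
  have hS' : ∀ j ∈ S, 1 ≤ j ∧ j + p ^ 1 ≤ p ^ (1 + 1) := by simpa using hS
  have hy' : ∀ c : ℤ, y ≤ ∑ e ∈ Icc 1 1, od M S (p ^ e) c := by simpa using hy
  refine pn_add ?_ (by simpa using res_part a b x hS' hy')
  rw [hd a b p _ hp.out.pos]
  refine pn_sum (zpow_nonneg p_pos.le _) fun c hc => ?_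
  refine nu_odd hb h2 a b hy1 ((Cb_Np M).divByMonic (Dp_monic S) (Cb_Dp S)) ?_
  simpa using gb_quot hpf hS' hy' (c := c) (by simpa using hc)

theorem entryL (hb : BernStmt) : EntryLStmt := by
  intro p hp a b x S M y h2 hS hy hd
  have y0 : 0 ≤ y := by omega
  have p0 : (0 : ℝ) < p := p_pos
  have hq : Cb p (Np M /ₘ Dp S) 1 := (Cb_Np M).divByMonic (Dp_monic S) (Cb_Dp S)
  refine pn_add (pn_lam (zpow_nonneg p0.le _) fun k hk => ?_)
    (pn_sum (zpow_nonneg p0.le _) fun j hj => ?_)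
  · rcases hd with hd | ⟨-, hd⟩
    · refine (pn_mul_le (hq k) (bt_one hb h2 a b k)).trans ?_
      rw [one_mul]
      simpa using zpow_le_zpow_right₀ (one_le_p (p := p)) hd
    · rw [natDegree_divByMonic _ (Dp_monic S), Np_natDegree, Dp_natDegree] at hk
      have := hp.out.two_le
      refine (pn_mul_le (hq k) (bt_zero hb h2 a b (by omega))).trans ?_
      rw [one_mul]
      exact one_le_zpow₀ one_le_p y0
  · have h1 := resB p S M 1 j hj fun i hi => (hS i hi).2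
    have h3 := hy j hj
    simp only [Icc_self, sum_singleton, pow_one] at h1
    split_ifs at h3 with h4
    · refine (pn_mul_le h1 (pn_Hh_pow a b x (A := 0) (by simpa using h4))).trans ?_
      rw [← zpow_add₀ p0.ne']
      exact zpow_le_zpow_right₀ one_le_p (by omega)
    · refine (pn_mul_le h1 (pn_Hh_pow a b x (A := 1) (hS j hj).2.le)).trans ?_
      rw [← zpow_add₀ p0.ne']
      exact zpow_le_zpow_right₀ one_le_p (by omega)

end Pool.Agent.MP_807c24_nt.Z23
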