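import Pool.Agent.MP_807c24_nt.Z23.Basic

/-! The product formula gives the contradiction; passage to linear independence. -/

namespace Pool.Agent.MP_807c24_nt.Z23

open Finset Filter Topology
open Pool.Agent.MP_807c24_nt.H13 (pn zr)

namespace FinalP

theorem small_ev (C : ℝ) : ∀ᶠ L : ℕ in atTop, C + 60 * Real.log L < (L : ℝ) / 5 := by
  have h1 : ∀ᶠ x : ℝ in atTop, ‖Real.log x‖ ≤ 1 / 600 * ‖x‖ :=
    Real.isLittleO_log_id_atTop.bound (by norm_num)
  filter_upwards [tendsto_natCast_atTop_atTop.eventually h1,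
    (tendsto_natCast_atTop_atTop (R := ℝ)).eventually_gt_atTop (10 * C)] with L h2 h3
  rw [Real.norm_eq_abs, Real.norm_eq_abs, Nat.abs_cast] at h2
  linarith [le_abs_self (Real.log L)]

theorem zr_two : zr 2 = Real.pi ^ 2 / 6 := by
  have h := (hasSum_nat_add_iff' 1).2 hasSum_zeta_two
  rw [zr, ← (by simpa using h.tsum_eq : _ = Real.pi ^ 2 / 6)]
  simp

theorem zeta_eq {k : ℕ} (hk : 1 < k) : riemannZeta k = (zr k : ℂ) := by
  rw [zeta_eq_tsum_one_div_nat_add_one_cpow (by simpa using hk), zr, Complex.ofReal_tsum]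
  simp

end FinalP

open FinalP

theorem core (hr : RealStmt) (hS : SmallStmt) (hM : MediumStmt) (hL : LargeStmt)
    (hN : NonzeroStmt) (hP : PrimeStmt) : CoreStmt := by
  intro a b x hb hx
  obtain ⟨C, hC⟩ := hr a b x hx
  obtain ⟨N, hN'⟩ := eventually_atTop.1 (hP.and (small_ev C))
  obtain ⟨L, hL1, hLp⟩ := Nat.exists_infinite_primes (N + 368 + b.natAbs)
  have : Fact L.Prime := ⟨hLp⟩
  obtain ⟨h1, h2⟩ := hN' L (by omega)
  have h0 : Del a b x L ≠ 0 := hN L a b x (by omega) fun h => by
    have := Nat.le_of_dvd (Int.natAbs_pos.2 hb) (Int.natCast_dvd.1 h)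
    omega
  have h3 := D57.prodF (Del a b x L) ((range (4 * L + 1)).filter Nat.Prime) (ff L) h0
    (fun p hp => (mem_filter.1 hp).2) fun p hp => by
      split_ifs with h
      · have h4 := mem_range.1 (mem_filter.1 h).1
        unfold ff
        split_ifs with h5 h6
        · exact hS p a b x L (by omega)
        · exact hM p a b x L (by omega) (by omega)
        · exact hL p a b x L (by omega) (by omega)
      · have h4 : 4 * L + 1 ≤ p := by
          by_contra h5
          exact h (mem_filter.2 ⟨mem_range.2 (by omega), hp.out⟩)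
        refine (hL p a b x L (by omega) (by omega)).trans_eq ?_
        rw [fL, show 4 * L - p = 0 by omega, show 3 * L - p = 0 by omega,
          show 5 * L - 2 * p = 0 by omega, show 2 * L - p = 0 by omega]
        simp
  have h4 := (Real.log_le_iff_le_exp (abs_pos.2 (by exact_mod_cast h0))).2 (hC L (by omega))
  have h5 : (0 : ℝ) < L := by exact_mod_cast hLp.pos
  nlinarith [mul_lt_mul_of_pos_left h2 h5]

/-- Rational relations between `1`, `pi^2` and `zeta(3)` are trivial. -/
theorem rel (hc : CoreStmt) (hπ : PiSqStmt) (u v w : ℚ)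
    (h : (u : ℝ) + v * Real.pi ^ 2 + w * zr 3 = 0) : u = 0 ∧ v = 0 ∧ w = 0 := by
  have hw : w = 0 := by
    by_contra hw
    refine hc (6 * v.num * u.den * w.den) (w.num * u.den * v.den) (-(u.num * v.den * w.den))
      (mul_ne_zero (mul_ne_zero (Rat.num_ne_zero.2 hw) (by exact_mod_cast u.den_nz))
        (by exact_mod_cast v.den_nz)) ?_
    have e : ∀ r : ℚ, (r.num : ℝ) = r * r.den := fun r => by exact_mod_cast (Rat.mul_den_eq_num r).symm
    push_cast
    rw [e u, e v, e w, zr_two]
    linear_combination (-((u.den : ℝ) * v.den * w.den)) * h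
  have hv : v = 0 := by
    by_contra hv
    have hv' : (v : ℝ) ≠ 0 := by exact_mod_cast hv
    refine hπ ⟨-u / v, ?_⟩
    rw [hw] at h
    push_cast at h ⊢
    field_simp
    linarith
  rw [hw, hv] at h
  exact ⟨by simpa using h, hv, hw⟩

theorem indep3 (hc : CoreStmt) (hπ : PiSqStmt) :
    LinearIndependent ℚ ![(1 : ℂ), riemannZeta 2, riemannZeta 3] := by
  have e2 : riemannZeta 2 = (zr 2 : ℂ) := zeta_eq (k := 2) (by norm_num)
  have e3 : riemannZeta 3 = (zr 3 : ℂ) := zeta_eq (k := 3) (by norm_num)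
  rw [Fintype.linearIndependent_iff]
  intro g hg
  have h := congrArg Complex.re hg
  simp only [Fin.sum_univ_three, e2, e3, Rat.smul_def] at h
  simp only [Matrix.cons_val_zero, Matrix.cons_val_one, Matrix.cons_val, ← Complex.ofReal_ratCast,
    ← Complex.ofReal_one, ← Complex.ofReal_mul, ← Complex.ofReal_add, Complex.ofReal_re,
    Complex.zero_re, zr_two] at h
  obtain ⟨h0, h1, h2⟩ := rel hc hπ (g 0) (g 1 / 6) (g 2) (by push_cast; linarith)
  intro i
  fin_cases i
  · exact h0
  · simpa using h1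
  · exact h2

theorem indep6 (hc : CoreStmt) (hπ : PiSqStmt) :
    LinearIndependent ℚ ![(1 : ℂ), riemannZeta 2, riemannZeta 3, 2 * Real.pi * Complex.I,
      2 * Real.pi * Complex.I * riemannZeta 2, 2 * Real.pi * Complex.I * riemannZeta 3] := by
  have e2 : riemannZeta 2 = (zr 2 : ℂ) := zeta_eq (k := 2) (by norm_num)
  have e3 : riemannZeta 3 = (zr 3 : ℂ) := zeta_eq (k := 3) (by norm_num)
  rw [Fintype.linearIndependent_iff]
  intro g hg
  have e : (((g 0 : ℝ) + (g 1 / 6 : ℚ) * Real.pi ^ 2 + g 2 * zr 3 : ℝ) : ℂ) +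
      ((2 * Real.pi * ((g 3 : ℝ) + (g 4 / 6 : ℚ) * Real.pi ^ 2 + g 5 * zr 3) : ℝ) : ℂ) *
        Complex.I = 0 := by
    rw [← hg]
    simp only [Fin.sum_univ_six, e2, e3, zr_two, Rat.smul_def, Matrix.cons_val_zero,
      Matrix.cons_val_one, Matrix.cons_val]
    push_cast
    ring
  have h1 := congrArg Complex.re e
  have h2 := congrArg Complex.im e
  simp only [Complex.add_re, Complex.mul_re, Complex.ofReal_re, Complex.ofReal_im, Complex.I_re,
    Complex.I_im, Complex.add_im, Complex.mul_im, mul_zero, mul_one, zero_add, add_zero, sub_zero,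
    Complex.zero_re, Complex.zero_im] at h1 h2
  obtain ⟨a0, a1, a2⟩ := rel hc hπ _ _ _ h1
  obtain ⟨a3, a4, a5⟩ := rel hc hπ _ _ _
    ((mul_eq_zero.1 h2).resolve_left (by positivity))
  intro i
  fin_cases i
  · exact a0
  · simpa using a1
  · exact a2
  · exact a3
  · simpa using a4
  · exact a5

end Pool.Agent.MP_807c24_nt.Z23
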