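import Pool.Agent.MP_807c24_nt.Z23.Basic

/-! The bound for the Hankel determinant at the large primes. -/

namespace Pool.Agent.MP_807c24_nt.Z23

open Finset Polynomial
open Pool.Agent.MP_807c24_nt.H13 (pn)
open Pool.Agent.MP_807c24_nt.D57 (lam hank)

namespace LargeP

theorem one {p u : ℕ} {S : Finset ℕ} (hS : ∀ j ∈ S, u < j ∧ j ≤ u + p) (c : ℤ) :
    (S.filter fun j : ℕ => (p : ℤ) ∣ (j : ℤ) + c).card ≤ 1 := by
  refine card_le_one.2 fun a ha b hb => ?_
  rw [mem_filter] at ha hb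
  have h1 := hS a ha.1
  have h2 := hS b hb.1
  have h3 : (p : ℤ) ∣ (a : ℤ) - b := by
    have := dvd_sub ha.2 hb.2
    rwa [add_sub_add_right_eq_sub] at this
  have := Int.eq_zero_of_abs_lt_dvd h3 (by rw [abs_lt]; constructor <;> omega)
  omega

theorem two {p : ℕ} {S : Finset ℕ} (hS : ∀ j ∈ S, 0 < j ∧ j ≤ 2 * p) (c : ℤ) :
    (S.filter fun j : ℕ => (p : ℤ) ∣ (j : ℤ) + c).card ≤ 2 := by
  have h1 := one (p := p) (u := 0) (S := S.filter (· ≤ p)) (fun j hj => by
    rw [mem_filter] at hj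
    have := hS j hj.1
    omega) c
  have h2 := one (p := p) (u := p) (S := S.filter (p < ·)) (fun j hj => by
    rw [mem_filter] at hj
    have := hS j hj.1
    omega) c
  refine le_trans (card_le_card ?_) ((card_union_le _ _).trans (add_le_add h1 h2))
  intro j hj
  simp only [mem_filter, mem_union] at hj ⊢
  rcases le_or_gt j p with h | h
  · exact Or.inl ⟨⟨hj.1, h⟩, hj.2⟩
  · exact Or.inr ⟨⟨hj.1, h⟩, hj.2⟩

/-- The poles that are cancelled. -/
def TT (L p : ℕ) : Finset ℕ := Ioc p (min (3 * L) (2 * p - L))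

theorem TT_sub (L p : ℕ) : TT L p ⊆ Icc 1 (3 * L) := fun j hj => by
  simp only [TT, mem_Ioc, mem_Icc] at hj ⊢
  omega

theorem TT_card (L p : ℕ) : (TT L p).card = min (3 * L) (2 * p - L) - p := Nat.card_Ioc _ _

theorem card_Zm (L : ℕ) : (Zm L).card = 3 * L := by rw [Zm, Multiset.card_nsmul, card_rg]

theorem three {L p j : ℕ} (h1 : j ≤ 2 * p) (h2 : 2 * p < j + L) (M : Multiset ℤ) :
    3 ≤ (Zm L + M).countP fun t => (p : ℤ) ∣ t - -(j : ℤ) := by
  rw [Multiset.countP_add, Zm, Multiset.countP_nsmul, countP_rg]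
  have : 0 < ((range L).filter fun t : ℕ => (p : ℤ) ∣ (t : ℤ) - -(j : ℤ)).card :=
    card_pos.2 ⟨2 * p - j, mem_filter.2 ⟨mem_range.2 (by omega), 2, by omega⟩⟩
  omega

variable (he : EntryLStmt) {p : ℕ} [hp : Fact p.Prime] (a b x : ℤ) {L : ℕ} (hL : 2 ≤ L)
  (h : 3 * L < 2 * p)

include hL h in
theorem rng {S : Finset ℕ} (hS : S ⊆ Icc 1 (3 * L)) : ∀ j ∈ S, 1 ≤ j ∧ j < p ^ 2 := fun j hj => by
  have h1 := mem_Icc.1 (hS hj)
  have h2 : 2 * p ≤ p ^ 2 := by
    rw [sq]
    exact Nat.mul_le_mul_right p (by omega)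
  omega

include he hL h in
theorem entA (M : Multiset ℤ) :
    pn p (Mu a b x (Icc 1 (3 * L)) (Np (Zm L + M))) ≤ (p : ℝ) ^ (4 : ℤ) := by
  refine he p a b x _ _ 4 (by omega) (rng hL h subset_rfl) (fun j _ => ?_) (Or.inl (by norm_num))
  have := two (p := p) (S := Icc 1 (3 * L)) (fun j hj => by rw [mem_Icc] at hj; omega) (-(j : ℤ))
  unfold od
  split_ifs <;> omega

include he hL h in
theorem entB (M : Multiset ℤ) :
    pn p (Mu a b x (Icc 1 (3 * L) \ TT L p) (Np (Zm L + M))) ≤ (p : ℝ) ^ (1 : ℤ) := by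
  refine he p a b x _ _ 1 (by omega) (rng hL h sdiff_subset) (fun j hj => ?_) (Or.inl le_rfl)
  have := two (p := p) (S := Icc 1 (3 * L) \ TT L p) (fun j hj => by
    have := mem_Icc.1 (mem_sdiff.1 hj).1
    omega) (-(j : ℤ))
  unfold od
  split_ifs with hjp
  · omega
  · simp only [TT, mem_sdiff, mem_Icc, mem_Ioc] at hj
    have := three (L := L) (p := p) (j := j) (by omega) (by omega) M
    omega

include he hL h in
theorem entC (M : Multiset ℤ) (h2 : 2 * L < p) (hM : M.card + (TT L p).card + 2 ≤ p) :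
    pn p (Mu a b x (Icc 1 (3 * L) \ TT L p) (Np (Zm L + M))) ≤ (p : ℝ) ^ (0 : ℤ) := by
  have hS : ∀ j ∈ Icc 1 (3 * L) \ TT L p, 0 < j ∧ j ≤ 0 + p := fun j hj => by
    simp only [TT, mem_sdiff, mem_Icc, mem_Ioc] at hj
    omega
  refine he p a b x _ _ 0 (by omega) (rng hL h sdiff_subset) (fun j hj => ?_) (Or.inr ⟨le_rfl, ?_⟩)
  · have h1 := one hS (-(j : ℤ))
    have h3 := hS j hj
    unfold od
    rw [if_pos (by omega)]
    omega
  · have h1 := card_sdiff_add_card_eq_card (TT_sub L p)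
    rw [Nat.card_Icc] at h1
    rw [Multiset.card_add, card_Zm]
    omega

/-- Roots of the basis polynomials. -/
def Bs (L p i : ℕ) : Multiset ℤ :=
  if i < (TT L p).card then Multiset.replicate i 0
  else ((TT L p).val.map fun j : ℕ => -(j : ℤ)) + Multiset.replicate (i - (TT L p).card) 0

theorem card_Bs (L p i : ℕ) : (Bs L p i).card = i := by
  unfold Bs
  split_ifs with hi
  · exact Multiset.card_replicate _ _
  · rw [Multiset.card_add, Multiset.card_map, card_val, Multiset.card_replicate]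
    omega

/-- Weights. -/
def ww (L p i : ℕ) : ℕ := if i < (TT L p).card then 4 else if p ≤ i + 2 * L then 1 else 0

theorem sum_ww (L p Z : ℕ) : ∑ i ∈ range Z, ww L p i =
    4 * min Z (TT L p).card + (Z - max (TT L p).card (p - 2 * L)) := by
  induction Z with
  | zero => simp
  | succ Z ih =>
    rw [sum_range_succ, ih, ww]
    split_ifs <;> omega

theorem conv {y w : ℕ} (hw : 2 * y ≤ w) : (p : ℝ) ^ (y : ℤ) ≤ √p ^ w := by
  have h1 : (1 : ℝ) ≤ p := H13.Class.one_le_p
  have hq : (1 : ℝ) ≤ √p := Real.one_le_sqrt.2 h1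
  have hq2 : √(p : ℝ) ^ 2 = p := Real.sq_sqrt (by positivity)
  rw [zpow_natCast]
  nth_rewrite 1 [← hq2]
  rw [← pow_mul]
  exact pow_le_pow_right₀ hq hw

include he hL h in
theorem entry (hl : LinkStmt) (hc : CancelStmt) {i j : ℕ} (hi : i < 2 * L) (hj : j < 2 * L)
    (hn : ¬i < (TT L p).card) :
    pn p (lam (mom a b x L) (Np (Bs L p i) * Np (Bs L p j))) ≤ √p ^ (ww L p i + ww L p j) := by
  have e : Np (Zm L) * (Np (Bs L p i) * Np (Bs L p j)) =
      Dp (TT L p) * Np (Zm L + (Multiset.replicate (i - (TT L p).card) 0 + Bs L p j)) := by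
    rw [Dp_eq, Np_add, Np_add]
    conv_lhs => rw [Bs, if_neg hn, Np_add]
    ring
  rw [hl, e, hc _ _ _ _ _ _ (TT_sub L p)]
  by_cases hw : 2 ≤ ww L p i + ww L p j
  · exact (entB he a b x hL h _).trans (conv (y := 1) hw)
  · refine (entC he a b x hL h _ ?_ ?_).trans (conv (y := 0) (Nat.zero_le _))
    · unfold ww at hw
      split_ifs at hw <;> omega
    · rw [Multiset.card_add, Multiset.card_replicate, card_Bs]
      unfold ww at hw
      split_ifs at hw <;> omega

end LargeP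

open LargeP in
theorem large (hl : LinkStmt) (hc : CancelStmt) (he : EntryLStmt) : LargeStmt := by
  intro p _ a b x L hL h
  rw [Del, ← D57.gram ℚ _ (2 * L) (fun i => Np (Bs L p i))
    fun i => ⟨Np_monic _, (Np_natDegree _).trans (card_Bs L p i)⟩]
  refine (D57.detP p _ _ (fun i => √p ^ ww L p i) fun i j => ?_).trans (le_of_eq ?_)
  · rw [Matrix.of_apply, ← pow_add]
    by_cases hi : (i : ℕ) < (TT L p).card
    · by_cases hj : (j : ℕ) < (TT L p).card
      · rw [hl, ← Np_add, ← Np_add]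
        refine (entA he a b x hL h _).trans (conv (y := 4) ?_)
        rw [ww, ww, if_pos hi, if_pos hj]
      · rw [mul_comm (Np _), add_comm]
        exact entry he a b x hL h hl hc j.2 i.2 hj
    · exact entry he a b x hL h hl hc i.2 j.2 hi
  · have hq2 : √(p : ℝ) ^ 2 = p := Real.sq_sqrt (by positivity)
    have e3 : ∀ i : Fin (2 * L), (√(p : ℝ) ^ ww L p i) ^ 2 = (p : ℝ) ^ ww L p i := fun i => by
      rw [← pow_mul, mul_comm, pow_mul, hq2]
    simp only [e3]
    rw [prod_pow_eq_pow_sum, Fin.sum_univ_eq_sum_range (ww L p), fL]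
    have e4 : ∑ i ∈ range (2 * L), ww L p i + (5 * L - 2 * p) + 6 * (2 * L - p) =
        (4 * L - p) + 4 * (3 * L - p) := by
      rw [sum_ww, TT_card]
      omega
    have e5 := congrArg (Nat.cast : ℕ → ℝ) e4
    rw [Nat.cast_add, Nat.cast_add, Nat.cast_add, Nat.cast_mul 6, Nat.cast_mul 4] at e5
    rw [← Real.exp_log (pow_pos H13.Class.p_pos _), Real.log_pow]
    congr 2
    push_cast at e5 ⊢
    linarith

end Pool.Agent.MP_807c24_nt.Z23
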