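import Pool.Agent.MP_807c24_nt.Z23.Basic

/-!
The basis built from thresholds, and the bound for the medium primes.
-/

namespace Pool.Agent.MP_807c24_nt.Z23

open Finset Polynomial
open Pool.Agent.MP_807c24_nt.H13 (pn)
open Pool.Agent.MP_807c24_nt.D57 (lam hank psi)

namespace MediumP

theorem card_lt (Z D : ℕ) : ∑ i : Fin Z, (if (i : ℕ) < D then 1 else 0) ≤ D := by
  rw [Fin.sum_univ_eq_sum_range (fun i => if i < D then 1 else 0), ← Finset.card_filter]
  refine (Finset.card_le_card (t := Finset.range D) fun i hi => ?_).trans (Finset.card_range D).le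
  exact Finset.mem_range.2 (Finset.mem_filter.1 hi).2

theorem sum_u_le (Z U : ℕ) (D : ℕ → ℕ) (u : Fin Z → ℕ) (h1 : ∀ i, u i ≤ U)
    (h2 : ∀ (i : Fin Z) (v : ℕ), v < u i → (i : ℕ) < D v) :
    ∑ i, u i ≤ ∑ v ∈ range U, D v := by
  calc ∑ i, u i ≤ ∑ i : Fin Z, ∑ v ∈ range U, (if (i : ℕ) < D v then 1 else 0) := by
        refine Finset.sum_le_sum fun i _ => ?_
        rw [← Finset.card_filter]
        refine (Finset.card_range (u i)).ge.trans (Finset.card_le_card fun v hv => ?_)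
        have := Finset.mem_range.1 hv
        exact Finset.mem_filter.2 ⟨Finset.mem_range.2 (this.trans_le (h1 i)), h2 i v this⟩
    _ = ∑ v ∈ range U, ∑ i : Fin Z, (if (i : ℕ) < D v then 1 else 0) := Finset.sum_comm
    _ ≤ _ := Finset.sum_le_sum fun v _ => card_lt Z (D v)

theorem sum_half (U : ℕ) : ∀ n : ℕ, 4 * ∑ u ∈ range U, (n - u) / 2 + n % 2 ≤ n ^ 2 := by
  induction U with
  | zero =>
    intro n
    rcases n with _ | n
    · simp
    · have := Nat.mod_lt (n + 1) two_pos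
      have : 1 ≤ (n + 1) ^ 2 := Nat.one_le_pow _ _ n.succ_pos
      simp only [range_zero, sum_empty]
      omega
  | succ U ih =>
    intro n
    rcases n with _ | n
    · simp
    · have := ih n
      rw [sum_range_succ']
      simp only [Nat.add_sub_add_right, Nat.sub_zero]
      rw [show (n + 1) ^ 2 = n ^ 2 + 2 * n + 1 by ring]
      omega

theorem toNat_sq (x : ℤ) : ((x.toNat ^ 2 : ℕ) : ℤ) ≤ x ^ 2 := by
  rcases le_total 0 x with h | h
  · rw [Nat.cast_pow, Int.toNat_of_nonneg h]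
  · rw [Int.toNat_of_nonpos h]
    simpa using sq_nonneg x

theorem sum_half_int (U : ℕ) (z : ℤ) :
    4 * ((∑ w ∈ range U, ((z - w) / 2).toNat : ℕ) : ℤ) ≤ z ^ 2 := by
  have e : ∑ w ∈ range U, ((z - w) / 2).toNat = ∑ w ∈ range U, (z.toNat - w) / 2 :=
    sum_congr rfl fun w _ => by omega
  rw [e]
  refine le_trans ?_ (toNat_sq z)
  exact_mod_cast (Nat.le_add_right _ _).trans (sum_half U _)

theorem zpow_le {p : ℕ} {N : ℤ} (hp : 0 < p) {x : ℝ} (h : (N : ℝ) ≤ x) :
    (p : ℝ) ^ N ≤ Real.exp (x * Real.log p) := by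
  have p1 : (1 : ℝ) ≤ p := by exact_mod_cast hp
  have p0 : (0 : ℝ) < p := by linarith
  rw [← Real.rpow_intCast, Real.rpow_def_of_pos p0, mul_comm]
  exact Real.exp_le_exp.2 (mul_le_mul_of_nonneg_right h (Real.log_nonneg p1))

/-- The thresholds for a medium prime. -/
def al (L p τ w : ℕ) : Multiset ℤ :=
  ∑ c ∈ range p, ((-od (Zm L) (Icc 1 (3 * L)) p c + τ - w) / 2).toNat • ({(c : ℤ)} : Multiset ℤ)

theorem od_ge (L p : ℕ) (c : ℤ) : -(3 * L : ℤ) ≤ od (Zm L) (Icc 1 (3 * L)) p c := by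
  have h := card_filter_le (Icc 1 (3 * L)) fun j : ℕ => (p : ℤ) ∣ (j : ℤ) + c
  rw [Nat.card_Icc] at h
  unfold od
  omega

theorem al_card (L p τ w : ℕ) : (al L p τ w).card =
    ∑ c ∈ range p, ((-od (Zm L) (Icc 1 (3 * L)) p c + τ - w) / 2).toNat := by
  simp [al, Multiset.card_sum]

theorem al_count (L p τ w : ℕ) {c : ℕ} (hc : c < p) :
    ((-od (Zm L) (Icc 1 (3 * L)) p c + τ - w) / 2).toNat ≤
      (al L p τ w).countP fun t => (p : ℤ) ∣ t - c := by
  have h : ((-od (Zm L) (Icc 1 (3 * L)) p c + τ - w) / 2).toNat • ({(c : ℤ)} : Multiset ℤ) ≤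
      al L p τ w := single_le_sum (f := fun c : ℕ =>
        ((-od (Zm L) (Icc 1 (3 * L)) p c + τ - w) / 2).toNat • ({(c : ℤ)} : Multiset ℤ))
      (fun _ _ => Multiset.zero_le _) (mem_range.2 hc)
  refine le_trans ?_ (Multiset.countP_le_of_le _ h)
  rw [Multiset.countP_nsmul, Multiset.countP_eq_card.2 (by simp)]
  simp

theorem al_sum (hs : SqStmt) (L p τ U : ℕ) (hp : 0 < p) :
    4 * ((∑ w ∈ range U, (al L p τ w).card : ℕ) : ℤ) ≤ 12 * L + 2 * Phi L p + p * (τ : ℤ) ^ 2 := by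
  obtain ⟨s1, s2⟩ := hs L p hp
  simp only [al_card]
  rw [sum_comm, Nat.cast_sum, mul_sum]
  refine (sum_le_sum fun c _ => sum_half_int U _).trans_eq ?_
  have e : ∀ c : ℕ, (-od (Zm L) (Icc 1 (3 * L)) p c + τ) ^ 2 =
      od (Zm L) (Icc 1 (3 * L)) p c ^ 2 - 2 * τ * od (Zm L) (Icc 1 (3 * L)) p c + (τ : ℤ) ^ 2 :=
    fun c => by ring
  simp only [e]
  rw [sum_add_distrib, sum_sub_distrib, ← mul_sum, s1, s2, sum_const, card_range, nsmul_eq_mul]
  ring

end MediumP

open MediumP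

theorem thresh : ThreshStmt := by
  intro p _ μ Z U T α hU hB
  have h1 : (1 : ℝ) ≤ p := H13.Class.one_le_p
  have hU0 : (α U).card = 0 := by rw [hU, Multiset.card_zero]
  have hex : ∀ i : Fin Z, ∃ u, (α u).card ≤ i := fun i => ⟨U, by omega⟩
  set u : Fin Z → ℕ := fun i => Nat.find (hex i) with hu
  have u1 : ∀ i, (α (u i)).card ≤ i := fun i => Nat.find_spec (hex i)
  have u2 : ∀ i, u i ≤ U := fun i => Nat.find_min' (hex i) (by omega)
  have u3 : ∀ (i : Fin Z) (v : ℕ), v < u i → (i : ℕ) < (α v).card :=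
    fun i v hv => not_le.1 (Nat.find_min (hex i) hv)
  set s : Fin Z → ℕ := fun i => i - (α (u i)).card with hs
  rw [← D57.gram ℚ μ Z (fun i => Np (α (u i) + Multiset.replicate (s i) 0))
    fun i => ⟨Np_monic _, by
      have := u1 i
      rw [Np_natDegree, Multiset.card_add, Multiset.card_replicate]
      simp only [hs]
      omega⟩]
  have hq : (1 : ℝ) ≤ √p := Real.one_le_sqrt.2 h1
  have hq0 : √(p : ℝ) ≠ 0 := by linarith
  have hq2 : √(p : ℝ) ^ (2 : ℤ) = p := by
    rw [zpow_ofNat]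
    exact Real.sq_sqrt (by positivity)
  refine (D57.detP p Z _ (fun i => √p ^ (T + u i)) fun i j => ?_).trans ?_
  · have e1 : α (u i) + Multiset.replicate (s i) 0 + (α (u j) + Multiset.replicate (s j) 0) =
        α (u i) + α (u j) + Multiset.replicate (s i + s j) 0 := by
      rw [Multiset.replicate_add]
      abel
    rw [Matrix.of_apply, ← Np_add, e1]
    refine (hB (u i) (u j) (s i + s j)).trans ?_
    rw [← zpow_add₀ hq0]
    nth_rewrite 1 [← hq2]
    rw [← zpow_mul]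
    exact zpow_le_zpow_right₀ hq (by omega)
  · have e3 : ∀ i, (√(p : ℝ) ^ (T + u i)) ^ 2 = (p : ℝ) ^ (T + u i) := fun i => by
      rw [← zpow_ofNat, ← zpow_mul, mul_comm, zpow_mul, hq2]
    simp only [e3]
    have e4 : ∀ t : Finset (Fin Z), ∏ i ∈ t, (p : ℝ) ^ (T + u i) = (p : ℝ) ^ ∑ i ∈ t, (T + u i) := by
      intro t
      induction t using Finset.induction_on with
      | empty => simp
      | insert i t hi ih => rw [prod_insert hi, sum_insert hi, ih, ← zpow_add₀ (by linarith)]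
    rw [e4]
    refine zpow_le_zpow_right₀ h1 ?_
    rw [Finset.sum_add_distrib, Finset.sum_const, Finset.card_univ, Fintype.card_fin, nsmul_eq_mul,
      ← Nat.cast_sum]
    exact add_le_add_right (Int.ofNat_le.2 (sum_u_le _ U (fun v => (α v).card) u u2 u3)) _

theorem medium (hl : LinkStmt) (he : EntryMStmt) (ht : ThreshStmt) (hs : SqStmt) : MediumStmt := by
  intro p hp a b x L hL h6
  have p0 : 0 < p := hp.out.pos
  have p2 : p ≠ 2 := by
    rintro rfl
    omega
  have p3 : 2 * p ≤ p ^ 2 := by nlinarith [hp.out.two_le]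
  obtain ⟨τ, t1, t2⟩ : ∃ τ : ℕ, 2 * p * τ ≤ 8 * L + p ∧ 8 * L + p < 2 * p * (τ + 1) :=
    ⟨(8 * L + p) / (2 * p), Nat.mul_div_le _ _, Nat.lt_mul_div_succ _ (by omega)⟩
  have t3 : τ ≤ p := by
    by_contra g
    have : 2 * p * (p + 1) ≤ 2 * p * τ := Nat.mul_le_mul_left _ (by omega)
    nlinarith
  refine (ht p (mom a b x L) (2 * L) (3 * L + p + 1) (3 - τ) (al L p τ) ?_
    fun w w' s => ?_).trans (zpow_le p0 ?_)
  · refine sum_eq_zero fun c _ => ?_
    have := od_ge L p c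
    rw [show ((-od (Zm L) (Icc 1 (3 * L)) p c + τ - (3 * L + p + 1 : ℕ)) / 2).toNat = 0 by omega,
      zero_nsmul]
  · rw [hl, ← Np_add]
    refine (he p a b x _ _ (τ - 1 - ((w + w') / 2 : ℕ)) p2 (fun j hj => ?_) (by omega)
      fun c => ?_).trans_eq (by congr 1; ring)
    · have := mem_Icc.1 hj
      omega
    · have q0 : (0 : ℤ) < p := by exact_mod_cast p0
      have a1 := Int.emod_nonneg c q0.ne'
      have a2 := Int.emod_lt_of_pos c q0
      have a3 : (((c % p).toNat : ℕ) : ℤ) = c % p := Int.toNat_of_nonneg a1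
      have a4 : (c % p).toNat < p := by omega
      rw [od_congr _ _ _ (c' := ((c % p).toNat : ℕ)) (by rw [a3]; exact Int.dvd_self_sub_emod),
        od_add, Multiset.countP_add, Multiset.countP_add]
      have b1 := al_count L p τ w a4
      have b2 := al_count L p τ w' a4
      omega
  · have a1 := al_sum hs L p τ (3 * L + p + 1) p0
    generalize ∑ w ∈ range (3 * L + p + 1), (al L p τ w).card = N at a1
    have r0 : (0 : ℝ) < p := by exact_mod_cast p0
    have b1 : 4 * (N : ℝ) ≤ 12 * L + 2 * Phi L p + p * (τ : ℝ) ^ 2 := by exact_mod_cast a1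
    have b2 : 2 * (p : ℝ) * τ ≤ 8 * L + p := by exact_mod_cast t1
    have b3 : 8 * (L : ℝ) + p < 2 * p * (τ + 1) := by exact_mod_cast t2
    have b4 : 4 * (L : ℝ) ^ 2 / p ≤ 2 * L * τ - p * (τ : ℝ) ^ 2 / 4 + p / 16 := by
      rw [div_le_iff₀ r0]
      nlinarith [mul_nonneg (show 0 ≤ 8 * (L : ℝ) + p - 2 * p * τ by linarith)
        (show 0 ≤ 2 * (p : ℝ) * τ + p - 8 * L by linarith)]
    push_cast
    linarith

end Pool.Agent.MP_807c24_nt.Z23
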