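import Pool.Agent.MP_807c24_nt.Z23.H13Core

/-! The Hankel determinant is not zero when `L` is a large prime. -/

namespace Pool.Agent.MP_807c24_nt.Z23.H13

open Finset Polynomial
open Pool.Agent.MP_807c24_nt.H13 (pn)
open Pool.Agent.MP_807c24_nt.H13.Class
open Pool.Agent.MP_807c24_nt.D57 (lam hank)
open Pool.Agent.MP_807c24_nt.D57.Alg
open Pool.Agent.MP_807c24_nt.D57.Two

noncomputable section

/-- Harmonic sums. -/
def Hh (a2 a3 : ℚ) (j : ℕ) : ℚ := ∑ u ∈ Ico 1 j, (a3 / (u : ℚ) ^ 3 + a2 / (u : ℚ) ^ 2)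

/-- The functional on `N / Dn J`. -/
def mu (x a2 a3 : ℚ) (J : Finset ℕ) (N : ℚ[X]) : ℚ :=
  Lam a2 a3 (N /ₘ Dn J) + ∑ j ∈ J, rs J N j * (x - Hh a2 a3 j)

/-- Products of linear factors. -/
def PE (L : ℕ) (E : ℕ → ℕ) : ℚ[X] := ∏ t ∈ range L, (X - C (t : ℚ)) ^ E t

theorem div_lin (D : ℚ[X]) (hD : D.Monic) (a : ℚ) (A B : ℚ[X]) :
    (C a * A + B) /ₘ D = C a * (A /ₘ D) + B /ₘ D := by
  refine mul_left_cancel₀ hD.ne_zero ?_
  have h1 := modByMonic_add_div (C a * A + B) D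
  rw [add_modByMonic, ← smul_eq_C_mul, smul_modByMonic, smul_eq_C_mul, smul_eq_C_mul] at h1
  linear_combination h1 - C a * modByMonic_add_div A D - modByMonic_add_div B D

theorem mu_lin (x a2 a3 : ℚ) (J : Finset ℕ) (a : ℚ) (A B : ℚ[X]) :
    mu x a2 a3 J (C a * A + B) = a * mu x a2 a3 J A + mu x a2 a3 J B := by
  simp only [mu, Lam, rs, div_lin _ (Dn_monic J), lam_add, lam_C_mul, eval_add, eval_mul, eval_C,
    mul_add, mul_sum]
  rw [add_add_add_comm, ← sum_add_distrib]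
  congr 1
  exact sum_congr rfl fun j _ => by ring

theorem lam_mu (x a2 a3 : ℚ) (J : Finset ℕ) (N P : ℚ[X]) :
    lam (fun k => mu x a2 a3 J (N * X ^ k)) P = mu x a2 a3 J (N * P) := by
  have h0 : mu x a2 a3 J 0 = 0 := by simp [mu, Lam, rs, lam_zero]
  induction P using Polynomial.induction_on' with
  | add f g hf hg =>
    have := mu_lin x a2 a3 J 1 (N * f) (N * g)
    rw [map_one, one_mul, one_mul] at this
    rw [lam_add, hf, hg, mul_add, this]
  | monomial k a =>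
    have := mu_lin x a2 a3 J a (N * X ^ k) 0
    rw [add_zero, h0, add_zero] at this
    rw [lam_monomial, ← C_mul_X_pow_eq_monomial, mul_left_comm, this]

theorem sum_blocks (f : ℕ → ℚ) (q n : ℕ) :
    ∑ j ∈ Icc 1 (n * q), f j = ∑ i ∈ range n, ∑ c ∈ range q, f ((i + 1) * q - c) := by
  induction n with
  | zero => simp
  | succ n ih =>
    rw [sum_range_succ, ← ih, show Icc 1 ((n + 1) * q) = Ioc 0 ((n + 1) * q) from rfl,
      show Icc 1 (n * q) = Ioc 0 (n * q) from rfl,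
      ← sum_Ioc_consecutive _ (Nat.zero_le (n * q)) (by nlinarith), add_mul, one_mul]
    congr 1
    refine sum_bij' (fun j _ => n * q + q - j) (fun c _ => n * q + q - c) ?_ ?_ ?_ ?_ ?_ <;>
      intro a ha <;> simp only [mem_Ioc, mem_range] at ha ⊢
    any_goals omega
    congr 1
    omega

variable {p : ℕ} [hp : Fact p.Prime]

theorem pn_inv_nat {n : ℕ} (h0 : 0 < n) (h : n < p) : pn p (n : ℚ)⁻¹ = 1 := by
  have := pn_unit (p := p) (c := n) fun g => absurd (Int.le_of_dvd (by omega) g) (by omega)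
  rw [Int.cast_natCast] at this
  rw [pn_inv, this, inv_one]

theorem bern_le (h2 : 2 < p) (l : ℕ) : pn p (_root_.bernoulli l) ≤ p := by
  rcases Nat.even_or_odd' l with ⟨k, rfl | rfl⟩
  · obtain ⟨z, hz⟩ := Bernoulli.vonStaudt_clausen k
    rw [eq_comm, ← eq_sub_iff_add_eq] at hz
    rw [hz]
    refine pn_sub ((pn_int z).trans one_le_p) (pn_sum p_pos.le fun q hq => ?_)
    have hq' := (mem_filter.1 hq).2.1
    by_cases h : q = p
    · rw [h, one_div, pn_inv, pn_p, inv_inv]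
    · have := pn_unit (p := p) (c := q) fun g =>
        h ((Nat.prime_dvd_prime_iff_eq hp.out hq').1 (Int.natCast_dvd_natCast.1 g)).symm
      rw [Int.cast_natCast] at this
      rw [one_div, pn_inv, this, inv_one]
      exact one_le_p
  · rcases Nat.eq_zero_or_pos k with rfl | hk
    · have := pn_inv_nat (p := p) (n := 2) (by norm_num) h2
      rw [show _root_.bernoulli (2 * 0 + 1) = -((2 : ℕ) : ℚ)⁻¹ by norm_num, pn_neg, this]
      exact one_le_p
    · rw [bernoulli_eq_zero_of_odd ⟨k, rfl⟩ (by omega), pn_zero]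
      exact p_pos.le

theorem small {a : ℚ} (h : pn p a ≤ 1) (n : ℕ) : pn p ((p : ℚ) ^ (n + 1) * a) ≤ (p : ℝ)⁻¹ := by
  rw [pow_succ', mul_assoc]
  refine (pn_mul_le pn_p.le (pn_mul_le (A := 1) ?_ h)).trans_eq (by ring)
  rw [pn_pow]
  exact pow_le_one₀ (pn_nonneg _) (pn_nat p)

theorem pb_le (h2 : 2 < p) (l : ℕ) : pn p ((p : ℚ) * _root_.bernoulli l) ≤ 1 :=
  (pn_mul_le pn_p.le (bern_le h2 l)).trans_eq (inv_mul_cancel₀ p_pos.ne')

theorem mul1 {a b : ℚ} (ha : pn p a ≤ 1) (hb : pn p b ≤ 1) : pn p (a * b) ≤ 1 :=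
  (pn_mul_le ha hb).trans_eq (one_mul _)

variable {x a2 a3 : ℚ}

theorem ww_hi (h2 : 2 < p) (ha2 : pn p a2 ≤ 1) (ha3 : pn p a3 ≤ 1) (l : ℕ) :
    pn p (ww a2 a3 p (4 + l)) ≤ (p : ℝ)⁻¹ := by
  have h0 := pq_ne (p := p)
  have e : ww a2 a3 p (4 + l) = (p : ℚ) ^ (l + 1 + 1) * (a2 * (p * _root_.bernoulli (4 + l))) -
      (p : ℚ) ^ (l + 1) * (a3 * ((2 : ℕ) : ℚ)⁻¹ * (4 + l : ℕ) * (p * _root_.bernoulli (3 + l))) := by
    rw [ww, show 4 + l - 1 = 3 + l by omega]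
    push_cast
    field_simp
    ring
  rw [e]
  exact pn_sub (small (mul1 ha2 (pb_le h2 _)) _) (small (mul1 (mul1 (mul1 ha3
    (pn_inv_nat (by norm_num) h2).le) (pn_nat _)) (pb_le h2 _)) _)

omit hp in
theorem ww_lo (h0 : (p : ℚ) ≠ 0) : ww a2 a3 p 0 = a2 / p ∧ ww a2 a3 p 1 = -(a2 / 2) - a3 / (2 * p) ∧
    ww a2 a3 p 2 = a2 * p / 6 + a3 / 2 ∧ ww a2 a3 p 3 = -(a3 * p / 4) := by
  have h3 : _root_.bernoulli 3 = 0 := bernoulli_eq_zero_of_odd (by decide) (by decide)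
  refine ⟨?_, ?_, ?_, ?_⟩ <;> simp [ww, h3] <;> field_simp <;> ring

theorem lam_trunc {ν : ℕ → ℚ} {T : ℚ[X]} (hT : ∀ l, pn p (T.coeff l) ≤ 1)
    (hν : ∀ l, pn p (ν (4 + l)) ≤ (p : ℝ)⁻¹) :
    pn p (lam ν T - ∑ l ∈ range 4, T.coeff l * ν l) ≤ (p : ℝ)⁻¹ := by
  rw [lam, sum_over_range' T (by simp) (4 + T.natDegree) (by omega), sum_range_add,
    add_sub_cancel_left]
  exact pn_sum (inv_nonneg.2 p_pos.le) fun l _ => (pn_mul_le (hT _) (hν l)).trans_eq (one_mul _)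

/-- The local sum at a point. -/
def gg (a2 a3 : ℚ) (p : ℕ) (y : ℚ) : ℚ := ∑ l ∈ range 4, (-1) ^ l / y ^ (l + 1) * ww a2 a3 p l

/-- The value at a pole. -/
def YY (x a2 a3 : ℚ) (p j : ℕ) : ℚ := x - Hh a2 a3 j - ∑ c ∈ range p, gg a2 a3 p ((c : ℚ) + j)

/-- The numerator without the class. -/
def AA (p : ℕ) (E : ℕ → ℕ) (c : ℕ) (y : ℚ) : ℚ := ∏ t ∈ (range p).erase c, (y - t) ^ E t

/-- The contribution of a class. -/
def SS (x a2 a3 : ℚ) (p : ℕ) (E : ℕ → ℕ) (c : ℕ) : ℚ :=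
  ∑ i ∈ range 3, rs (Icc 1 (3 * p)) (PE p E) ((i + 1) * p - c) * YY x a2 a3 p ((i + 1) * p - c) +
    0 ^ (E c - 3) * AA p E c c / (Dn (Icc 1 (3 * p))).eval (c : ℚ) * ww a2 a3 p 3

theorem mu_split (h2 : 2 < p) (ha2 : pn p a2 ≤ 1) (ha3 : pn p a3 ≤ 1) {E : ℕ → ℕ}
    (hE : ∀ t, 3 ≤ E t) :
    pn p (mu x a2 a3 (Icc 1 (3 * p)) (PE p E) - ∑ c ∈ range p, SS x a2 a3 p E c) ≤ (p : ℝ)⁻¹ := by
  set J := Icc 1 (3 * p) with hJ
  have hT : ∀ c ∈ range p, ∑ l ∈ range 4, (taylor (c : ℚ) (PE p E /ₘ Dn J)).coeff l * ww a2 a3 p l =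
      0 ^ (E c - 3) * AA p E c c / (Dn J).eval (c : ℚ) * ww a2 a3 p 3 -
        ∑ j ∈ J, rs J (PE p E) j * gg a2 a3 p ((c : ℚ) + j) := by
    intro c hc
    have e : PE p E = (X - C (c : ℚ)) ^ 3 * ((X - C (c : ℚ)) ^ (E c - 3) *
        ∏ t ∈ (range p).erase c, (X - C (t : ℚ)) ^ E t) := by
      rw [← mul_assoc, ← pow_add, Nat.add_sub_cancel' (hE c), PE, ← mul_prod_erase _ _ hc]
    have h1 := fun l hl => taylor_quot J (c : ℚ) (fun j hj => by
      have : 0 < j := (mem_Icc.1 hj).1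
      positivity) ((X - C (c : ℚ)) ^ (E c - 3) *
        ∏ t ∈ (range p).erase c, (X - C (t : ℚ)) ^ E t) 3 l hl
    rw [← e] at h1
    rw [sum_congr rfl fun l hl => by rw [h1 l (Nat.lt_succ_iff.1 (mem_range.1 hl)), sub_mul],
      sum_sub_distrib]
    congr 1
    · simp [AA, eval_prod]
    · simp only [gg, sum_mul, mul_sum, mul_assoc]
      exact sum_comm
  have e : mu x a2 a3 J (PE p E) - ∑ c ∈ range p, SS x a2 a3 p E c =
      ∑ c ∈ range p, (lam (ww a2 a3 p) (taylor (c : ℚ) (PE p E /ₘ Dn J)) -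
        ∑ l ∈ range 4, (taylor (c : ℚ) (PE p E /ₘ Dn J)).coeff l * ww a2 a3 p l) := by
    rw [sum_sub_distrib, sum_congr rfl hT, sum_sub_distrib, ← Lam_dist a2 a3 hp.out.pos, mu]
    simp only [SS, sum_add_distrib]
    rw [sum_comm (s := range p) (t := range 3),
      ← sum_blocks (fun j => rs J (PE p E) j * YY x a2 a3 p j) p 3, sum_comm (s := range p) (t := J)]
    simp only [YY, mul_sub (rs J (PE p E) _) (x - _), sum_sub_distrib, mul_sum]
    ring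
  rw [e]
  refine pn_sum (inv_nonneg.2 p_pos.le) fun c _ => lam_trunc (fun l => ?_) (ww_hi h2 ha2 ha3)
  obtain ⟨z, hz⟩ := taylor_int J c (∏ t ∈ range p, (X - C (t : ℤ)) ^ E t) l
  have e2 : (∏ t ∈ range p, (X - C (t : ℤ)) ^ E t : ℤ[X]).map (Int.castRingHom ℚ) = PE p E := by
    simp [PE, Polynomial.map_prod]
  rw [e2, Int.cast_natCast] at hz
  rw [hz]
  exact pn_int z

theorem pn_rat (h : 367 < p) {r : ℚ} (hr : r.den ≤ 367) : pn p r ≤ 1 := by
  rw [← Rat.num_div_den r, div_eq_mul_inv]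
  exact mul1 (pn_int _) (pn_inv_nat r.den_pos (by omega)).le

theorem unit_nat {n : ℕ} (h : ¬p ∣ n) : pn p (n : ℚ)⁻¹ = 1 := by
  have := pn_unit (p := p) (c := n) fun g => h (Int.natCast_dvd_natCast.1 g)
  rw [Int.cast_natCast] at this
  rw [pn_inv, this, inv_one]

theorem cg_add {a b : ℚ} (ha : pn p a ≤ 1) (hb : pn p b ≤ 1) : Cg p (a + p * b) a := by
  have := Cg.add' (Cg.refl' ha) (Cg.zero' (small hb 0))
  rwa [add_zero, zero_add, pow_one] at this

theorem Hh_cg (ha2 : pn p a2 ≤ 1) (ha3 : pn p a3 ≤ 1) {c i : ℕ} (hc : c < p) (hi : i < p) :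
    Cg p ((p : ℚ) ^ 3 * Hh a2 a3 ((i + 1) * p - c))
      (a3 * ∑ k ∈ Ico 1 (i + 1), 1 / (k : ℚ) ^ 3) := by
  have h0 := pq_ne (p := p)
  have e : (Ico 1 ((i + 1) * p - c)).filter (p ∣ ·) = (Ico 1 (i + 1)).image (· * p) := by
    ext u
    simp only [mem_filter, mem_Ico, mem_image]
    constructor
    · rintro ⟨⟨h1, h2⟩, k, rfl⟩
      refine ⟨k, ⟨Nat.pos_of_ne_zero fun g => by simp [g] at h1, ?_⟩, mul_comm _ _⟩
      by_contra g
      have := Nat.mul_le_mul_right p (not_lt.1 g)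
      rw [mul_comm k] at this
      omega
    · rintro ⟨k, ⟨h1, h2⟩, rfl⟩
      have := Nat.mul_le_mul_right p (Nat.lt_succ_iff.1 h2)
      rw [add_mul, one_mul]
      exact ⟨⟨Nat.mul_pos h1 hp.out.pos, by omega⟩, dvd_mul_left _ _⟩
  rw [Hh, ← sum_filter_add_sum_filter_not _ (p ∣ ·), e,
    sum_image fun a _ b _ g => Nat.eq_of_mul_eq_mul_right hp.out.pos g, mul_add, mul_sum, mul_sum _ _ a3,
    ← add_zero (∑ k ∈ Ico 1 (i + 1), a3 * _)]
  refine Cg.add' (Cg.sum' fun k hk => ?_) (Cg.zero' (small (pn_sum zero_le_one fun u hu => ?_) 2))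
  · have h1 := mem_Ico.1 hk
    have h2 := pn_inv_nat (p := p) h1.1 (by omega)
    have h3 : (k : ℚ) ≠ 0 := by exact_mod_cast (by omega : k ≠ 0)
    convert cg_add (p := p) (a := a3 * (k : ℚ)⁻¹ ^ 3) (b := a2 * (k : ℚ)⁻¹ ^ 2)
      (mul1 ha3 (by rw [pn_pow, h2, one_pow])) (mul1 ha2 (by rw [pn_pow, h2, one_pow])) using 1
    · push_cast
      field_simp
    · rw [one_div, inv_pow]
  · have h2 := unit_nat (mem_filter.1 hu).2
    rw [div_eq_mul_inv, div_eq_mul_inv, ← inv_pow, ← inv_pow]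
    exact pn_add (mul1 ha3 (by rw [pn_pow, h2, one_pow])) (mul1 ha2 (by rw [pn_pow, h2, one_pow]))

theorem gg_le (h : 367 < p) (ha2 : pn p a2 ≤ 1) (ha3 : pn p a3 ≤ 1) {y : ℚ}
    (hy : pn p y⁻¹ = 1) : pn p (p * gg a2 a3 p y) ≤ 1 := by
  have h0 := pq_ne (p := p)
  obtain ⟨w0, w1, w2, w3⟩ := ww_lo (a2 := a2) (a3 := a3) h0
  have hp1 := pn_nat (p := p) p
  rw [gg, mul_sum]
  refine pn_sum zero_le_one fun l hl => ?_
  rw [mul_left_comm, div_eq_mul_inv, ← inv_pow]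
  refine mul1 (by rw [pn_mul, pn_sign, pn_pow, hy, one_pow, one_mul]) ?_
  have hl' := mem_range.1 hl
  interval_cases l
  · rwa [w0, mul_div_cancel₀ _ h0]
  · rw [w1, show (p : ℚ) * (-(a2 / 2) - a3 / (2 * p)) = (-1 / 2) * (p * a2 + a3) by
      field_simp; ring]
    exact mul1 (pn_rat h (by norm_num)) (pn_add (mul1 hp1 ha2) ha3)
  · rw [w2, show (p : ℚ) * (a2 * p / 6 + a3 / 2) = p * (a2 * p * (1 / 6) + a3 * (1 / 2)) by ring]
    exact mul1 hp1 (pn_add (mul1 (mul1 ha2 hp1) (pn_rat h (by norm_num)))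
      (mul1 ha3 (pn_rat h (by norm_num))))
  · rw [w3, show (p : ℚ) * -(a3 * p / 4) = p * (a3 * p * (-1 / 4)) by ring]
    exact mul1 hp1 (mul1 (mul1 ha3 hp1) (pn_rat h (by norm_num)))

/-- The main part of the local sum. -/
def y1 (i : ℕ) : ℚ := 1 / (2 * (i + 1) ^ 2) + 1 / (2 * (i + 1) ^ 3) + 1 / (4 * (i + 1) ^ 4)

/-- The leading term of the value at a pole. -/
def yy (i : ℕ) : ℚ := ∑ k ∈ Ico 1 (i + 1), 1 / (k : ℚ) ^ 3 + y1 i

omit hp in
theorem cast_pt {c : ℕ} (hc : c < p) (i : ℕ) : (((i + 1) * p - c : ℕ) : ℚ) = (i + 1) * p - c := by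
  rw [Nat.cast_sub (by nlinarith)]
  push_cast
  rfl

theorem YY_cg (h : 367 < p) (hx : pn p x ≤ 1) (ha2 : pn p a2 ≤ 1) (ha3 : pn p a3 ≤ 1) {c i : ℕ}
    (hc : c < p) (hi : i < 3) :
    Cg p ((p : ℚ) ^ 3 * YY x a2 a3 p ((i + 1) * p - c)) (-(a3 * yy i)) := by
  have h0 := pq_ne (p := p)
  have m1 : Cg p (-1 : ℚ) (-1) := Cg.refl' (by rw [pn_neg, pn_one])
  have h1 := Cg.zero' (small hx 2)
  have h2 := Hh_cg ha2 ha3 hc (show i < p by omega)
  have h3 := cg_add (p := p) (a := a3 * y1 i)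
    (b := a2 * (1 / (i + 1) + 1 / (2 * (i + 1) ^ 2) + 1 / (6 * (i + 1) ^ 3)))
    (mul1 ha3 (pn_rat h (by interval_cases i <;> norm_num [y1])))
    (mul1 ha2 (pn_rat h (by interval_cases i <;> norm_num)))
  have h4 : pn p (∑ c' ∈ (range p).erase c,
      p * gg a2 a3 p ((c' : ℚ) + ((i + 1) * p - c : ℕ))) ≤ 1 := by
    refine pn_sum zero_le_one fun c' hc' => gg_le h ha2 ha3 ?_
    rw [← Nat.cast_add]
    refine unit_nat fun g => ?_
    obtain ⟨g1, g2⟩ := mem_erase.1 hc'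
    have g3 : c' + ((i + 1) * p - c) + c = c' + (i + 1) * p := by
      rw [add_mul, one_mul]
      omega
    have g4 : c ≡ c' [MOD p] := by
      have := ((Nat.modEq_zero_iff_dvd.2 g).add_right c).symm
      rw [zero_add, g3] at this
      exact this.trans (by simp [Nat.ModEq])
    exact g1 (Nat.ModEq.eq_of_lt_of_lt g4 hc (mem_range.1 g2)).symm
  have h5 := Cg.add' h1 (m1.mul (Cg.add' h2 (Cg.add' h3 (Cg.zero' (small h4 1)))))
  obtain ⟨w0, w1, w2, w3⟩ := ww_lo (a2 := a2) (a3 := a3) h0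
  convert h5 using 1
  · rw [YY, ← add_sum_erase _ _ (mem_range.2 hc), ← mul_sum]
    have e : (p : ℚ) ^ 3 * gg a2 a3 p ((c : ℚ) + ((i + 1) * p - c : ℕ)) = a3 * y1 i +
        p * (a2 * (1 / (i + 1) + 1 / (2 * (i + 1) ^ 2) + 1 / (6 * (i + 1) ^ 3))) := by
      rw [cast_pt hc, add_sub_cancel, gg]
      simp only [sum_range_succ, sum_range_zero, w0, w1, w2, w3, y1]
      field_simp
      ring
    rw [← e]
    ring
  · rw [yy]
    ring

/-- The poles outside the class. -/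
def KK (p c : ℕ) : Finset ℕ := (Icc 1 (3 * p)).filter fun j => ¬p ∣ j + c

omit hp in
theorem cls_img {c : ℕ} (hc : c < p) : (Icc 1 (3 * p)).filter (fun j => p ∣ j + c) =
    (range 3).image fun i => (i + 1) * p - c := by
  ext j
  simp only [mem_filter, mem_Icc, mem_image, mem_range]
  constructor
  · rintro ⟨⟨h1, h2⟩, k, hk⟩
    rcases k with _ | k
    · omega
    refine ⟨k, ?_, by rw [mul_comm]; omega⟩
    by_contra g
    have := Nat.mul_le_mul_left p (show 4 ≤ k + 1 by omega)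
    omega
  · rintro ⟨i, hi, rfl⟩
    refine ⟨by interval_cases i <;> omega, ?_⟩
    rw [Nat.sub_add_cancel (by nlinarith)]
    exact dvd_mul_left _ _

theorem pt_inj {c : ℕ} (hc : c < p) : Function.Injective fun i : ℕ => (i + 1) * p - c := by
  intro a b g
  simp only [add_mul, one_mul] at g
  exact Nat.eq_of_mul_eq_mul_right hp.out.pos (by omega)

/-- The unit of a class. -/
def UU (p : ℕ) (E : ℕ → ℕ) (c n : ℕ) : ℚ :=
  AA p E c (c - n * p) / ∏ j ∈ KK p c, ((j : ℚ) + c - n * p)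

theorem UU_cg (E : ℕ → ℕ) (c n : ℕ) : Cg p (UU p E c n) (UU p E c 0) := by
  have h1 : Cg p (∏ t ∈ (range p).erase c, (((c : ℤ) - n * p - t : ℤ) : ℚ) ^ E t)
      (∏ t ∈ (range p).erase c, (((c : ℤ) - t : ℤ) : ℚ) ^ E t) :=
    Cg.prod fun t _ => (Cg.int ⟨-n, by ring⟩).pow _
  have h2 : Cg p (∏ j ∈ KK p c, (((j : ℤ) + c - n * p : ℤ) : ℚ) ^ (-1 : ℤ))
      (∏ j ∈ KK p c, (((j : ℤ) + c : ℤ) : ℚ) ^ (-1 : ℤ)) := by
    refine Cg.prod fun j hj => Cg.zpow ⟨-n, by ring⟩ (fun g => (mem_filter.1 hj).2 ?_) _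
    have := dvd_add g (dvd_mul_left (p : ℤ) n)
    rw [sub_add_cancel] at this
    exact_mod_cast this
  simpa [UU, AA, div_eq_mul_inv] using h1.mul h2

theorem UU_unit (E : ℕ → ℕ) {c : ℕ} (hc : c < p) : pn p (UU p E c 0) = 1 := by
  rw [UU, AA, div_eq_mul_inv, ← prod_inv_distrib, pn_mul, pn_prod, pn_prod, prod_eq_one,
    prod_eq_one, one_mul]
  · intro j hj
    simpa using unit_nat (mem_filter.1 hj).2
  · intro t ht
    obtain ⟨g1, g2⟩ := mem_erase.1 ht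
    have g3 := mem_range.1 g2
    have := pn_unit (p := p) (c := (c : ℤ) - t) fun g => by
      have := Int.eq_zero_of_abs_lt_dvd g (abs_lt.2 ⟨by omega, by omega⟩)
      omega
    rw [pn_pow, Nat.cast_zero, zero_mul, sub_zero]
    push_cast at this
    rw [this, one_pow]

/-- The denominators of the residues. -/
def dd (i : ℕ) : ℚ := ∏ k ∈ (range 3).erase i, ((k : ℚ) - i)

theorem rs_eq (E : ℕ → ℕ) {c i : ℕ} (hc : c < p) (hi : i < 3) :
    rs (Icc 1 (3 * p)) (PE p E) ((i + 1) * p - c) =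
      (p : ℚ) ^ E c / p ^ 2 * ((-((i : ℚ) + 1)) ^ E c * (dd i)⁻¹ * UU p E c (i + 1)) := by
  have e1 : (PE p E).eval (-(((i + 1) * p - c : ℕ) : ℚ)) =
      (p : ℚ) ^ E c * (-((i : ℚ) + 1)) ^ E c * AA p E c (c - (i + 1 : ℕ) * p) := by
    rw [PE, ← mul_prod_erase _ _ (mem_range.2 hc), cast_pt hc, ← mul_pow, AA]
    simp only [eval_mul, eval_pow, eval_prod, eval_sub, eval_X, eval_C]
    congr 1
    · congr 1
      ring
    · exact prod_congr rfl fun t _ => by congr 1; push_cast; ring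
  have e2 : ∏ j ∈ (Icc 1 (3 * p)).erase ((i + 1) * p - c), ((j : ℚ) - ((i + 1) * p - c : ℕ)) =
      p ^ 2 * dd i * ∏ j ∈ KK p c, ((j : ℚ) + c - (i + 1 : ℕ) * p) := by
    rw [← prod_filter_mul_prod_filter_not _ fun j => p ∣ j + c, filter_erase, filter_erase,
      cls_img hc, ← image_erase (pt_inj hc), prod_image fun a _ b _ g => pt_inj hc g,
      erase_eq_of_notMem (s := filter (fun j => ¬p ∣ j + c) _) fun g => (mem_filter.1 g).2
        (by rw [Nat.sub_add_cancel (by nlinarith)]; exact dvd_mul_left _ _)]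
    congr 1
    · rw [dd, show 2 = ((range 3).erase i).card by rw [card_erase_of_mem (mem_range.2 hi)]; rfl,
        ← prod_const, ← prod_mul_distrib]
      exact prod_congr rfl fun k _ => by rw [cast_pt hc, cast_pt hc]; ring
    · exact prod_congr rfl fun k _ => by rw [cast_pt hc]; push_cast; ring
  rw [rs, e1, e2, UU]
  ring

theorem Dn_eq {c : ℕ} (hc : c < p) : (Dn (Icc 1 (3 * p))).eval (c : ℚ) =
    6 * p ^ 3 * ∏ j ∈ KK p c, ((j : ℚ) + c - (0 : ℕ) * p) := by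
  rw [Dn, eval_prod, ← prod_filter_mul_prod_filter_not _ fun j => p ∣ j + c, cls_img hc,
    prod_image fun a _ b _ g => pt_inj hc g]
  simp only [eval_add, eval_X, eval_C, cast_pt hc, prod_range_succ, prod_range_zero]
  congr 1
  · push_cast
    ring
  · exact prod_congr rfl fun k _ => by push_cast; ring

/-- The universal Hankel sequence. -/
def ell (k : ℕ) : ℚ :=
  -∑ i ∈ range 3, (-((i : ℚ) + 1)) ^ (3 + k) * (dd i)⁻¹ * yy i + 0 ^ k * (-1 / 24)

theorem SS_cg (h : 367 < p) (hx : pn p x ≤ 1) (ha2 : pn p a2 ≤ 1) (ha3 : pn p a3 ≤ 1)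
    {E : ℕ → ℕ} {c k : ℕ} (hc : c < p) (hE : E c = 3 + k) :
    Cg p ((p : ℚ) ^ (2 - k : ℤ) * SS x a2 a3 p E c) (a3 * UU p E c 0 * ell k) := by
  have h0 := pq_ne (p := p)
  have h1 : ∀ i ∈ range 3, Cg p ((-((i : ℚ) + 1)) ^ (3 + k) * (dd i)⁻¹ * UU p E c (i + 1) *
      ((p : ℚ) ^ 3 * YY x a2 a3 p ((i + 1) * p - c)))
      ((-((i : ℚ) + 1)) ^ (3 + k) * (dd i)⁻¹ * UU p E c 0 * -(a3 * yy i)) := by
    intro i hi
    have hi' := mem_range.1 hi
    refine ((Cg.refl' (mul1 ?_ (pn_rat h ?_))).mul (UU_cg E c _)).mul (YY_cg h hx ha2 ha3 hc hi')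
    · rw [pn_pow, pn_neg, ← Nat.cast_succ]
      exact pow_le_one₀ (pn_nonneg _) (pn_nat _)
    · interval_cases i <;> decide +kernel
  have h2 : pn p (a3 * UU p E c 0 * (0 ^ k * (-1 / 24))) ≤ 1 :=
    mul1 (mul1 ha3 (UU_unit E hc).le) (mul1 (by simpa using pn_nat (p := p) (0 ^ k))
      (pn_rat h (by norm_num)))
  convert Cg.add' (Cg.sum' h1) (Cg.refl' h2) using 1
  · rw [SS, mul_add, mul_sum, zpow_sub₀ h0, zpow_natCast, (ww_lo h0).2.2.2, Dn_eq hc, hE,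
      Nat.add_sub_cancel_left]
    congr 1
    · refine sum_congr rfl fun i hi => ?_
      rw [rs_eq E hc (mem_range.1 hi), hE]
      field_simp
      ring
    · rw [UU, Nat.cast_zero, zero_mul, sub_zero]
      rcases k with _ | k
      · field_simp
        ring
      · simp
  · rw [ell, mul_add, mul_neg, mul_sum, ← sum_neg_distrib]
    congr 1
    exact sum_congr rfl fun i _ => by ring

theorem SS_le (h : 367 < p) (hx : pn p x ≤ 1) (ha2 : pn p a2 ≤ 1) (ha3 : pn p a3 ≤ 1)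
    {E : ℕ → ℕ} {c : ℕ} (hc : c < p) (hE : 3 ≤ E c) {y : ℤ} (hy : 6 - (E c : ℤ) ≤ y) :
    pn p ((p : ℚ) ^ y * SS x a2 a3 p E c) ≤ (p : ℝ)⁻¹ := by
  obtain ⟨k, hk⟩ := Nat.exists_eq_add_of_le hE
  have := small (SS_cg h hx ha2 ha3 hc hk).1 (y - (3 - k)).toNat
  rwa [← mul_assoc, ← zpow_natCast, ← zpow_add₀ pq_ne,
    show (((y - (3 - k)).toNat + 1 : ℕ) : ℤ) + (2 - k) = y by omega] at this

theorem PE_mul (L : ℕ) (E E' : ℕ → ℕ) : PE L E * PE L E' = PE L fun t => E t + E' t := by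
  simp only [PE, pow_add, prod_mul_distrib]

/-- Exponents of the basis. -/
def ex (c i t : ℕ) : ℕ := if t = c then i else 2

omit hp in
theorem PE_deg {c i : ℕ} (hc : c < p) (hi : i < 2) : (PE p (ex c i)).natDegree < 2 * p := by
  have h1 : (PE p (ex c i)).natDegree ≤ ∑ t ∈ range p, ex c i t := by
    refine (natDegree_prod_le _ _).trans (sum_le_sum fun j _ => natDegree_pow_le.trans ?_)
    rw [natDegree_X_sub_C, mul_one]
  refine h1.trans_lt ((sum_lt_sum (g := fun _ => 2) (fun t _ => ?_)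
    ⟨c, mem_range.2 hc, by simpa [ex] using hi⟩).trans_eq (by simp [mul_comm]))
  unfold ex
  split_ifs <;> omega

/-- Non-vanishing of the Hankel determinant. -/
theorem nonzero (h : 367 < p) (hx : pn p x ≤ 1) (ha2 : pn p a2 ≤ 1) (ha3 : pn p a3 = 1) :
    hank (fun k => mu x a2 a3 (Icc 1 (3 * p)) (PE p (fun _ => 3) * X ^ k)) (2 * p) ≠ 0 := by
  refine D57.gramNe ℚ _ (2 * p) (Fin 2 × Fin p) (fun z => PE p (ex z.2 z.1)) (by simp)
    (fun z => PE_deg z.2.2 z.1.2) fun h0 => ?_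
  simp only [lam_mu, PE_mul] at h0
  set G : Matrix (Fin 2 × Fin p) (Fin 2 × Fin p) ℚ := Matrix.of fun z w =>
    mu x a2 a3 (Icc 1 (3 * p)) (PE p fun t => 3 + (ex z.2 z.1 t + ex w.2 w.1 t)) with hG
  set u : Fin p → ℚ := fun c => a3 * UU p (fun _ => 7) c 0 with hu
  have key : Cg p (Matrix.of fun z w : Fin 2 × Fin p => (p : ℚ) ^ (1 - z.1 : ℤ) *
      (Matrix.of fun z w : Fin 2 × Fin p => (p : ℚ) ^ (1 - w.1 : ℤ) * G z w) z w).det
      (Matrix.blockDiagonal fun c : Fin p => Matrix.of fun s t : Fin 2 =>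
        u c * ell (s + t)).det := by
    refine Cg.det' fun z w => ?_
    have hz := z.1.2
    have hw := w.1.2
    set E : ℕ → ℕ := fun t => 3 + (ex z.2 z.1 t + ex w.2 w.1 t) with hE
    have hE3 : ∀ t, 3 ≤ E t := fun t => Nat.le_add_right _ _
    have h1 : pn p ((p : ℚ) ^ (2 - (z.1 + w.1 : ℕ) : ℤ) *
        (G z w - ∑ c ∈ range p, SS x a2 a3 p E c)) ≤ (p : ℝ)⁻¹ := by
      refine (pn_mul_le (A := 1) ?_ (mu_split (by omega) ha2 ha3.le hE3)).trans_eq (one_mul _)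
      rw [pn_ppow]
      exact zpow_le_one_of_nonpos₀ one_le_p (by omega)
    rw [Matrix.of_apply, Matrix.of_apply, ← mul_assoc, ← zpow_add₀ pq_ne,
      show (1 - z.1 : ℤ) + (1 - w.1) = 2 - (z.1 + w.1 : ℕ) by omega, Matrix.blockDiagonal_apply,
      ← sub_add_cancel (G z w) (∑ c ∈ range p, SS x a2 a3 p E c), mul_add]
    split_ifs with hc
    · have h2 := SS_cg h hx ha2 ha3.le (E := E) (k := z.1 + w.1) z.2.2 (by simp [hE, ex, hc])
      have h3 : pn p (∑ c ∈ (range p).erase z.2,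
          (p : ℚ) ^ (2 - (z.1 + w.1 : ℕ) : ℤ) * SS x a2 a3 p E c) ≤ (p : ℝ)⁻¹ := by
        refine pn_sum (inv_nonneg.2 p_pos.le) fun c hc' => ?_
        obtain ⟨g1, g2⟩ := mem_erase.1 hc'
        refine SS_le h hx ha2 ha3.le (mem_range.1 g2) (hE3 c) ?_
        simp only [hE, ex, ← hc, if_neg g1]
        omega
      have h4 : UU p E z.2 0 = UU p (fun _ => 7) z.2 0 := by
        unfold UU AA
        congr 1
        refine prod_congr rfl fun t ht => ?_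
        simp only [hE, ex, ← hc, if_neg (mem_erase.1 ht).1]
      convert Cg.add' (Cg.zero' h1) (Cg.add' h2 (Cg.zero' h3)) using 1
      · rw [← mul_sum, ← mul_add _ (SS x a2 a3 p E z.2), add_sum_erase _ _ (mem_range.2 z.2.2)]
      · rw [h4, zero_add, add_zero, Matrix.of_apply]
    · refine Cg.zero' (pn_add h1 ?_)
      rw [mul_sum]
      refine pn_sum (inv_nonneg.2 p_pos.le) fun c hc' =>
        SS_le h hx ha2 ha3.le (mem_range.1 hc') (hE3 c) ?_
      have hne : (z.2 : ℕ) ≠ w.2 := fun g => hc (Fin.ext g)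
      simp only [hE, ex]
      split_ifs <;> omega
  rw [Matrix.det_mul_column, Matrix.det_mul_row, h0, mul_zero, mul_zero,
    Matrix.det_blockDiagonal] at key
  have h1 := key.2.2
  rw [zero_sub, pn_neg, pn_prod, prod_eq_one fun c _ => ?_] at h1
  · have : (1 : ℝ) < p := by exact_mod_cast hp.out.one_lt
    exact absurd h1 (not_le.2 (inv_lt_one_of_one_lt₀ this))
  · have e : ell 0 * ell 2 - ell 1 * ell 1 =
        -(((11 : ℕ) : ℚ)⁻¹⁻¹ * ((367 : ℕ) : ℚ)⁻¹⁻¹ * ((32 : ℕ) : ℚ)⁻¹) := by decide +kernel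
    have e2 : (Matrix.of fun s t : Fin 2 => u c * ell (s + t)).det =
        u c ^ 2 * (ell 0 * ell 2 - ell 1 * ell 1) := by
      rw [Matrix.det_fin_two]
      simp only [Matrix.of_apply, Fin.val_zero, Fin.val_one]
      ring
    rw [e2, e, pn_mul, pn_neg, pn_mul, pn_mul, pn_inv ((11 : ℕ) : ℚ)⁻¹, pn_inv ((367 : ℕ) : ℚ)⁻¹,
      pn_inv_nat (by norm_num) (by omega), pn_inv_nat (by norm_num) (by omega),
      pn_inv_nat (by norm_num) (by omega), pn_pow, hu]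
    simp only [pn_mul, ha3, UU_unit _ c.2]
    norm_num

end

end Pool.Agent.MP_807c24_nt.Z23.H13
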