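import Pool.Agent.MP_807c24_nt.Z23.Basic
import Pool.Agent.MP_807c24_nt.Z23.H13Nonzero

/-! The determinant is not zero when `L` is a large prime. -/

namespace Pool.Agent.MP_807c24_nt.Z23

open Finset Polynomial
open Pool.Agent.MP_807c24_nt.H13.Class

theorem Mu_eq (a b x : ℤ) (S : Finset ℕ) (N : ℚ[X]) : Mu a b x S N = H13.mu x a b S N := by
  unfold Mu H13.mu H13.Lam
  congr 1
  · congr 1
    funext k
    simp [bt]
  · refine sum_congr rfl fun j _ => ?_
    congr 2
    exact sum_congr rfl fun u _ => add_comm _ _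

theorem nonzero : NonzeroStmt := by
  intro p _ a b x h hb
  have e : Np (Zm p) = H13.PE p fun _ => 3 := by rw [Zm, Np_nsmul, Np_rg, H13.PE, prod_pow]
  have e2 : mom a b x p =
      fun k => H13.mu x a b (Icc 1 (3 * p)) (H13.PE p (fun _ => 3) * X ^ k) := by
    funext k
    rw [mom, Mu_eq, e]
  rw [Del, e2]
  exact H13.nonzero h (pn_int x) (pn_int a) (pn_unit hb)

end Pool.Agent.MP_807c24_nt.Z23
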