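import Pool.Agent.MP_807c24_nt.Z23.Spec

/-! The square of pi is irrational (Cartwright's integrals, after the Mathlib file on pi). -/

namespace Pool.Agent.MP_807c24_nt.Z23

namespace PiSqP

open intervalIntegral MeasureTheory.MeasureSpace Set Real Filter
open scoped Nat

/-- The sequence of integrals. -/
noncomputable def I (n : ℕ) (θ : ℝ) : ℝ := ∫ x in (-1)..1, (1 - x ^ 2) ^ n * cos (x * θ)

variable {n : ℕ} {θ : ℝ}

lemma I_zero : I 0 θ * θ = 2 * sin θ := by
  rw [mul_comm, I]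
  simp [mul_integral_comp_mul_right, two_mul]

lemma recA (n : ℕ) :
    I (n + 1) θ * θ ^ 2 = - (2 * 2 * ((n + 1) * (0 ^ n * cos θ))) +
      2 * (n + 1) * (2 * n + 1) * I n θ - 4 * (n + 1) * n * I (n - 1) θ := by
  rw [I]
  let f (x : ℝ) : ℝ := 1 - x ^ 2
  let u₁ (x : ℝ) : ℝ := f x ^ (n + 1)
  let u₁' (x : ℝ) : ℝ := - (2 * (n + 1) * x * f x ^ n)
  let v₁ (x : ℝ) : ℝ := sin (x * θ)
  let v₁' (x : ℝ) : ℝ := cos (x * θ) * θ
  let u₂ (x : ℝ) : ℝ := x * (f x) ^ n
  let u₂' (x : ℝ) : ℝ := (f x) ^ n - 2 * n * x ^ 2 * (f x) ^ (n - 1)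
  let v₂ (x : ℝ) : ℝ := cos (x * θ)
  let v₂' (x : ℝ) : ℝ := -sin (x * θ) * θ
  have hfd : Continuous f := by fun_prop
  have hu₁d : Continuous u₁' := by fun_prop
  have hv₁d : Continuous v₁' := by fun_prop
  have hu₂d : Continuous u₂' := by fun_prop
  have hv₂d : Continuous v₂' := by fun_prop
  have hu₁_eval_one : u₁ 1 = 0 := by simp only [u₁, f]; simp
  have hu₁_eval_neg_one : u₁ (-1) = 0 := by simp only [u₁, f]; simp
  have t : u₂ 1 * v₂ 1 - u₂ (-1) * v₂ (-1) = 2 * (0 ^ n * cos θ) := by simp [u₂, v₂, f, ← two_mul]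
  have hf (x) : HasDerivAt f (- 2 * x) x := by
    convert! (hasDerivAt_pow 2 x).const_sub 1 using 1
    simp
  have hu₁ (x) : HasDerivAt u₁ (u₁' x) x := by
    convert! (hf x).pow _ using 1
    simp only [Nat.add_succ_sub_one, u₁', Nat.cast_add_one]
    ring
  have hv₁ (x) : HasDerivAt v₁ (v₁' x) x := (hasDerivAt_mul_const θ).sin
  have hu₂ (x) : HasDerivAt u₂ (u₂' x) x := by
    convert! (hasDerivAt_id' x).fun_mul ((hf x).fun_pow _) using 1
    simp only [u₂']
    ring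
  have hv₂ (x) : HasDerivAt v₂ (v₂' x) x := (hasDerivAt_mul_const θ).cos
  convert_to (∫ (x : ℝ) in (-1)..1, u₁ x * v₁' x) * θ = _ using 1
  · simp_rw [u₁, v₁', f, ← intervalIntegral.integral_mul_const, sq θ, mul_assoc]
  rw [integral_mul_deriv_eq_deriv_mul (fun x _ => hu₁ x) (fun x _ => hv₁ x)
    (hu₁d.intervalIntegrable _ _) (hv₁d.intervalIntegrable _ _), hu₁_eval_one, hu₁_eval_neg_one,
    zero_mul, zero_mul, sub_zero, zero_sub, ← integral_neg, ← integral_mul_const]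
  convert_to ((-2 : ℝ) * (n + 1)) * ∫ (x : ℝ) in (-1)..1, (u₂ x * v₂' x) = _ using 1
  · rw [← integral_const_mul]
    congr 1 with x
    dsimp [u₁', v₁, u₂, v₂']
    ring
  rw [integral_mul_deriv_eq_deriv_mul (fun x _ => hu₂ x) (fun x _ => hv₂ x)
    (hu₂d.intervalIntegrable _ _) (hv₂d.intervalIntegrable _ _),
    mul_sub, t, neg_mul, neg_mul, neg_mul, sub_neg_eq_add]
  have (x : _) : u₂' x = (2 * n + 1) * f x ^ n - 2 * n * f x ^ (n - 1) := by
    cases n with
    | zero => simp [u₂']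
    | succ n => ring!
  simp_rw [this, sub_mul, mul_assoc _ _ (v₂ _)]
  have : Continuous v₂ := by fun_prop
  rw [mul_mul_mul_comm, integral_sub, mul_sub, add_sub_assoc]
  · congr 1
    simp_rw [integral_const_mul]
    ring!
  all_goals exact Continuous.intervalIntegrable (by fun_prop) _ _

lemma recB (n : ℕ) :
    I (n + 2) θ * θ ^ 2 =
      2 * (n + 2) * (2 * n + 3) * I (n + 1) θ - 4 * (n + 2) * (n + 1) * I n θ := by
  rw [recA (n + 1)]
  push_cast
  ring

lemma I_one : I 1 θ * θ ^ 3 = 4 * sin θ - 4 * θ * cos θ := by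
  rw [_root_.pow_succ, ← mul_assoc, recA 0, sub_mul, add_mul, mul_assoc _ (I 0 θ), I_zero]
  ring

lemma I_pos : 0 < I n (π / 2) := by
  refine integral_pos (by simp) (by fun_prop) ?_ ⟨0, by simp⟩
  refine fun x hx => mul_nonneg (pow_nonneg ?_ _) ?_
  · rw [sub_nonneg, sq_le_one_iff_abs_le_one, abs_le]
    exact ⟨hx.1.le, hx.2⟩
  refine cos_nonneg_of_neg_pi_div_two_le_of_le ?_ ?_ <;>
  nlinarith [hx.1, hx.2, pi_pos]

lemma I_le (n : ℕ) : I n (π / 2) ≤ 2 := by
  rw [← norm_of_nonneg I_pos.le]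
  refine (norm_integral_le_of_norm_le_const ?_).trans (show (1 : ℝ) * _ ≤ _ by norm_num)
  intro x hx
  simp only [uIoc_of_le, neg_le_self_iff, zero_le_one, mem_Ioc] at hx
  rw [norm_eq_abs, abs_mul, abs_pow]
  refine mul_le_one₀ (pow_le_one₀ (abs_nonneg _) ?_) (abs_nonneg _) (abs_cos_le_one _)
  rw [abs_le]
  constructor <;> nlinarith

lemma isInt (a b : ℤ) (h : (π / 2) ^ 2 * b = a) : ∀ n : ℕ,
    ∃ z : ℤ, I n (π / 2) * (π / 2) ^ (2 * n + 1) * b ^ n = n ! * z
  | 0 => ⟨2, by simpa using I_zero (θ := π / 2)⟩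
  | 1 => ⟨4 * b, by
    have := I_one (θ := π / 2)
    rw [sin_pi_div_two, cos_pi_div_two] at this
    push_cast
    simp only [Nat.factorial_one, Nat.cast_one]
    linear_combination (b : ℝ) * this⟩
  | n + 2 => by
    obtain ⟨z, hz⟩ := isInt a b h n
    obtain ⟨z', hz'⟩ := isInt a b h (n + 1)
    refine ⟨2 * (2 * n + 3) * b * z' - 4 * a * b * z, ?_⟩
    have hr := recB (θ := π / 2) n
    rw [Nat.factorial_succ] at hz'
    rw [Nat.factorial_succ, Nat.factorial_succ]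
    push_cast at hz' ⊢
    rw [← h]
    linear_combination ((π / 2) ^ (2 * n + 3) * (b : ℝ) ^ (n + 2)) * hr
      + (2 * (n + 2) * (2 * n + 3) * (b : ℝ)) * hz'
      - (4 * (n + 2) * (n + 1) * (π / 2) ^ 2 * (b : ℝ) ^ 2) * hz

end PiSqP

open PiSqP Real Filter in
theorem piSq : PiSqStmt := by
  rintro ⟨q, hq⟩
  have hb : (0 : ℝ) < q.den := by exact_mod_cast q.pos
  have h : (π / 2) ^ 2 * ((4 * q.den : ℤ) : ℝ) = (q.num : ℤ) := by
    have e : (q : ℝ) * q.den = q.num := by exact_mod_cast q.mul_den_eq_num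
    push_cast
    rw [← e, hq]
    ring
  have j : ∀ᶠ n : ℕ in atTop, (q.num : ℝ) ^ n / n.factorial < 1 / π :=
    (FloorSemiring.tendsto_pow_div_factorial_atTop (q.num : ℝ)).eventually_lt_const
      (by positivity)
  obtain ⟨n, hn⟩ := j.exists
  obtain ⟨z, hz⟩ := isInt _ _ h n
  have hf : (0 : ℝ) < n.factorial := by positivity
  have h0 : 0 < I n (π / 2) := I_pos
  have h2 := I_le n
  have e : I n (π / 2) * (π / 2) * (q.num : ℝ) ^ n = n.factorial * z := by
    rw [← hz, ← h, mul_pow, ← pow_mul, pow_succ (π / 2) (2 * n)]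
    generalize (π / 2) ^ (2 * n) = t
    ring
  have ha : (0 : ℝ) < q.num := by
    rw [← h]
    push_cast
    positivity
  have hz0 : (0 : ℝ) < z := by
    have : 0 < I n (π / 2) * (π / 2) * (q.num : ℝ) ^ n := by positivity
    rw [e] at this
    exact (mul_pos_iff_of_pos_left hf).1 this
  have hz1 : (z : ℝ) < 1 := by
    rw [div_lt_div_iff₀ hf pi_pos] at hn
    have h3 : I n (π / 2) * (π / 2 * (q.num : ℝ) ^ n) ≤ 2 * (π / 2 * (q.num : ℝ) ^ n) :=
      mul_le_mul_of_nonneg_right h2 (by positivity)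
    have h4 : (n.factorial : ℝ) * z < n.factorial * 1 := by linarith
    exact lt_of_mul_lt_mul_left h4 hf.le
  have h5 : (0 : ℤ) < z := by exact_mod_cast hz0
  have h6 : z < 1 := by exact_mod_cast hz1
  omega

end Pool.Agent.MP_807c24_nt.Z23
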