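import Pool.Agent.MP_807c24_nt.Z23.Basic
import Pool.Agent.MP_807c24_nt.D57.Prime
import Pool.Agent.MP_807c24_nt.D57.Super
import Pool.Agent.MP_807c24_nt.D57.Sq
import Pool.Agent.MP_807c24_nt.H13.Pnt
import Pool.Agent.MP_807c24_nt.H13.Newman

/-!
The sum over the primes.
-/

namespace Pool.Agent.MP_807c24_nt.Z23

open Finset Filter
open Pool.Agent.MP_807c24_nt.D57 (psi SS TT TH psiB)
open Pool.Agent.MP_807c24_nt.D57.Prime (psi_zero psi_two filt tail win sup logs)

namespace PrimeP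

/-- The combination that comes from the superfactorials. -/
noncomputable def Ps (L q : ℕ) : ℝ := 2 * (psi (4 * L) q : ℝ) - 2 * psi (3 * L) q - 6 * psi L q

/-- Its sum over the powers of `p`. -/
noncomputable def AA (L p : ℕ) : ℝ := ∑ a ∈ Icc 1 (Nat.log p (4 * L)), Ps L (p ^ a)

theorem sum_AA (L : ℕ) : ∑ p ∈ (range (4 * L + 1)).filter Nat.Prime, AA L p * Real.log p =
    2 * SS (4 * L) - 2 * SS (3 * L) - 6 * SS L := by
  rw [D57.fact (4 * L) (4 * L) (by omega), D57.fact (3 * L) (4 * L) (by omega),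
    D57.fact L (4 * L) (by omega), mul_sum, mul_sum, mul_sum, ← sum_sub_distrib, ← sum_sub_distrib]
  refine sum_congr rfl fun p _ => ?_
  simp only [AA, Ps, sum_sub_distrib, ← mul_sum]
  ring

theorem ps_up {L q : ℕ} (hq : 2 ≤ q) (hq' : q ≤ 4 * L) :
    Ps L q - 4 * L ≤ (4 * (L : ℝ) ^ 2 - 2 * L) * (1 / (q : ℝ)) := by
  have a1 := (psiB (4 * L) q (by omega)).2
  have a2 := (psiB (3 * L) q (by omega)).1
  have a3 := (psiB L q (by omega)).1
  have b1 : (2 : ℝ) ≤ q := by exact_mod_cast hq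
  have b2 : (q : ℝ) ≤ 4 * L := by exact_mod_cast hq'
  have e : ∀ y : ℝ, y / (2 * q) = y * (1 / q) / 2 := fun y => by ring
  have b3 := mul_le_mul_of_nonneg_left (one_div_le_one_div_of_le two_pos b1)
    (Nat.cast_nonneg (α := ℝ) L)
  rw [e] at a1 a2 a3
  rw [Ps]
  push_cast at a1 a2 a3
  generalize 1 / (q : ℝ) = u at *
  nlinarith

theorem small {L p : ℕ} (hL : 1 ≤ L) (hp : p.Prime) :
    fS L p ≤ -(AA L p * Real.log p) + 44 * L * Real.log (4 * L) := by
  have l0 := Real.log_natCast_nonneg p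
  have h1 : AA L p - Nat.log p (4 * L) * (4 * L) ≤ (4 * (L : ℝ) ^ 2 - 2 * L) *
      (∑ a ∈ Icc 1 (Nat.log p (4 * L)), 1 / (p : ℝ) ^ a) := by
    rw [mul_sum, AA]
    refine le_trans (le_of_eq (by simp [sum_sub_distrib]))
      (sum_le_sum (f := fun a => Ps L (p ^ a) - 4 * L) fun a ha => ?_)
    obtain ⟨h4, h5⟩ := mem_Icc.1 ha
    have h6 := ps_up (L := L) (q := p ^ a) (hp.two_le.trans (Nat.le_self_pow (by omega) p))
      (Nat.pow_le_of_le_log (by omega) h5)
    rwa [Nat.cast_pow] at h6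
  have h2 : (Nat.log p (4 * L) : ℝ) * Real.log p ≤ Real.log (4 * L) := by
    rw [← Real.log_pow]
    refine Real.log_le_log (pow_pos (by exact_mod_cast hp.pos) _) ?_
    exact_mod_cast Nat.pow_log_le_self p (show 4 * L ≠ 0 by omega)
  have h4 := mul_le_mul_of_nonneg_right h1 l0
  have h5 := mul_le_mul_of_nonneg_left h2 (show (0 : ℝ) ≤ 4 * L by positivity)
  unfold fS
  nlinarith

theorem AA_eq {L p : ℕ} (hp : p.Prime) (h : 6 * L ≤ p ^ 2) (h' : p ≤ 4 * L) :
    AA L p = Ps L p := by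
  unfold AA
  rw [sum_eq_single 1, pow_one]
  · intro a ha h1
    have h2 := h.trans (Nat.pow_le_pow_right hp.pos (show 2 ≤ a by
      have := (mem_Icc.1 ha).1
      omega))
    rw [Ps, psi_zero (by omega), psi_zero (by omega), psi_zero (by omega)]
    simp
  · exact fun h1 => (h1 (mem_Icc.2 ⟨le_rfl, Nat.log_pos hp.one_lt h'⟩)).elim

theorem medium {L p : ℕ} (hp : p.Prime) (h : 6 * L ≤ p ^ 2) (h' : p ≤ 4 * L) :
    fM L p ≤ -(AA L p * Real.log p) + (8 * L + p / 8) * Real.log p := by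
  rw [AA_eq hp h h', fM, ← neg_mul, ← add_mul]
  refine mul_le_mul_of_nonneg_right ?_ (Real.log_natCast_nonneg p)
  have a1 := (psiB (4 * L) p hp.pos).2
  rw [show ((4 * L : ℕ) : ℝ) ^ 2 / (2 * p) = 2 * (4 * (L : ℝ) ^ 2 / p) by push_cast; ring] at a1
  rw [Ps, Phi]
  push_cast at a1 ⊢
  linarith

/-- The contribution of a large prime. -/
noncomputable def GG (L p : ℕ) : ℝ :=
  3 * (((4 * L - p : ℕ) : ℝ) * Real.log p) + 2 * (((3 * L - p : ℕ) : ℝ) * Real.log p) -
    2 * (((5 * L / 2 - p : ℕ) : ℝ) * Real.log p) - 2 * (((2 * L - p : ℕ) : ℝ) * Real.log p)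

theorem large {L p : ℕ} (hp : p.Prime) (h : 6 * L ≤ p ^ 2) (h' : p ≤ 4 * L)
    (h1 : 3 * L < 2 * p) : fL L p ≤ -(AA L p * Real.log p) + GG L p := by
  rw [AA_eq hp h h', Ps, psi_two hp.pos (by omega), psi_two hp.pos (by omega),
    psi_zero (by omega), show 3 * L - 2 * p = 0 by omega,
    show 4 * L - 2 * p = 2 * (2 * L - p) by omega, fL, GG]
  have h2 : 2 * ((5 * L / 2 - p : ℕ) : ℝ) ≤ ((5 * L - 2 * p : ℕ) : ℝ) := by
    exact_mod_cast (show 2 * (5 * L / 2 - p) ≤ 5 * L - 2 * p by omega)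
  have h3 := mul_le_mul_of_nonneg_right h2 (Real.log_natCast_nonneg p)
  simp only [add_zero, Nat.cast_add, Nat.cast_zero, Nat.cast_mul, Nat.cast_ofNat]
  linarith

theorem each {L p : ℕ} (hL : 100 ≤ L) (hp : p.Prime) (h' : p ≤ 4 * L) :
    ff L p ≤ -(AA L p * Real.log p) + (if p ^ 2 < 6 * L then 44 * L * Real.log (4 * L) else 0) +
      if p ≤ 3 * L / 2 then (8 * L + p / 8) * Real.log p else GG L p := by
  have l0 := Real.log_natCast_nonneg p
  simp only [ff, show 2 * p ≤ 3 * L ↔ p ≤ 3 * L / 2 by omega]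
  split_ifs with h h1 h1
  · have := small (by omega : 1 ≤ L) hp
    have h2 : (0 : ℝ) ≤ (8 * L + p / 8) * Real.log p := by positivity
    linarith
  · have : L ≤ p := by omega
    nlinarith
  · linarith [medium hp (not_lt.1 h) h']
  · linarith [large hp (not_lt.1 h) h' (by omega)]

theorem mid (X : ℕ) (c : ℝ) :
    ∑ p ∈ (range (X + 1)).filter Nat.Prime, (c + p / 8) * Real.log p =
      (c + X / 8) * TH X - TT X / 8 := by
  rw [TH, TT, mul_sum, sum_div, ← sum_sub_distrib]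
  exact sum_congr rfl fun p _ => by ring

end PrimeP

open PrimeP in
theorem primeSum : PrimeStmt := by
  obtain ⟨N, hN⟩ := eventually_atTop.1
    (D57.cheb (H13.pnt_of_newman H13.newman) (1 / 1000000) (by norm_num))
  filter_upwards [eventually_ge_atTop N, eventually_ge_atTop (120000 ^ 4)] with L hLN hL
  have hL1 : 1000000 ≤ L := le_trans (by norm_num) hL
  have x1 : (1000000 : ℝ) ≤ L := by exact_mod_cast hL1
  have w1 := logs (x := L) (by exact_mod_cast hL)
  refine (sum_le_sum fun p hp => each (by omega) (mem_filter.1 hp).2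
    (Nat.lt_succ_iff.1 (mem_range.1 (mem_filter.1 hp).1))).trans ?_
  rw [sum_add_distrib, sum_add_distrib, ← sum_filter, sum_const, nsmul_eq_mul, sum_ite,
    filt (by omega), mid, sum_neg_distrib, sum_AA]
  simp only [GG, sum_add_distrib, sum_sub_distrib, ← mul_sum]
  rw [tail (by omega) (by omega), tail (by omega) (by omega), tail (by omega) (by omega),
    tail (by omega) (by omega)]
  obtain ⟨a1, a2⟩ := hN (3 * L / 2) (by omega)
  have key : ∀ l : ℕ, 3 * L / 2 ≤ l → l ≤ 25 * L → |TT l - TT (3 * L / 2) -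
      ((l : ℝ) - (3 * L / 2 : ℕ)) * TH (3 * L / 2) - ((l : ℝ) - (3 * L / 2 : ℕ)) ^ 2 / 2| ≤
      1875 * (1 / 1000000) * (L : ℝ) ^ 2 := fun l h5 h6 =>
    win (by norm_num) (hN l (by omega)).2 a2 a1 (Nat.cast_nonneg _) (Nat.cast_le.2 h5)
      (by exact_mod_cast h6)
  have b1 := (abs_le.1 (key (4 * L) (by omega) (by omega))).2
  have b2 := (abs_le.1 (key (3 * L) (by omega) (by omega))).2
  have b3 := (abs_le.1 (key (5 * L / 2) (by omega) (by omega))).1
  have b4 := (abs_le.1 (key (2 * L) (by omega) (by omega))).1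
  have key2 : ∀ c : ℕ, 1 ≤ c → c ≤ 4 →
      |SS (c * L) - ((c : ℝ) ^ 2 / 2 * ((L : ℝ) ^ 2 * Real.log L) +
        ((c : ℝ) ^ 2 / 2 * Real.log c - 3 / 4 * (c : ℝ) ^ 2) * (L : ℝ) ^ 2)| ≤
        125 * L * (Real.log (24 * L + 2) + 1) := fun c h5 h6 => by
    have h7 : (1 : ℝ) ≤ c := by exact_mod_cast h5
    have h8 := mul_le_mul_of_nonneg_right (show (c : ℝ) ≤ 4 by exact_mod_cast h6)
      (Nat.cast_nonneg (α := ℝ) L)
    have h10 := sup D57.super (l := c * L) (y := c * L) (x := L) (w := Real.log (24 * L + 2))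
      (by nlinarith) (by simp) (by simp) (by push_cast; linarith)
      (Real.log_le_log (by positivity) (by push_cast; linarith))
    rw [Real.log_mul (by positivity) (by positivity)] at h10
    convert h10 using 3
    ring
  have c1 := (abs_le.1 (key2 4 (by norm_num) (by norm_num))).1
  have c2 := (abs_le.1 (key2 3 (by norm_num) (by norm_num))).2
  have c3 := (abs_le.1 (key2 1 (by norm_num) (by norm_num))).2
  have g4 : Real.log 4 = 2 * Real.log 2 := by
    rw [show (4 : ℝ) = 2 ^ 2 by norm_num, Real.log_pow, Nat.cast_ofNat]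
  simp only [Nat.cast_ofNat, g4, one_mul, Nat.cast_one, Real.log_one] at c1 c2 c3
  have s0 := sq_nonneg (L : ℝ)
  have d1 := mul_le_mul_of_nonneg_right Real.log_two_gt_d9.le s0
  have d2 := mul_le_mul_of_nonneg_right Real.log_three_lt_d9.le s0
  have w0 : 0 ≤ Real.log (4 * (L : ℝ)) := Real.log_nonneg (by linarith)
  have w2 : Real.log (4 * (L : ℝ)) ≤ Real.log (24 * L + 2) :=
    Real.log_le_log (by linarith) (by linarith)
  have s1 : √(L : ℝ) * √(L : ℝ) = L := Real.mul_self_sqrt (by linarith)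
  have s2 : 1000 ≤ √(L : ℝ) := Real.le_sqrt_of_sq_le (by linarith)
  have s3 : 1000 * √(L : ℝ) ≤ L := by nlinarith
  have f0 : ((((range (4 * L + 1)).filter Nat.Prime).filter fun p => p ^ 2 < 6 * L).card : ℝ) ≤
      7 * √(L : ℝ) := le_trans (Nat.cast_le.2 (card_le_card fun p hp => by
    simp only [mem_filter, mem_range] at hp ⊢
    exact ⟨⟨by omega, hp.1.2⟩, by omega⟩)) (D57.Prime.card_small L (by omega))
  have f1 := mul_le_mul_of_nonneg_right f0
    (show (0 : ℝ) ≤ 44 * L * Real.log (4 * L) by positivity)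
  have f2 : 10000 * (√(L : ℝ) * Real.log (4 * L)) ≤ L := by nlinarith
  have f3 := mul_le_mul_of_nonneg_left f2 (show (0 : ℝ) ≤ L by linarith)
  have f4 := mul_le_mul_of_nonneg_left
    (show 10000000 * (Real.log (24 * (L : ℝ) + 2) + 1) ≤ L by linarith)
    (show (0 : ℝ) ≤ L by linarith)
  have f6 := mul_le_mul_of_nonneg_left x1 (show (0 : ℝ) ≤ L by linarith)
  have u1 : 2 * ((3 * L / 2 : ℕ) : ℝ) ≤ 3 * L := by
    exact_mod_cast (show 2 * (3 * L / 2) ≤ 3 * L by omega)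
  have u2 : 3 * (L : ℝ) ≤ 2 * ((3 * L / 2 : ℕ) : ℝ) + 1 := by
    exact_mod_cast (show 3 * L ≤ 2 * (3 * L / 2) + 1 by omega)
  have u3 : 5 * (L : ℝ) ≤ 2 * ((5 * L / 2 : ℕ) : ℝ) + 1 := by
    exact_mod_cast (show 5 * L ≤ 2 * (5 * L / 2) + 1 by omega)
  replace a1 := (abs_le.1 a1).2
  replace a2 := (abs_le.1 a2).1
  rw [Nat.cast_mul, Nat.cast_ofNat] at b1 b2 b4
  rw [Nat.cast_mul, Nat.cast_mul, Nat.cast_mul, Nat.cast_ofNat, Nat.cast_ofNat, Nat.cast_ofNat]
  generalize ((3 * L / 2 : ℕ) : ℝ) = x at *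
  generalize ((5 * L / 2 : ℕ) : ℝ) = y at *
  have v1 : (4 * L - x) ^ 2 ≤ (5 / 2 * L + 1 / 2) ^ 2 :=
    pow_le_pow_left₀ (by linarith) (by linarith) 2
  have v2 : (3 * L - x) ^ 2 ≤ (3 / 2 * L + 1 / 2) ^ 2 :=
    pow_le_pow_left₀ (by linarith) (by linarith) 2
  have v3 : ((L : ℝ) - 1 / 2) ^ 2 ≤ (y - x) ^ 2 := pow_le_pow_left₀ (by linarith) (by linarith) 2
  have v4 : ((L : ℝ) / 2) ^ 2 ≤ (2 * L - x) ^ 2 := pow_le_pow_left₀ (by linarith) (by linarith) 2
  have v5 : (3 / 2 * (L : ℝ) - 1 / 2) ^ 2 ≤ x ^ 2 := pow_le_pow_left₀ (by linarith) (by linarith) 2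
  have v6 : (8 * L + x / 8) * TH (3 * L / 2) ≤ (131 / 16 * L) * (3 / 2 * L * (1 + 1 / 1000000)) :=
    (mul_le_mul_of_nonneg_left (show _ ≤ 3 / 2 * (L : ℝ) * (1 + 1 / 1000000) by linarith)
      (by linarith)).trans (mul_le_mul_of_nonneg_right (by linarith) (by positivity))
  nlinarith

end Pool.Agent.MP_807c24_nt.Z23
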