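import Pool.Agent.MP_807c24_nt.Z23.Basic

/-!
The Hankel determinant is small.
-/

namespace Pool.Agent.MP_807c24_nt.Z23

open Finset Polynomial
open Pool.Agent.MP_807c24_nt.H13 (zr)
open Pool.Agent.MP_807c24_nt.D57 (lam hank)

noncomputable section

namespace RealP

lemma sum_div_mod (f : ℕ → ℕ → ℝ) {n : ℕ} (hn : 0 < n) (m : ℕ) :
    ∑ g ∈ range (m * n), f (g / n) (g % n) = ∑ s ∈ range m, ∑ t ∈ range n, f s t := by
  induction m with
  | zero => simp
  | succ m ih =>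
    rw [Nat.succ_mul, sum_range_add, ih, sum_range_succ]
    congr 1
    refine sum_congr rfl fun t ht => ?_
    have ht := mem_range.1 ht
    rw [Nat.add_comm, Nat.add_mul_div_right _ _ hn, Nat.add_mul_mod_self_right,
      Nat.div_eq_of_lt ht, Nat.mod_eq_of_lt ht, Nat.zero_add]

lemma sum_id (n : ℕ) : ∑ t ∈ range n, (t : ℝ) = n * (n - 1) / 2 := by
  induction n with
  | zero => simp
  | succ n ih =>
    rw [sum_range_succ, ih]
    push_cast
    ring

/-- The linear factor centred on the line. -/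
def li (m : ℕ) : ℚ[X] := X - C (6 * (m : ℚ) - 1 / 2)

/-- The quadratic factors. -/
def qq (m s : ℕ) : ℚ[X] := li m ^ 2 + C (((ro s : ℚ) * m / 64) ^ 2)

lemma li_monic (m : ℕ) : (li m).Monic ∧ (li m).natDegree = 1 :=
  ⟨monic_X_sub_C _, natDegree_X_sub_C _⟩

lemma qq_monic (m s : ℕ) : (qq m s).Monic ∧ (qq m s).natDegree = 2 := by
  unfold qq li
  constructor
  · monicity!
  · compute_degree!

lemma li_eval (m : ℕ) (y : ℝ) : aeval (ln (6 * m) y) (li m) = y * Complex.I := by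
  simp only [li, ln, map_sub, aeval_X, aeval_C, eq_ratCast]
  push_cast
  ring

lemma li_norm (m : ℕ) (y : ℝ) : ‖aeval (ln (6 * m) y) (li m)‖ = |y| := by
  rw [li_eval, norm_mul, Complex.norm_I, Complex.norm_real, Real.norm_eq_abs, mul_one]

lemma qq_norm {m : ℕ} (hm : 0 < m) (s : ℕ) (y : ℝ) :
    ‖aeval (ln (6 * m) y) (qq m s)‖ ^ 4 =
      (m : ℝ) ^ 8 * (((ro s : ℝ) / 64) ^ 2 - (|y| / m) ^ 2) ^ 4 := by
  have mp : (m : ℝ) ≠ 0 := Nat.cast_ne_zero.2 hm.ne'
  have e : aeval (ln (6 * m) y) (qq m s) = ((((ro s : ℝ) * m / 64) ^ 2 - y ^ 2 : ℝ) : ℂ) := by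
    rw [qq, map_add, map_pow, li_eval, aeval_C, eq_ratCast, mul_pow, Complex.I_sq]
    push_cast
    ring
  rw [e, Complex.norm_real, Real.norm_eq_abs, (show Even 4 by decide).pow_abs, div_pow |y|, sq_abs]
  field_simp

/-- The even part of the basis. -/
def Q (m g : ℕ) : ℚ[X] := (∏ s ∈ range (g / m), qq m s ^ m) * qq m (g / m) ^ (g % m)

lemma Q_monic (m g : ℕ) : (Q m g).Monic ∧ (Q m g).natDegree = 2 * g := by
  have h1 : ∀ s ∈ range (g / m), (qq m s ^ m).Monic := fun s _ => (qq_monic m s).1.pow _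
  have h2 := monic_prod_of_monic _ _ h1
  have h3 : (qq m (g / m) ^ (g % m)).Monic := (qq_monic m _).1.pow _
  refine ⟨h2.mul h3, ?_⟩
  rw [Q, h2.natDegree_mul h3, natDegree_prod_of_monic _ _ h1, (qq_monic m _).1.natDegree_pow,
    (qq_monic m _).2,
    sum_congr rfl fun s _ => ((qq_monic m s).1.natDegree_pow m).trans (by rw [(qq_monic m s).2]),
    sum_const, card_range, smul_eq_mul]
  have := Nat.div_add_mod g m
  calc g / m * (m * 2) + g % m * 2 = 2 * (m * (g / m) + g % m) := by ring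
    _ = 2 * g := by rw [this]

/-- The basis. -/
def P (m i : ℕ) : ℚ[X] := Q m (i / 2) * li m ^ (i % 2)

lemma P_monic (m i : ℕ) : (P m i).Monic ∧ (P m i).natDegree = i := by
  refine ⟨(Q_monic m _).1.mul ((li_monic m).1.pow _), ?_⟩
  rw [P, (Q_monic m _).1.natDegree_mul ((li_monic m).1.pow _), (Q_monic m _).2,
    (li_monic m).1.natDegree_pow, (li_monic m).2]
  omega

/-- The interpolated exponent. -/
def ex (m s t : ℕ) : ℝ := be s * ((m : ℝ) - t) + be (s + 1) * t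

/-- Logarithm of the size of a basis element. -/
def bb (m g : ℕ) : ℝ := -ex m (g / m) (g % m) / 4 + 2 * (g : ℝ) * Real.log m

lemma WW_nonneg {η : ℝ} : 0 ≤ WW η := by
  refine div_nonneg (prod_nonneg fun a _ => by positivity) (prod_nonneg fun a _ => ?_)
  have : (0 : ℝ) ≤ a := Nat.cast_nonneg a
  nlinarith [sq_nonneg η, sq_nonneg (a : ℝ)]

lemma core {l u t s g : ℕ} (hu : l = u + t) (hg : l * s + t = g) (l0 : 0 < l)
    {R W K b b' η : ℝ} {n q : ℕ → ℝ} (R0 : 0 ≤ R) (W0 : 0 ≤ W) (K0 : 0 ≤ K) (n0 : ∀ s, 0 ≤ n s)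
    (h1 : R ^ 2 ≤ K ^ 52 * Real.exp (η * l / 500) * W ^ l)
    (n4 : ∀ s, n s ^ 4 = (l : ℝ) ^ 8 * q s ^ 4)
    (p1 : W * ∏ s' ∈ range s, q s' ^ 4 ≤ Real.exp (-b + 314 / 25 * η))
    (p2 : W * ∏ s' ∈ range (s + 1), q s' ^ 4 ≤ Real.exp (-b' + 314 / 25 * η)) :
    R * ((∏ s' ∈ range s, n s') ^ l * n s ^ t) ^ 2 ≤ K ^ 26 *
      Real.exp (2 * (-(b * ((l : ℝ) - t) + b' * t) / 4 + 2 * (g : ℝ) * Real.log l) +
        6281 / 1000 * (η * l)) := by
  have Lp : (0 : ℝ) < l := Nat.cast_pos.2 l0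
  rw [prod_range_succ] at p2
  have A0 : 0 ≤ ∏ s' ∈ range s, q s' ^ 4 := prod_nonneg fun _ _ => by positivity
  have N0 : 0 ≤ ∏ s' ∈ range s, n s' := prod_nonneg fun _ _ => n0 _
  have e2 : (∏ s' ∈ range s, n s') ^ 4 = ((l : ℝ) ^ 8) ^ s * ∏ s' ∈ range s, q s' ^ 4 := by
    rw [← prod_pow, ← card_range s, ← prod_const, card_range, ← prod_mul_distrib]
    exact prod_congr rfl fun s' _ => n4 s'
  have m0 := n0 s
  have m4 := n4 s
  generalize ∏ s' ∈ range s, q s' ^ 4 = A at *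
  generalize ∏ s' ∈ range s, n s' = N at *
  generalize n s = m at *
  have r0 : 0 ≤ q s ^ 4 := by positivity
  generalize q s ^ 4 = r at *
  have e3 : (N ^ l * m ^ t) ^ 4 = (l : ℝ) ^ (8 * g) * (A ^ l * r ^ t) :=
    calc (N ^ l * m ^ t) ^ 4 = (N ^ 4) ^ l * (m ^ 4) ^ t := by ring
      _ = (((l : ℝ) ^ 8) ^ s * A) ^ l * ((l : ℝ) ^ 8 * r) ^ t := by rw [e2, m4]
      _ = (l : ℝ) ^ (8 * (l * s + t)) * (A ^ l * r ^ t) := by ring
      _ = _ := by rw [hg]
  have e4 : W ^ l * (A ^ l * r ^ t) ≤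
      Real.exp (-(b * ((l : ℝ) - t) + b' * t) + 314 / 25 * (η * l)) :=
    calc W ^ l * (A ^ l * r ^ t) = (W * A) ^ u * (W * (A * r)) ^ t := by
          rw [hu]
          ring
      _ ≤ Real.exp (-b + 314 / 25 * η) ^ u * Real.exp (-b' + 314 / 25 * η) ^ t := by gcongr
      _ = _ := by
          rw [← Real.exp_nat_mul, ← Real.exp_nat_mul, ← Real.exp_add, hu]
          congr 1
          push_cast
          ring
  have e5 : (l : ℝ) ^ (8 * g) = Real.exp (8 * (g : ℝ) * Real.log l) := by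
    rw [show 8 * (g : ℝ) = ((8 * g : ℕ) : ℝ) by push_cast; rfl, Real.exp_nat_mul, Real.exp_log Lp]
  refine (pow_le_pow_iff_left₀ (by positivity) (by positivity) two_ne_zero).1 ?_
  calc (R * (N ^ l * m ^ t) ^ 2) ^ 2 = R ^ 2 * (N ^ l * m ^ t) ^ 4 := by ring
    _ ≤ K ^ 52 * Real.exp (η * l / 500) * W ^ l * ((l : ℝ) ^ (8 * g) * (A ^ l * r ^ t)) := by
        rw [e3]
        exact mul_le_mul_of_nonneg_right h1 (by positivity)
    _ = K ^ 52 * Real.exp (η * l / 500) * (l : ℝ) ^ (8 * g) * (W ^ l * (A ^ l * r ^ t)) := by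
        rw [mul_mul_mul_comm _ (W ^ l)]
    _ ≤ K ^ 52 * Real.exp (η * l / 500) * Real.exp (8 * (g : ℝ) * Real.log l) *
        Real.exp (-(b * ((l : ℝ) - t) + b' * t) + 314 / 25 * (η * l)) := by
        rw [e5]
        exact mul_le_mul_of_nonneg_left e4
          (mul_nonneg (mul_nonneg (pow_nonneg K0 _) (Real.exp_pos _).le) (Real.exp_pos _).le)
    _ = _ := by
        rw [mul_pow, ← pow_mul, mul_assoc, mul_assoc, ← Real.exp_add, ← Real.exp_add,
          ← Real.exp_nat_mul]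
        congr 2
        push_cast
        ring

lemma mm_pos (L : ℕ) : 0 < mm L := Nat.succ_pos _

lemma key (hp : PhiStmt) (hs : SizeStmt) {L g : ℕ} (y : ℝ) (hL : 24 ≤ L) (hg : g < L) :
    ‖Rr L (ln (6 * mm L) y)‖ * (1 + |y|) ^ 2 * ‖aeval (ln (6 * mm L) y) (Q (mm L) g)‖ ^ 2 ≤
      (52000 * (mm L : ℝ)) ^ 26 * Real.exp (2 * bb (mm L) g + 6281 / 1000 * |y|) := by
  have h1 := hs L y hL
  have m0 := mm_pos L
  have mp : (0 : ℝ) < mm L := Nat.cast_pos.2 m0
  have hη : 0 ≤ |y| / mm L := div_nonneg (abs_nonneg _) mp.le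
  have hs8 : g / mm L < 8 := Nat.div_lt_of_lt_mul (by unfold mm; omega)
  have ht : g % mm L < mm L := Nat.mod_lt _ m0
  have hy : |y| / mm L * mm L = |y| := div_mul_cancel₀ _ mp.ne'
  have h := core (u := mm L - g % mm L) (t := g % mm L) (η := |y| / mm L)
    (R := ‖Rr L (ln (6 * mm L) y)‖ * (1 + |y|) ^ 2) (K := 52000 * (mm L : ℝ)) (by omega)
    (Nat.div_add_mod g (mm L)) m0 (by positivity) WW_nonneg (by positivity)
    (fun _ => norm_nonneg _) (by rw [hy]; exact h1) (fun s => qq_norm m0 s y)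
    (hp _ (by omega) _ hη) (hp _ (by omega) _ hη)
  rw [hy] at h
  refine le_of_eq_of_le ?_ h
  simp only [Q, map_mul, map_prod, map_pow, norm_mul, norm_prod, norm_pow, prod_pow]

lemma line (hp : PhiStmt) (hs : SizeStmt) {L i j : ℕ} (y : ℝ) (hL : 24 ≤ L)
    (hi : i < 2 * L) (hj : j < 2 * L) :
    ‖Rr L (ln (6 * mm L) y) * aeval (ln (6 * mm L) y) (P (mm L) i * P (mm L) j)‖ ≤
      (52000 * (mm L : ℝ)) ^ 26 * (Real.exp (bb (mm L) (i / 2)) * Real.exp (bb (mm L) (j / 2))) *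
        Real.exp (6281 / 1000 * |y|) := by
  have k1 := key hp hs y hL (show i / 2 < L by omega)
  have k2 := key hp hs y hL (show j / 2 < L by omega)
  set a := ‖aeval (ln (6 * mm L) y) (Q (mm L) (i / 2))‖ with ha
  set b := ‖aeval (ln (6 * mm L) y) (Q (mm L) (j / 2))‖ with hb
  set K := (52000 * (mm L : ℝ)) ^ 26 with hK
  have K0 : 0 ≤ K := by positivity
  have k3 : ‖Rr L (ln (6 * mm L) y)‖ * (1 + |y|) ^ 2 * (a * b) ≤
      K * (Real.exp (bb (mm L) (i / 2)) * Real.exp (bb (mm L) (j / 2))) *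
        Real.exp (6281 / 1000 * |y|) := by
    refine (pow_le_pow_iff_left₀ (by positivity) (by positivity) two_ne_zero).1 ?_
    calc (‖Rr L (ln (6 * mm L) y)‖ * (1 + |y|) ^ 2 * (a * b)) ^ 2 =
          ‖Rr L (ln (6 * mm L) y)‖ * (1 + |y|) ^ 2 * a ^ 2 *
            (‖Rr L (ln (6 * mm L) y)‖ * (1 + |y|) ^ 2 * b ^ 2) := by ring
      _ ≤ K * Real.exp (2 * bb (mm L) (i / 2) + 6281 / 1000 * |y|) *
          (K * Real.exp (2 * bb (mm L) (j / 2) + 6281 / 1000 * |y|)) :=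
        mul_le_mul k1 k2 (by positivity) (by positivity)
      _ = _ := by
        simp only [Real.exp_add, two_mul]
        ring
  have y0 := abs_nonneg y
  have k4 : |y| ^ (i % 2 + j % 2) ≤ (1 + |y|) ^ 2 :=
    calc _ ≤ (1 + |y|) ^ (i % 2 + j % 2) := pow_le_pow_left₀ y0 (by linarith) _
      _ ≤ _ := pow_le_pow_right₀ (by linarith) (by omega)
  have e : ‖Rr L (ln (6 * mm L) y) * aeval (ln (6 * mm L) y) (P (mm L) i * P (mm L) j)‖ =
      ‖Rr L (ln (6 * mm L) y)‖ * |y| ^ (i % 2 + j % 2) * (a * b) := by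
    simp only [P, map_mul, map_pow, norm_mul, norm_pow, li_norm, ha, hb]
    ring
  rw [e]
  refine le_trans ?_ k3
  gcongr

lemma be_le (s : ℕ) : (be s : ℝ) ≤ 99 := by
  have : be s ≤ 99 := by
    unfold be
    rcases s with _ | _ | _ | _ | _ | _ | _ | _ | _ | s <;> simp
  exact_mod_cast this

lemma ex_le {m : ℕ} (hm : 0 < m) (g : ℕ) : ex m (g / m) (g % m) ≤ 99 * m := by
  have ht : ((g % m : ℕ) : ℝ) ≤ m := by exact_mod_cast (Nat.mod_lt g hm).le
  have t0 : (0 : ℝ) ≤ (g % m : ℕ) := Nat.cast_nonneg _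
  have h1 := mul_le_mul_of_nonneg_right (be_le (g / m)) (sub_nonneg.2 ht)
  have h2 := mul_le_mul_of_nonneg_right (be_le (g / m + 1)) t0
  unfold ex
  linarith

lemma sum_ex {m L : ℕ} (hm : 0 < m) (h1 : L ≤ 8 * m) (h8 : 8 * m ≤ L + 8) :
    533 * (m : ℝ) ^ 2 - 752 * m ≤ ∑ g ∈ range L, ex m (g / m) (g % m) := by
  have h2 := sum_div_mod (ex m) hm 8
  have h3 : ∀ s, ∑ t ∈ range m, ex m s t =
      be s * ((m : ℝ) * (m + 1) / 2) + be (s + 1) * ((m : ℝ) * (m - 1) / 2) := fun s => by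
    simp only [ex, sum_add_distrib, ← mul_sum, sum_sub_distrib, sum_id, sum_const, card_range,
      nsmul_eq_mul]
    ring
  have h4 : ∑ s ∈ range 8, ∑ t ∈ range m, ex m s t =
      573 * ((m : ℝ) * (m + 1) / 2) + 493 * ((m : ℝ) * (m - 1) / 2) := by
    simp only [h3, sum_range_succ, sum_range_zero, be]
    norm_num
    ring
  have h5 := sum_range_add_sum_Ico (fun g => ex m (g / m) (g % m)) h1
  have h6 : ∑ g ∈ Ico L (8 * m), ex m (g / m) (g % m) ≤ 8 * (99 * m) := by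
    refine (sum_le_card_nsmul _ _ _ fun g _ => ex_le hm g).trans ?_
    rw [Nat.card_Ico, nsmul_eq_mul]
    have : ((8 * m - L : ℕ) : ℝ) ≤ 8 := by exact_mod_cast (show 8 * m - L ≤ 8 by omega)
    gcongr
  rw [h2, h4] at h5
  nlinarith

lemma log_mm {L : ℕ} (hL : 24 ≤ L) :
    Real.log (mm L) ≤ Real.log L - 3 * Real.log 2 + 8 / L := by
  have Lp : (0 : ℝ) < L := Nat.cast_pos.2 (by omega)
  have mp : (0 : ℝ) < mm L := Nat.cast_pos.2 (mm_pos L)
  have h8 : 8 * (mm L : ℝ) ≤ L + 8 := by exact_mod_cast (show 8 * mm L ≤ L + 8 by unfold mm; omega)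
  have h1 := Real.log_le_sub_one_of_pos (show 0 < 8 * (mm L : ℝ) / L by positivity)
  rw [Real.log_div (by positivity) Lp.ne', Real.log_mul (by norm_num) mp.ne',
    show (8 : ℝ) = 2 ^ 3 by norm_num, Real.log_pow] at h1
  have h2 : 8 * (mm L : ℝ) / L ≤ 1 + 8 / L := by
    rw [div_le_iff₀ Lp, add_mul, div_mul_cancel₀ _ Lp.ne']
    linarith
  norm_num at h1
  linarith

lemma sum_bb {L : ℕ} (hL : 24 ≤ L) : ∑ i ∈ range (2 * L), 2 * bb (mm L) (i / 2) ≤
    4 * (L : ℝ) ^ 2 * Real.log L - 83 / 5 * (L : ℝ) ^ 2 + 784 * L := by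
  have h1 := sum_div_mod (fun g _ => 2 * bb (mm L) g) two_pos L
  rw [show L * 2 = 2 * L by ring] at h1
  have h2 := sum_ex (mm_pos L) (show L ≤ 8 * mm L by unfold mm; omega)
    (show 8 * mm L ≤ L + 8 by unfold mm; omega)
  have h5 : ∑ g ∈ range L, ∑ _t ∈ range 2, 2 * bb (mm L) g =
      -∑ g ∈ range L, ex (mm L) (g / mm L) (g % mm L) +
        (8 * ∑ g ∈ range L, (g : ℝ)) * Real.log (mm L) := by
    rw [mul_sum, sum_mul, ← sum_neg_distrib, ← sum_add_distrib]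
    refine sum_congr rfl fun g _ => ?_
    rw [sum_const, card_range, nsmul_eq_mul, bb]
    push_cast
    ring
  have Lp : (0 : ℝ) < L := Nat.cast_pos.2 (by omega)
  have m1 : (1 : ℝ) ≤ mm L := by exact_mod_cast mm_pos L
  have lg : 0 ≤ L * Real.log (mm L) := mul_nonneg Lp.le (Real.log_nonneg m1)
  have h6 := mul_le_mul_of_nonneg_left (log_mm hL) (sq_nonneg (L : ℝ))
  have h7 : (L : ℝ) ^ 2 * (8 / L) = 8 * L := by field_simp
  have h8 : (L : ℝ) ≤ 8 * mm L := by exact_mod_cast (show L ≤ 8 * mm L by unfold mm; omega)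
  have h9 : (mm L : ℝ) ≤ L := by exact_mod_cast (show mm L ≤ L by unfold mm; omega)
  have h10 : (L : ℝ) ^ 2 ≤ 64 * (mm L : ℝ) ^ 2 := by nlinarith
  have h11 := mul_le_mul_of_nonneg_left Real.log_two_gt_d9.le (sq_nonneg (L : ℝ))
  rw [h1, h5, sum_id]
  nlinarith [sq_nonneg (L : ℝ)]

end RealP

open RealP in
theorem real (hb : BoundStmt) (hp : PhiStmt) (hs : SizeStmt) : RealStmt := by
  intro a b x hx
  obtain ⟨c, c0, hb⟩ := hb a b x hx
  refine ⟨2 * Real.log (2 * c * 52000 ^ 26) + 784, fun L hL => ?_⟩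
  have Lp : (0 : ℝ) < L := Nat.cast_pos.2 (by omega)
  have L1 : (1 : ℝ) ≤ L := by exact_mod_cast (show 1 ≤ L by omega)
  have h9 : (mm L : ℝ) ≤ L := by exact_mod_cast (show mm L ≤ L by unfold mm; omega)
  set A : ℝ := c * (52000 * (L : ℝ)) ^ 26 with hA
  have A0 : 0 < A := by positivity
  rw [Del, ← D57.gram ℚ (mom a b x L) (2 * L) (fun i => P (mm L) i) fun i => P_monic _ i,
    Rat.cast_det]
  refine (D57.detR _ _ (fun i => √A * Real.exp (bb (mm L) (i / 2))) fun i j => ?_).trans ?_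
  · refine (hb L (6 * mm L) _ _ (by unfold mm; omega) fun y => line hp hs y hL i.2 j.2).trans ?_
    rw [mul_mul_mul_comm √A, Real.mul_self_sqrt A0.le, hA, mul_assoc]
    gcongr
  · have e1 : ∏ i : Fin (2 * L), (√A * Real.exp (bb (mm L) (i / 2))) ^ 2 =
        A ^ (2 * L) * Real.exp (∑ i ∈ range (2 * L), 2 * bb (mm L) (i / 2)) := by
      rw [Real.exp_sum, ← Fin.prod_univ_eq_prod_range fun i => Real.exp (2 * bb (mm L) (i / 2))]
      simp only [mul_pow, Real.sq_sqrt A0.le, prod_mul_distrib, prod_const, card_univ,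
        Fintype.card_fin, ← Real.exp_nat_mul, Nat.cast_ofNat]
    have e2 : ((2 * L).factorial : ℝ) ≤ (2 * (L : ℝ)) ^ (2 * L) := by
      exact_mod_cast Nat.factorial_le_pow (2 * L)
    have e3 : (2 * (L : ℝ)) ^ (2 * L) * A ^ (2 * L) =
        Real.exp (2 * L * (Real.log (2 * c * 52000 ^ 26) + 27 * Real.log L)) := by
      rw [show 2 * (L : ℝ) * (Real.log (2 * c * 52000 ^ 26) + 27 * Real.log L) =
          ((2 * L : ℕ) : ℝ) * (Real.log (2 * c * 52000 ^ 26) + (27 : ℕ) * Real.log L) by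
        push_cast; rfl, Real.exp_nat_mul, Real.exp_add, Real.exp_nat_mul, Real.exp_log Lp,
        Real.exp_log (by positivity), ← mul_pow, hA]
      congr 1
      ring
    have e4 := Real.exp_le_exp.2 (sum_bb hL)
    have lg : 0 ≤ L * Real.log L := mul_nonneg Lp.le (Real.log_nonneg L1)
    rw [e1]
    calc _ ≤ (2 * (L : ℝ)) ^ (2 * L) * (A ^ (2 * L) * Real.exp
          (4 * (L : ℝ) ^ 2 * Real.log L - 83 / 5 * (L : ℝ) ^ 2 + 784 * L)) := by gcongr
      _ ≤ _ := by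
        rw [← mul_assoc, e3, ← Real.exp_add]
        refine Real.exp_le_exp.2 ?_
        nlinarith

end

end Pool.Agent.MP_807c24_nt.Z23
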