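import Pool.Agent.MP_807c24_nt.Z23.Basic

/-! Integrability on the vertical lines, and the shift across a triple zero. -/

namespace Pool.Agent.MP_807c24_nt.Z23

open Filter Topology MeasureTheory Complex Set

noncomputable section

namespace ShiftP

lemma int_exp {δ : ℝ} (hδ : 0 < δ) : Integrable fun y : ℝ => Real.exp (-(δ * |y|)) := by
  rw [← integrableOn_univ, ← Iic_union_Ioi (a := (0 : ℝ))]
  refine IntegrableOn.union ?_ ?_
  · refine (integrableOn_exp_mul_Iic hδ 0).congr_fun (fun y hy => ?_) measurableSet_Iic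
    simp only [abs_of_nonpos (mem_Iic.1 hy), mul_neg, neg_neg]
  · refine (exp_neg_integrableOn_Ioi 0 hδ).congr_fun (fun y hy => ?_) measurableSet_Ioi
    simp only [abs_of_pos (mem_Ioi.1 hy), neg_mul]

lemma exp_le_cosh (t : ℝ) : Real.exp |t| / 2 ≤ Real.cosh t := by
  rw [← Real.cosh_abs, Real.cosh_eq]
  linarith [Real.exp_pos (-|t|)]

lemma sq_exp (y : ℝ) : Real.exp |Real.pi * y| ^ 2 = (Real.exp (-(2 * Real.pi * |y|)))⁻¹ := by
  rw [← Real.exp_neg, ← Real.exp_nat_mul, abs_mul, abs_of_pos Real.pi_pos]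
  congr 1
  push_cast
  ring

lemma ker_le (a b : ℤ) :
    ∃ C : ℝ, 0 < C ∧ ∀ y : ℝ, ‖ker a b y‖ ≤ C * Real.exp (-(2 * Real.pi * |y|)) := by
  have hp := Real.pi_pos
  refine ⟨2 * Real.pi * (|(a : ℝ)| + Real.pi * |(b : ℝ)| + 1), by positivity, fun y => ?_⟩
  have h1 : Real.pi / 2 / Real.cosh (Real.pi * y) ^ 2 ≤
      2 * Real.pi * Real.exp (-(2 * Real.pi * |y|)) := by
    have h := pow_le_pow_left₀ (by positivity) (exp_le_cosh (Real.pi * y)) 2
    rw [div_pow, sq_exp] at h
    refine (div_le_div_of_nonneg_left (by positivity) (by positivity) h).trans_eq ?_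
    field_simp
  have h2 : ‖(a : ℂ) + I * (Real.pi * b * Real.tanh (Real.pi * y) : ℝ)‖ ≤
      |(a : ℝ)| + Real.pi * |(b : ℝ)| + 1 := by
    refine (norm_add_le _ _).trans ?_
    rw [norm_mul, norm_I, one_mul, norm_real, norm_intCast, Real.norm_eq_abs, abs_mul, abs_mul,
      abs_of_pos hp]
    have h3 := mul_le_of_le_one_right (show 0 ≤ Real.pi * |(b : ℝ)| by positivity)
      (Real.abs_tanh_lt_one (Real.pi * y)).le
    linarith
  rw [ker, norm_mul, norm_real, Real.norm_of_nonneg (by positivity)]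
  exact (mul_le_mul h1 h2 (norm_nonneg _) (by positivity)).trans_eq (by ring)

lemma cont_ker (a b : ℤ) : Continuous (ker a b) := by
  have h1 : Continuous fun y : ℝ => Real.tanh (Real.pi * y) := by
    simp only [Real.tanh_eq_sinh_div_cosh]
    exact Continuous.div (by fun_prop) (by fun_prop) fun y => (Real.cosh_pos _).ne'
  have h2 : Continuous fun y : ℝ => Real.pi / 2 / Real.cosh (Real.pi * y) ^ 2 :=
    Continuous.div (by fun_prop) (by fun_prop) fun y => (pow_pos (Real.cosh_pos _) 2).ne'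
  unfold ker
  exact (continuous_ofReal.comp h2).mul (continuous_const.add (continuous_const.mul
    (continuous_ofReal.comp (continuous_const.mul h1))))

lemma growth {f : ℂ → ℂ} (hf : Good f) (M : ℝ) :
    ∃ C : ℝ, 0 ≤ C ∧ ∀ s : ℂ, -1 / 2 ≤ s.re → |s.re| ≤ M → ‖f s‖ ≤ C * Real.exp |s.im| := by
  obtain ⟨-, C, m, h⟩ := hf
  refine ⟨|C| * (m.factorial * Real.exp (1 + M)), by positivity, fun s h1 h2 => (h s h1).trans ?_⟩
  have h3 := Real.pow_div_factorial_le_exp (1 + ‖s‖) (by positivity) m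
  rw [div_le_iff₀ (by positivity)] at h3
  have h4 : Real.exp (1 + ‖s‖) ≤ Real.exp (1 + M) * Real.exp |s.im| := by
    rw [← Real.exp_add]
    exact Real.exp_le_exp.2 (by linarith [norm_le_abs_re_add_abs_im s])
  calc C * (1 + ‖s‖) ^ m ≤ |C| * (Real.exp (1 + M) * Real.exp |s.im| * m.factorial) :=
        mul_le_mul (le_abs_self _) (h3.trans (by gcongr)) (by positivity) (abs_nonneg _)
    _ = _ := by ring

lemma ln_re (n : ℕ) (y : ℝ) : (ln n y).re = n - 1 / 2 := by simp [ln]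

lemma ln_im (n : ℕ) (y : ℝ) : (ln n y).im = y := by simp [ln]

lemma intg (a b : ℤ) (n : ℕ) {f : ℂ → ℂ} (hf : Good f) :
    Integrable fun y : ℝ => f (ln n y) * ker a b y := by
  obtain ⟨C, C0, h⟩ := growth hf |(n : ℝ) - 1 / 2|
  obtain ⟨D, D0, hk⟩ := ker_le a b
  have n0 : (0 : ℝ) ≤ n := n.cast_nonneg
  have hc : Continuous fun y : ℝ => f (ln n y) :=
    hf.1.continuousOn.comp_continuous (by unfold ln; fun_prop) fun y => by
      change -1 < (ln n y).re
      rw [ln_re]
      linarith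
  have hδ : 0 < 2 * Real.pi - 1 := by linarith [Real.pi_gt_three]
  refine Integrable.mono' ((int_exp hδ).const_mul (C * D))
    (hc.mul (cont_ker a b)).aestronglyMeasurable (ae_of_all _ fun y => ?_)
  have h1 := h (ln n y) (by rw [ln_re]; linarith) (by rw [ln_re])
  rw [ln_im] at h1
  rw [norm_mul]
  refine (mul_le_mul h1 (hk y) (norm_nonneg _) (by positivity)).trans_eq ?_
  rw [mul_mul_mul_comm, ← Real.exp_add]
  congr 2
  ring

/-- Two vertical lines give the same integral. -/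
lemma strip {F : ℂ → ℂ} {u v C : ℝ} (huv : u ≤ v)
    (hd : ∀ s : ℂ, u ≤ s.re → s.re ≤ v → DifferentiableAt ℂ F s)
    (hu : Integrable fun y : ℝ => F (u + y * I)) (hv : Integrable fun y : ℝ => F (v + y * I))
    (hb : ∀ s : ℂ, u ≤ s.re → s.re ≤ v → 1 ≤ |s.im| → ‖F s‖ ≤ C * Real.exp (-|s.im|)) :
    ∫ y : ℝ, F (v + y * I) = ∫ y : ℝ, F (u + y * I) := by
  have h0 : Tendsto (fun T : ℝ => C * Real.exp (-T) * |v - u|) atTop (𝓝 0) := by
    simpa using (Real.tendsto_exp_neg_atTop_nhds_zero.const_mul C).mul_const |v - u|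
  have hh : ∀ σ : ℝ, |σ| = 1 →
      Tendsto (fun T : ℝ => ∫ x : ℝ in u..v, F (x + (σ * T : ℝ) * I)) atTop (𝓝 0) := fun σ hσ => by
    refine squeeze_zero_norm' ?_ h0
    filter_upwards [eventually_ge_atTop (1 : ℝ)] with T hT
    refine intervalIntegral.norm_integral_le_of_norm_le_const fun x hx => ?_
    rw [uIoc_of_le huv] at hx
    have e : |((x : ℂ) + (σ * T : ℝ) * I).im| = T := by
      simp [abs_mul, hσ, abs_of_nonneg (zero_le_one.trans hT)]
    have := hb ((x : ℂ) + (σ * T : ℝ) * I) (by simpa using hx.1.le) (by simpa using hx.2)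
      (by rw [e]; exact hT)
    rwa [e] at this
  have h1 := intervalIntegral_tendsto_integral hu tendsto_neg_atTop_atBot tendsto_id
  have h2 := intervalIntegral_tendsto_integral hv tendsto_neg_atTop_atBot tendsto_id
  have h3 := (((hh (-1) (by simp)).sub (hh 1 (by simp))).add (h2.const_smul I)).sub
    (h1.const_smul I)
  have h4 := tendsto_nhds_unique h3 (tendsto_const_nhds.congr fun T => by
    have := integral_boundary_rect_eq_zero_of_differentiableOn F ⟨u, -T⟩ ⟨v, T⟩ fun s hs => by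
      have h5 := hs.1
      rw [mem_preimage, uIcc_of_le huv] at h5
      exact (hd s h5.1 h5.2).differentiableWithinAt
    simpa using this.symm)
  rw [sub_zero, zero_add, ← smul_sub, smul_eq_zero, sub_eq_zero] at h4
  exact h4.resolve_left I_ne_zero

/-- The kernel as a function of a complex variable. -/
def K (a b : ℤ) (w : ℂ) : ℂ :=
  Real.pi / 2 * (a - Real.pi * b * (cos (Real.pi * w) / sin (Real.pi * w))) / sin (Real.pi * w) ^ 2

lemma K_half (a b : ℤ) (y σ : ℝ) (hσ : σ = 1 ∨ σ = -1) :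
    K a b (σ / 2 + y * I) = ker a b y := by
  have hc : cosh (Real.pi * y : ℂ) ≠ 0 := by exact_mod_cast (Real.cosh_pos (Real.pi * y)).ne'
  have e : (Real.pi : ℂ) * (σ / 2 + y * I) = Real.pi * y * I + σ * (Real.pi / 2) := by ring
  rw [K, ker, e]
  rcases hσ with rfl | rfl
  · simp only [ofReal_one, one_mul, sin_add_pi_div_two, cos_add_pi_div_two, cos_mul_I, sin_mul_I]
    push_cast
    rw [tanh_eq_sinh_div_cosh]
    field_simp
    ring
  · simp only [ofReal_neg, ofReal_one, neg_mul, one_mul, ← sub_eq_add_neg, sin_sub_pi_div_two,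
      cos_sub_pi_div_two, cos_mul_I, sin_mul_I]
    push_cast
    rw [tanh_eq_sinh_div_cosh]
    field_simp
    ring

lemma trig {z : ℂ} (h : 1 ≤ |z.im|) :
    Real.exp |z.im| / 4 ≤ ‖sin z‖ ∧ ‖cos z‖ ≤ Real.exp |z.im| := by
  have e1 : ‖cexp (z * I)‖ = Real.exp (-z.im) := by rw [norm_exp]; simp
  have e2 : ‖cexp (-z * I)‖ = Real.exp z.im := by rw [norm_exp]; simp
  have h1 : 2 * Real.exp (-|z.im|) ≤ Real.exp |z.im| := by
    have h2 : Real.exp (-|z.im|) ≤ 1 := Real.exp_le_one_iff.2 (by linarith)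
    linarith [Real.add_one_le_exp |z.im|]
  have h0 := Real.exp_pos (-|z.im|)
  have s1 : ‖sin z‖ = ‖cexp (-z * I) - cexp (z * I)‖ / 2 := by
    rw [sin, norm_div, norm_mul, norm_I, mul_one, norm_ofNat]
  have s2 := abs_le.1 (abs_norm_sub_norm_le (cexp (-z * I)) (cexp (z * I)))
  have c1 : ‖cos z‖ ≤ (‖cexp (z * I)‖ + ‖cexp (-z * I)‖) / 2 := by
    rw [cos, norm_div, norm_ofNat]
    gcongr
    exact norm_add_le _ _
  rw [e1, e2] at s2 c1
  rcases abs_cases z.im with ⟨k, -⟩ | ⟨k, -⟩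
  · rw [k] at h0 h1 ⊢
    constructor <;> linarith [s2.1, s2.2]
  · rw [k, neg_neg] at h0 h1
    rw [k]
    constructor <;> linarith [s2.1, s2.2]

lemma K_le (a b : ℤ) : ∃ C : ℝ, 0 ≤ C ∧ ∀ w : ℂ, 1 ≤ |w.im| →
    ‖K a b w‖ ≤ C * Real.exp (-(2 * Real.pi * |w.im|)) := by
  have hp := Real.pi_pos
  refine ⟨8 * Real.pi * (|(a : ℝ)| + Real.pi * |(b : ℝ)| * 4), by positivity, fun w hw => ?_⟩
  have e : (Real.pi * w : ℂ).im = Real.pi * w.im := by simp
  obtain ⟨h1, h2⟩ := trig (z := Real.pi * w) (by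
    rw [e, abs_mul, abs_of_pos hp]
    nlinarith [Real.pi_gt_three])
  rw [e] at h1 h2
  have h0 := Real.exp_pos |Real.pi * w.im|
  have h3 : ‖cos (Real.pi * w) / sin (Real.pi * w)‖ ≤ 4 := by
    rw [norm_div, div_le_iff₀ (by linarith)]
    linarith
  have h4 : ‖(a : ℂ) - Real.pi * b * (cos (Real.pi * w) / sin (Real.pi * w))‖ ≤
      |(a : ℝ)| + Real.pi * |(b : ℝ)| * 4 := by
    refine (norm_sub_le _ _).trans ?_
    rw [norm_mul, norm_mul, norm_real, norm_intCast, norm_intCast, Real.norm_of_nonneg hp.le]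
    gcongr
  have h5 := pow_le_pow_left₀ (by positivity) h1 2
  rw [div_pow, sq_exp] at h5
  rw [K, norm_div, norm_mul, norm_div, norm_real, norm_ofNat, Real.norm_of_nonneg hp.le, norm_pow]
  refine (div_le_div₀ (by positivity) (mul_le_mul_of_nonneg_left h4 (by positivity))
    (by positivity) h5).trans_eq ?_
  field_simp
  ring

/-- `w / sin (π w)`. -/
def E (w : ℂ) : ℂ := (dslope (fun z : ℂ => sin (Real.pi * z)) 0 w)⁻¹

lemma E_eq {w : ℂ} (h : w ≠ 0) : E w = w / sin (Real.pi * w) := by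
  rw [E, dslope_of_ne _ h, slope_def_field]
  simp

lemma sin_ne {w : ℂ} (h : w ≠ 0) (h1 : |w.re| < 1) : sin (Real.pi * w) ≠ 0 := fun h0 => by
  obtain ⟨k, hk⟩ := sin_eq_zero_iff.1 h0
  have hp : (Real.pi : ℂ) ≠ 0 := ofReal_ne_zero.2 Real.pi_ne_zero
  have e : w = k := mul_left_cancel₀ hp (by rw [hk, mul_comm])
  rw [e, intCast_re] at h1
  have h2 : |k| < 1 := by exact_mod_cast h1
  exact h (by rw [e, Int.abs_lt_one_iff.1 h2, Int.cast_zero])

lemma E_diff {w : ℂ} (h1 : |w.re| < 1) : DifferentiableAt ℂ E w := by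
  have hd : DifferentiableOn ℂ (dslope (fun z : ℂ => sin (Real.pi * z)) 0) univ :=
    (differentiableOn_dslope univ_mem).2 (by fun_prop)
  refine (hd.differentiableAt univ_mem).inv ?_
  rcases eq_or_ne w 0 with rfl | h
  · have : HasDerivAt (fun z : ℂ => sin (Real.pi * z)) (cos (Real.pi * 0) * (Real.pi * 1)) 0 :=
      ((hasDerivAt_id (0 : ℂ)).const_mul (Real.pi : ℂ)).csin
    rw [dslope_same, this.deriv]
    simp
  · rw [dslope_of_ne _ h, slope_def_field]
    simpa [h] using sin_ne h h1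

/-- The integrand with its removable singularity filled in. -/
def F (a b : ℤ) (n : ℕ) (g : ℂ → ℂ) (s : ℂ) : ℂ :=
  g s * (Real.pi / 2 * (a * (s - n) * E (s - n) ^ 2 -
    Real.pi * b * cos (Real.pi * (s - n)) * E (s - n) ^ 3))

lemma F_eq (a b : ℤ) (n : ℕ) (g : ℂ → ℂ) {s : ℂ} (h : s - n ≠ 0) (h1 : |(s - n).re| < 1) :
    F a b n g s = (s - n) ^ 3 * g s * K a b (s - n) := by
  have := sin_ne h h1
  rw [F, K, E_eq h]
  field_simp

lemma F_line (a b : ℤ) (n : ℕ) (g : ℂ → ℂ) (y σ : ℝ) (hσ : σ = 1 ∨ σ = -1) {s : ℂ}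
    (hs : s - n = σ / 2 + y * I) : F a b n g s = (s - n) ^ 3 * g s * ker a b y := by
  have e : (s - n).re = σ / 2 := by rw [hs]; simp
  have h1 : s - n ≠ 0 := fun h => by
    rw [h, zero_re] at e
    rcases hσ with rfl | rfl <;> norm_num at e
  have h2 : |(s - n).re| < 1 := by
    rw [e]
    rcases hσ with rfl | rfl <;> norm_num [abs_div]
  rw [F_eq a b n g h1 h2, ← K_half a b y σ hσ, hs]

end ShiftP

open ShiftP

theorem int : IntStmt := by
  intro a b
  refine ⟨fun n f hf => intg a b n hf, ?_⟩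
  obtain ⟨D, D0, hk⟩ := ker_le a b
  have hδ : 0 < 2 * Real.pi - 6281 / 1000 := by linarith [Real.pi_gt_d4]
  have hJ : 0 ≤ ∫ y : ℝ, Real.exp (-((2 * Real.pi - 6281 / 1000) * |y|)) :=
    integral_nonneg fun y => (Real.exp_pos _).le
  refine ⟨D * ((∫ y : ℝ, Real.exp (-((2 * Real.pi - 6281 / 1000) * |y|))) + 1), by positivity,
    fun n f B h => ?_⟩
  have B0 : 0 ≤ B := nonneg_of_mul_nonneg_left ((norm_nonneg _).trans (h 0)) (Real.exp_pos _)
  refine (norm_integral_le_of_norm_le ((int_exp hδ).const_mul (B * D))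
    (ae_of_all _ fun y => ?_)).trans ?_
  · rw [norm_mul]
    refine (mul_le_mul (h y) (hk y) (norm_nonneg _) (by positivity)).trans_eq ?_
    rw [mul_mul_mul_comm, ← Real.exp_add]
    congr 2
    ring
  · rw [integral_const_mul]
    nlinarith [mul_nonneg B0 D0.le]

theorem shift : ShiftStmt := by
  intro a b n g hg
  have hf : Good fun s => (s - n) ^ 3 * g s := ((Good.id.sub (Good.const n)).pow 3).mul hg
  obtain ⟨C, C0, hC⟩ := growth hf (n + 1 / 2)
  obtain ⟨D, D0, hD⟩ := K_le a b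
  have n0 : (0 : ℝ) ≤ n := n.cast_nonneg
  have e1 : ∀ y : ℝ, F a b n g (((n : ℝ) - 1 / 2 : ℝ) + y * I) =
      (ln n y - n) ^ 3 * g (ln n y) * ker a b y := fun y => by
    rw [← F_line a b n g y (-1) (Or.inr rfl) (by rw [ln]; push_cast; ring), ln]
    congr 1
    push_cast
    ring
  have e2 : ∀ y : ℝ, F a b n g (((n : ℝ) + 1 / 2 : ℝ) + y * I) =
      (ln (n + 1) y - n) ^ 3 * g (ln (n + 1) y) * ker a b y := fun y => by
    rw [← F_line a b n g y 1 (Or.inl rfl) (by rw [ln]; push_cast; ring), ln]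
    congr 1
    push_cast
    ring
  have hr : ∀ s : ℂ, (n : ℝ) - 1 / 2 ≤ s.re → s.re ≤ n + 1 / 2 → |(s - n).re| < 1 := fun s h1 h2 => by
    rw [sub_re, natCast_re, abs_lt]
    constructor <;> linarith
  have h := strip (F := F a b n g) (u := n - 1 / 2) (v := n + 1 / 2) (C := C * D) (by linarith)
    (fun s h1 h2 => ?_) (by simpa only [e1] using intg a b n hf)
    (by simpa only [e2] using intg a b (n + 1) hf) fun s h1 h2 h3 => ?_
  · simpa only [JJ, e1, e2] using h
  · have d1 : DifferentiableAt ℂ g s := hg.1.differentiableAt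
      ((isOpen_lt continuous_const continuous_re).mem_nhds (show -1 < s.re by linarith))
    have d2 : DifferentiableAt ℂ (fun s : ℂ => E (s - n)) s :=
      DifferentiableAt.comp (g := E) s (E_diff (hr s h1 h2)) (differentiableAt_id.sub_const _)
    unfold F
    fun_prop
  · have e : (s - n).im = s.im := by simp
    have h4 := hD (s - n) (by rwa [e])
    rw [e] at h4
    have h5 : s - n ≠ 0 := fun h0 => by
      rw [← e, h0] at h3
      norm_num at h3
    rw [F_eq a b n g h5 (hr s h1 h2), norm_mul]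
    refine (mul_le_mul (hC s (by linarith) (abs_le.2 ⟨by linarith, h2⟩)) h4 (norm_nonneg _)
      (by positivity)).trans ?_
    rw [mul_mul_mul_comm, ← Real.exp_add]
    gcongr
    nlinarith [Real.pi_gt_three]

end

end Pool.Agent.MP_807c24_nt.Z23
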