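import Pool.Agent.MP_807c24_nt.Z23.Basic
import Pool.Agent.MP_807c24_nt.H13.Size

/-! Size of the rational function on the vertical line. -/

namespace Pool.Agent.MP_807c24_nt.Z23

open Finset

namespace SizeP

lemma nsq (a b : ℝ) : ‖(a : ℂ) + b * Complex.I‖ ^ 2 = a ^ 2 + b ^ 2 := by
  rw [Complex.sq_norm, Complex.normSq_add_mul_I]

lemma prod_Icc_eq (f : ℕ → ℝ) (N : ℕ) : ∏ k ∈ Icc 1 N, f k = ∏ k ∈ range N, f (k + 1) := by
  induction N with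
  | zero => simp
  | succ N ih => rw [prod_range_succ, ← ih, prod_Icc_succ_top (by omega)]

lemma zero_cell {m : ℕ} (hm : 1 ≤ m) (y : ℝ) (a : ℕ) :
    (∏ j ∈ range m, ‖ln (6 * m) y - ((a * m + j : ℕ) : ℂ)‖) ^ 2 ≤
      ((m : ℝ) ^ 2) ^ m * ((11 / 2 - (a : ℝ)) ^ 2 + (|y| / m) ^ 2 + 1 / 4) ^ m := by
  have hm' : (0 : ℝ) < m := by exact_mod_cast hm
  set w : ℂ := ((-((11 / 2 - (a : ℝ)) * m) : ℝ) : ℂ) + ((-y : ℝ) : ℂ) * Complex.I with hw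
  have e1 : ∀ j : ℕ, ‖ln (6 * m) y - ((a * m + j : ℕ) : ℂ)‖ = ‖w + ((j : ℂ) + 1 / 2 - m / 2)‖ := by
    intro j
    rw [← norm_neg]
    congr 1
    rw [hw, ln]
    push_cast
    ring
  have e2 : ‖w‖ ^ 2 = (m : ℝ) ^ 2 * ((11 / 2 - (a : ℝ)) ^ 2 + (|y| / m) ^ 2) := by
    rw [hw, nsq, div_pow, sq_abs]
    field_simp
  simp only [e1]
  refine (H13.Size.cell_le w m).trans_eq ?_
  rw [← mul_pow, e2]
  congr 1
  ring

lemma pole_cell {m : ℕ} (hm : 1 ≤ m) (y : ℝ) (a : ℕ) :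
    ((m : ℝ) ^ 2) ^ m * ((13 / 2 + (a : ℝ)) ^ 2 + (|y| / m) ^ 2 - 1 / 4) ^ m ≤
      (∏ j ∈ range m, ‖ln (6 * m) y + ((a * m + j + 1 : ℕ) : ℂ)‖) ^ 2 := by
  have hm' : (0 : ℝ) < m := by exact_mod_cast hm
  set w : ℂ := (((13 / 2 + (a : ℝ)) * m : ℝ) : ℂ) + (y : ℂ) * Complex.I with hw
  have e1 : ∀ j : ℕ, ln (6 * m) y + ((a * m + j + 1 : ℕ) : ℂ) = w + ((j : ℂ) + 1 / 2 - m / 2) := by
    intro j
    rw [hw, ln]
    push_cast
    ring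
  have e2 : ‖w‖ ^ 2 - (m : ℝ) ^ 2 / 4 =
      (m : ℝ) ^ 2 * ((13 / 2 + (a : ℝ)) ^ 2 + (|y| / m) ^ 2 - 1 / 4) := by
    rw [hw, nsq, div_pow, sq_abs]
    field_simp
  have ha : (0 : ℝ) ≤ a := Nat.cast_nonneg a
  have hA : 0 ≤ (13 / 2 + (a : ℝ)) ^ 2 + (|y| / m) ^ 2 - 1 / 4 := by
    nlinarith [sq_nonneg (|y| / m)]
  simp only [e1]
  refine le_of_eq_of_le ?_ (H13.Size.le_cell w m (by rw [e2]; positivity))
  rw [← mul_pow, e2]

lemma den_pos (η : ℝ) : 0 < ∏ a ∈ range 24, ((13 / 2 + (a : ℝ)) ^ 2 + η ^ 2 - 1 / 4) :=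
  prod_pos fun a _ => by
    have ha : (0 : ℝ) ≤ a := Nat.cast_nonneg a
    nlinarith [sq_nonneg η]

lemma ratio {m : ℕ} (hm : 1 ≤ m) (y : ℝ) :
    ((∏ t ∈ range (8 * m), ‖ln (6 * m) y - (t : ℂ)‖) ^ 3 /
      ∏ j ∈ range (24 * m), ‖ln (6 * m) y + ((j + 1 : ℕ) : ℂ)‖) ^ 2 ≤ WW (|y| / m) ^ m := by
  have hm' : (0 : ℝ) < m := by exact_mod_cast hm
  have hM : 0 < ((m : ℝ) ^ 2) ^ m := by positivity
  have h1 : ((∏ t ∈ range (8 * m), ‖ln (6 * m) y - (t : ℂ)‖) ^ 3) ^ 2 ≤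
      (((m : ℝ) ^ 2) ^ m) ^ 24 *
        (∏ a ∈ range 8, ((11 / 2 - (a : ℝ)) ^ 2 + (|y| / m) ^ 2 + 1 / 4) ^ 3) ^ m := by
    rw [pow_right_comm, H13.Size.prod_cells, ← prod_pow, prod_pow _ 3, pow_right_comm _ 3 m,
      show 24 = 8 * 3 from rfl, pow_mul, ← mul_pow]
    refine pow_le_pow_left₀ (prod_nonneg fun _ _ => sq_nonneg _) ?_ 3
    refine (prod_le_prod (fun _ _ => sq_nonneg _) fun a _ => zero_cell hm y a).trans_eq ?_
    rw [prod_mul_distrib, prod_const, card_range, prod_pow]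
  have h2 : (((m : ℝ) ^ 2) ^ m) ^ 24 *
      (∏ a ∈ range 24, ((13 / 2 + (a : ℝ)) ^ 2 + (|y| / m) ^ 2 - 1 / 4)) ^ m ≤
      (∏ j ∈ range (24 * m), ‖ln (6 * m) y + ((j + 1 : ℕ) : ℂ)‖) ^ 2 := by
    rw [H13.Size.prod_cells, ← prod_pow _ 2]
    refine le_of_eq_of_le ?_ (prod_le_prod (fun a _ => ?_) fun a _ => pole_cell hm y a)
    · rw [prod_mul_distrib, prod_const, card_range, prod_pow]
    · have ha : (0 : ℝ) ≤ a := Nat.cast_nonneg a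
      have hA : 0 ≤ (13 / 2 + (a : ℝ)) ^ 2 + (|y| / m) ^ 2 - 1 / 4 := by
        nlinarith [sq_nonneg (|y| / m)]
      positivity
  have h3 := den_pos (|y| / m)
  rw [div_pow, WW, div_pow]
  exact (div_le_div₀ ((sq_nonneg _).trans h1) h1 (by positivity) h2).trans_eq
    (mul_div_mul_left _ _ (pow_pos hM 24).ne')

lemma half_le (n t : ℕ) (y : ℝ) : 1 / 2 ≤ ‖ln n y - (t : ℂ)‖ := by
  refine le_trans ?_ (Complex.abs_re_le_norm _)
  have e : (ln n y - (t : ℂ)).re = (n : ℝ) - 1 / 2 - t := by simp [ln]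
  rw [e]
  rcases le_or_gt n t with h | h
  · have : (n : ℝ) ≤ t := by exact_mod_cast h
    rw [le_abs]
    right
    linarith
  · have : (t : ℝ) + 1 ≤ n := by exact_mod_cast h
    rw [le_abs]
    left
    linarith

lemma pole_pos (n j : ℕ) (y : ℝ) : 0 < ‖ln n y + ((j + 1 : ℕ) : ℂ)‖ := by
  refine lt_of_lt_of_le ?_ (Complex.re_le_norm _)
  have e : (ln n y + ((j + 1 : ℕ) : ℂ)).re = (n : ℝ) - 1 / 2 + (j + 1) := by simp [ln]
  rw [e]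
  have h1 : (0 : ℝ) ≤ n := Nat.cast_nonneg n
  have h2 : (0 : ℝ) ≤ j := Nat.cast_nonneg j
  linarith

lemma pole_le (n j : ℕ) (y : ℝ) : ‖ln n y + (j : ℂ)‖ ≤ n + j + 1 / 2 + |y| := by
  have e : ln n y + (j : ℂ) = ((n + j - 1 / 2 : ℝ) : ℂ) + (y : ℂ) * Complex.I := by
    rw [ln]
    push_cast
    ring
  rw [e]
  refine (norm_add_le _ _).trans ?_
  rw [norm_mul, Complex.norm_I, mul_one, Complex.norm_real, Complex.norm_real, Real.norm_eq_abs,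
    Real.norm_eq_abs]
  have h1 : (0 : ℝ) ≤ n := Nat.cast_nonneg n
  have h2 : (0 : ℝ) ≤ j := Nat.cast_nonneg j
  have h3 : |(n : ℝ) + j - 1 / 2| ≤ n + j + 1 / 2 := abs_le.2 ⟨by linarith, by linarith⟩
  linarith

lemma extend {L m d : ℕ} (hm : 1 ≤ m) (hd : L + d = 8 * m) (hd8 : d ≤ 8) (y : ℝ) :
    ‖Rr L (ln (6 * m) y)‖ ≤ 2 ^ 24 * (31 * m + |y|) ^ 24 *
      ((∏ t ∈ range (8 * m), ‖ln (6 * m) y - (t : ℂ)‖) ^ 3 /
        ∏ j ∈ range (24 * m), ‖ln (6 * m) y + ((j + 1 : ℕ) : ℂ)‖) := by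
  have hm' : (1 : ℝ) ≤ m := by exact_mod_cast hm
  have hy := abs_nonneg y
  have e0 : ‖Rr L (ln (6 * m) y)‖ = (∏ t ∈ range L, ‖ln (6 * m) y - (t : ℂ)‖) ^ 3 /
      ∏ j ∈ range (3 * L), ‖ln (6 * m) y + ((j + 1 : ℕ) : ℂ)‖ := by
    rw [Rr, norm_div, norm_prod, norm_prod, prod_Icc_eq, ← prod_pow]
    simp only [norm_pow]
  have h1 : ∏ t ∈ range L, ‖ln (6 * m) y - (t : ℂ)‖ ≤
      2 ^ 8 * ∏ t ∈ range (8 * m), ‖ln (6 * m) y - (t : ℂ)‖ := by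
    rw [← hd, prod_range_add, mul_left_comm]
    refine le_mul_of_one_le_right (prod_nonneg fun _ _ => norm_nonneg _) ?_
    have h : (1 / 2 : ℝ) ^ d ≤ ∏ k ∈ range d, ‖ln (6 * m) y - ((L + k : ℕ) : ℂ)‖ :=
      le_of_eq_of_le (by rw [prod_const, card_range])
        (prod_le_prod (fun _ _ => by norm_num) fun k _ => half_le (6 * m) (L + k) y)
    have h' : (1 / 2 : ℝ) ^ 8 ≤ (1 / 2) ^ d := pow_le_pow_of_le_one (by norm_num) (by norm_num) hd8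
    norm_num at h' h ⊢
    linarith
  have h2 : ∏ j ∈ range (24 * m), ‖ln (6 * m) y + ((j + 1 : ℕ) : ℂ)‖ ≤
      (∏ j ∈ range (3 * L), ‖ln (6 * m) y + ((j + 1 : ℕ) : ℂ)‖) * (31 * m + |y|) ^ 24 := by
    rw [show 24 * m = 3 * L + 3 * d by omega, prod_range_add]
    refine mul_le_mul_of_nonneg_left ?_ (prod_nonneg fun _ _ => norm_nonneg _)
    refine (prod_le_prod (g := fun _ => 31 * (m : ℝ) + |y|) (fun _ _ => norm_nonneg _)
      fun k hk => ?_).trans ?_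
    · refine (pole_le _ _ y).trans ?_
      have h : 3 * L + k + 1 ≤ 24 * m := by
        have := mem_range.1 hk
        omega
      have h' : ((3 * L + k + 1 : ℕ) : ℝ) ≤ ((24 * m : ℕ) : ℝ) := by exact_mod_cast h
      push_cast at h' ⊢
      linarith
    · rw [prod_const, card_range]
      exact pow_le_pow_right₀ (by linarith) (by omega)
  have p1 : 0 < ∏ j ∈ range (3 * L), ‖ln (6 * m) y + ((j + 1 : ℕ) : ℂ)‖ :=
    prod_pos fun j _ => pole_pos _ j y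
  have p2 : 0 < ∏ j ∈ range (24 * m), ‖ln (6 * m) y + ((j + 1 : ℕ) : ℂ)‖ :=
    prod_pos fun j _ => pole_pos _ j y
  have p3 : 0 ≤ ∏ t ∈ range L, ‖ln (6 * m) y - (t : ℂ)‖ := prod_nonneg fun _ _ => norm_nonneg _
  have h3 := pow_le_pow_left₀ p3 h1 3
  rw [e0, ← mul_div_assoc, div_le_div_iff₀ p1 p2]
  refine (mul_le_mul h3 h2 p2.le ((pow_nonneg p3 3).trans h3)).trans_eq ?_
  ring

end SizeP

theorem size : SizeStmt := by
  intro L y _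
  have hm : 1 ≤ mm L := by
    unfold mm
    omega
  have hd : L + (8 * mm L - L) = 8 * mm L := by
    unfold mm
    omega
  have hd8 : 8 * mm L - L ≤ 8 := by
    unfold mm
    omega
  have h1 := SizeP.extend hm hd hd8 y
  have h2 := SizeP.ratio hm y
  generalize mm L = m at hm h1 h2 ⊢
  have hm' : (1 : ℝ) ≤ m := by exact_mod_cast hm
  have hy := abs_nonneg y
  set Q := (∏ t ∈ range (8 * m), ‖ln (6 * m) y - (t : ℂ)‖) ^ 3 /
    ∏ j ∈ range (24 * m), ‖ln (6 * m) y + ((j + 1 : ℕ) : ℂ)‖ with hQ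
  have hQ0 : 0 ≤ Q := div_nonneg (pow_nonneg (prod_nonneg fun _ _ => norm_nonneg _) 3)
    (prod_nonneg fun _ _ => norm_nonneg _)
  set B : ℝ := 26000 * m * Real.exp (|y| / 26000) with hB
  have h3 := Real.add_one_le_exp (|y| / 26000)
  have hB1 : 31 * m + |y| ≤ B := by
    rw [hB]
    nlinarith
  have hB2 : 1 + |y| ≤ B := by linarith
  have hB0 : 0 ≤ B := by linarith
  have h4 : ‖Rr L (ln (6 * m) y)‖ * (1 + |y|) ^ 2 ≤ (2 * B) ^ 26 * Q := by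
    have a1 : (31 * m + |y|) ^ 24 ≤ B ^ 24 := pow_le_pow_left₀ (by positivity) hB1 24
    have a2 : (1 + |y|) ^ 2 ≤ B ^ 2 := pow_le_pow_left₀ (by positivity) hB2 2
    calc _ ≤ 2 ^ 24 * B ^ 24 * Q * B ^ 2 := by
          refine mul_le_mul (h1.trans ?_) a2 (by positivity) (by positivity)
          gcongr
      _ = 2 ^ 24 * (B ^ 26 * Q) := by ring
      _ ≤ 2 ^ 26 * (B ^ 26 * Q) := by gcongr <;> norm_num
      _ = _ := by ring
  have e1 : ((2 * B) ^ 26) ^ 2 = (52000 * (m : ℝ)) ^ 52 * Real.exp (|y| / 500) := by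
    rw [← pow_mul, hB, show 2 * (26000 * (m : ℝ) * Real.exp (|y| / 26000)) =
      52000 * m * Real.exp (|y| / 26000) by ring, mul_pow _ _ (26 * 2), ← Real.exp_nat_mul]
    congr 2
    push_cast
    ring
  refine (pow_le_pow_left₀ (by positivity) h4 2).trans ?_
  rw [mul_pow, e1]
  exact mul_le_mul_of_nonneg_left h2 (by positivity)

end Pool.Agent.MP_807c24_nt.Z23
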