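import Pool.Agent.MP_807c24_nt.Z23.Basic
import Pool.Agent.MP_807c24_nt.H13.Crude

/-!
The bound for the Hankel determinant at every prime up to `4 L`.
-/

namespace Pool.Agent.MP_807c24_nt.Z23

open Finset Polynomial
open Pool.Agent.MP_807c24_nt.H13 (pn)
open Pool.Agent.MP_807c24_nt.H13.Crude (cnt cnt_bounds)
open Pool.Agent.MP_807c24_nt.D57 (lam hank psi)

namespace SmallP

theorem zeros_ge (l : ℕ) {q : ℕ} (hq : 0 < q) (c : ℤ) :
    (l : ℝ) * (1 / q) - 1 ≤ ((rg l).countP (fun t => (q : ℤ) ∣ t - c) : ℕ) := by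
  have h := (cnt_bounds q c (-1) (l - 1) (by exact_mod_cast hq) (by omega)).2
  have e : cnt q c (-1) (l - 1) = ((rg l).countP (fun t => (q : ℤ) ∣ t - c) : ℕ) := by
    rw [countP_rg, cnt]
    congr 1
    symm
    refine card_nbij (fun t : ℕ => (t : ℤ)) (fun t ht => ?_) (fun _ _ _ _ h => by simpa using h)
      fun t ht => ?_
    · simp only [coe_filter, mem_range, Set.mem_ofPred_eq, mem_Ioc] at ht ⊢
      exact ⟨by omega, ht.2⟩
    · simp only [coe_filter, mem_range, Set.mem_ofPred_eq, mem_Ioc, Set.mem_image] at ht ⊢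
      obtain ⟨n, rfl⟩ := Int.eq_ofNat_of_zero_le (show 0 ≤ t by omega)
      exact ⟨n, ⟨by omega, ht.2⟩, rfl⟩
  rw [e] at h
  have h' := (Rat.cast_le (K := ℝ)).2 h
  push_cast at h'
  refine le_trans (le_of_eq ?_) h'
  ring

theorem poles_le (l : ℕ) {q : ℕ} (hq : 0 < q) (c : ℤ) :
    ((((Icc 1 l).filter fun j : ℕ => (q : ℤ) ∣ (j : ℤ) + c).card : ℕ) : ℝ) ≤ l * (1 / q) + 1 := by
  have h := (cnt_bounds q (-c) 0 l (by exact_mod_cast hq) (by omega)).1
  have e : cnt q (-c) 0 l = (((Icc 1 l).filter fun j : ℕ => (q : ℤ) ∣ (j : ℤ) + c).card : ℕ) := by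
    rw [cnt]
    congr 1
    symm
    refine card_nbij (fun t : ℕ => (t : ℤ)) (fun t ht => ?_) (fun _ _ _ _ h => by simpa using h)
      fun t ht => ?_
    · simp only [coe_filter, mem_Icc, Set.mem_ofPred_eq, mem_Ioc, sub_neg_eq_add] at ht ⊢
      exact ⟨by omega, ht.2⟩
    · simp only [coe_filter, mem_Icc, Set.mem_ofPred_eq, mem_Ioc, Set.mem_image,
        sub_neg_eq_add] at ht ⊢
      obtain ⟨n, rfl⟩ := Int.eq_ofNat_of_zero_le (show 0 ≤ t by omega)
      exact ⟨n, ⟨by omega, ht.2⟩, rfl⟩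
  rw [e] at h
  have h' := (Rat.cast_le (K := ℝ)).2 h
  push_cast at h'
  refine h'.trans (le_of_eq ?_)
  ring

theorem od_ge (L i j : ℕ) {q : ℕ} (hq : 0 < q) (c : ℤ) :
    ((i : ℝ) + j) * (1 / q) - 6 ≤ (od (Zm L + (rg i + rg j)) (Icc 1 (3 * L)) q c : ℤ) := by
  have h1 := zeros_ge L hq c
  have h2 := zeros_ge i hq c
  have h3 := zeros_ge j hq c
  have h4 := poles_le (3 * L) hq c
  rw [od, Zm, Multiset.countP_add, Multiset.countP_add, Multiset.countP_nsmul]
  push_cast at h4 ⊢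
  linarith

theorem sum_lin (c s : ℝ) (n : ℕ) :
    ∑ i ∈ range n, 2 * (c - i * s) = 2 * n * c - n * (n - 1) * s := by
  induction n with
  | zero => simp
  | succ n ih => rw [sum_range_succ, ih]; push_cast; ring

end SmallP

open SmallP

theorem small (hl : LinkStmt) (he : EntrySStmt) : SmallStmt := by
  intro p hp a b x L hL
  have p1 : 1 < p := hp.out.one_lt
  have r1 : (1 : ℝ) < p := by exact_mod_cast p1
  have r0 : (0 : ℝ) < p := by linarith
  have l0 : 0 ≤ Real.log p := Real.log_nonneg r1.le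
  unfold fS
  set J := Nat.log p (4 * L) with hJ
  have J1 : 4 * L < p ^ (J + 1) := Nat.lt_pow_succ_log_self p1 _
  have J2 : p ^ J ≤ 4 * L := Nat.pow_log_le_self p (by omega)
  set σ : ℝ := ∑ e ∈ Icc 1 (J + 1), 1 / (p : ℝ) ^ e with hσ
  rw [Del, ← D57.gram ℚ _ (2 * L) (fun i => Np (rg i))
    fun i => ⟨Np_monic _, by rw [Np_natDegree, card_rg]⟩]
  refine (D57.detP p _ _ (fun i => Real.exp ((4 * (J + 1) + 1 - (i : ℕ) * σ) * Real.log p))
    fun i j => ?_).trans ?_
  · rw [Matrix.of_apply, ← Np_add, hl, ← Np_add]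
    refine (he p a b x _ _ (J + 1) ⌈(((i : ℕ) : ℝ) + (j : ℕ)) * σ - 6 * (J + 1)⌉ (fun t ht => ?_)
      fun c => ?_).trans ?_
    · have := mem_Icc.1 ht
      have h2 : p ^ (J + 1) * 2 ≤ p ^ (J + 1 + 1) := by
        rw [pow_succ p (J + 1)]
        exact Nat.mul_le_mul_left _ p1
      omega
    · rw [Int.ceil_le, Int.cast_sum]
      refine le_trans (le_of_eq ?_) (sum_le_sum fun e _ => od_ge L i j (pow_pos hp.out.pos e) c)
      rw [sum_sub_distrib, ← mul_sum, sum_const, Nat.card_Icc, nsmul_eq_mul]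
      push_cast
      rw [← hσ]
      ring
    · rw [← Real.exp_add, ← Real.rpow_intCast, Real.rpow_def_of_pos r0, mul_comm, ← add_mul]
      refine Real.exp_le_exp.2 (mul_le_mul_of_nonneg_right ?_ l0)
      have := Int.le_ceil ((((i : ℕ) : ℝ) + (j : ℕ)) * σ - 6 * (J + 1))
      push_cast
      linarith
  · simp only [← Real.exp_nat_mul]
    rw [← Real.exp_sum, Fin.sum_univ_eq_sum_range (fun i : ℕ => ((2 : ℕ) : ℝ) *
      ((4 * (J + 1) + 1 - i * σ) * Real.log p))]
    refine Real.exp_le_exp.2 ?_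
    rw [sum_congr rfl (g := fun i : ℕ => 2 * (4 * (J + 1) + 1 - i * σ) * Real.log p)
      fun i _ => by push_cast; ring, ← sum_mul, sum_lin]
    have L1 : (1 : ℝ) ≤ L := by exact_mod_cast (show 1 ≤ L by omega)
    have a1 : Real.log p ≤ Real.log (4 * L) :=
      Real.log_le_log r0 (by exact_mod_cast hL)
    have a2 : J * Real.log p ≤ Real.log (4 * L) := by
      rw [← Real.log_pow]
      exact Real.log_le_log (by positivity) (by exact_mod_cast J2)
    have a3 : ∑ e ∈ Icc 1 J, 1 / (p : ℝ) ^ e ≤ σ :=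
      sum_le_sum_of_subset_of_nonneg (Icc_subset_Icc_right J.le_succ) fun _ _ _ => by positivity
    have a4 := mul_le_mul_of_nonneg_right (mul_le_mul_of_nonneg_left a3
      (show 0 ≤ 4 * (L : ℝ) ^ 2 - 2 * L by nlinarith)) l0
    have a5 := mul_le_mul_of_nonneg_left (show (16 * J + 20) * Real.log p ≤ 40 * Real.log (4 * L) by
      linarith) (show (0 : ℝ) ≤ L by linarith)
    push_cast
    nlinarith

end Pool.Agent.MP_807c24_nt.Z23
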