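import Pool.Agent.MP_807c24_nt.Z23.Basic
import Pool.Agent.MP_807c24_nt.D57.Sq

/-! Sums of the class multiplicities and of their squares. -/

set_option autoImplicit false

namespace Pool.Agent.MP_807c24_nt.Z23

open Finset
open Pool.Agent.MP_807c24_nt.D57 (psi)
open Pool.Agent.MP_807c24_nt.D57.Sq (cnt cnt_add one)

namespace Sq

theorem sum_cnt {q : ℕ} (hq : 0 < q) (a : ℤ) (l : ℕ) : ∑ c ∈ range q, cnt q a l c = l := by
  have hq' : (0 : ℤ) < q := by exact_mod_cast hq
  simp only [cnt]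
  rw [sum_comm, ← mul_one (l : ℤ), ← nsmul_eq_mul, ← card_range l, ← sum_const, card_range]
  refine sum_congr rfl fun j _ => ?_
  obtain ⟨c₀, h0, h1⟩ : ∃ c₀ : ℕ, c₀ < q ∧ (q : ℤ) ∣ a + j - c₀ := by
    have e1 := Int.emod_nonneg (a + j) hq'.ne'
    have e2 := Int.emod_lt_of_pos (a + j) hq'
    refine ⟨((a + j) % q).toNat, by omega, ?_⟩
    rw [Int.toNat_of_nonneg e1]
    exact Int.dvd_self_sub_emod
  rw [sum_eq_single c₀, if_pos h1]
  · intro c hc e
    have h4 := mem_range.1 hc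
    exact if_neg fun h => e (by
      have h5 := Int.eq_zero_of_abs_lt_dvd (dvd_sub h1 h) (abs_lt.2 ⟨by omega, by omega⟩)
      omega)
  · intro h
    exact absurd (mem_range.2 h0) h

theorem od_eq (L q c : ℕ) : od (Zm L) (Icc 1 (3 * L)) q c
    = 3 * cnt q 0 L c - cnt q (-(3 * L : ℕ)) (3 * L) c := by
  rw [od, Zm, Multiset.countP_nsmul, countP_rg, card_filter, card_filter, cnt, cnt,
    ← sum_range_reflect _ (3 * L), ← Ico_add_one_right_eq_Icc, sum_Ico_eq_sum_range,
    Nat.add_sub_cancel]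
  push_cast
  simp only [zero_add]
  congr 1
  refine sum_congr rfl fun j hj => if_congr ?_ rfl rfl
  have h4 := mem_range.1 hj
  have h5 : -(3 * (L : ℤ)) + ((3 * L - 1 - j : ℕ) : ℤ) - c = -(1 + j + c) := by omega
  rw [h5, dvd_neg]

end Sq

open Sq

theorem sq : SqStmt := by
  intro L q hq
  constructor
  · simp only [od_eq, sum_sub_distrib, ← mul_sum, sum_cnt hq]
    push_cast
    ring
  · have h : ∀ c ∈ range q, od (Zm L) (Icc 1 (3 * L)) q c ^ 2 =
        4 * cnt q (-(3 * L : ℕ)) (3 * L) c ^ 2 + 12 * cnt q 0 L c ^ 2 -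
          3 * cnt q (-(3 * L : ℕ)) (4 * L) c ^ 2 := by
      intro c _
      have h1 := cnt_add q (-(3 * L : ℕ)) (3 * L) L c
      rw [show 3 * L + L = 4 * L by ring, neg_add_cancel] at h1
      rw [od_eq, h1]
      ring
    rw [sum_congr rfl h]
    simp only [sum_add_distrib, sum_sub_distrib, ← mul_sum, one hq, Phi]
    push_cast
    ring

end Pool.Agent.MP_807c24_nt.Z23
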