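import Pool.Agent.MP_807c24_nt.Z23.Basic

/-! The elementary jumps, and the values of the line integral on monomials and simple poles. -/

namespace Pool.Agent.MP_807c24_nt.Z23

open Finset Filter Topology MeasureTheory
open Pool.Agent.MP_807c24_nt.H13 (zr)

namespace ValP

noncomputable section

/-- The even weight. -/
def uu (y : ℝ) : ℝ := Real.pi / 2 / Real.cosh (Real.pi * y) ^ 2

/-- The odd factor. -/
def TT (y : ℝ) : ℝ := Real.tanh (Real.pi * y)

theorem cosh_ge (y : ℝ) : 1 + y ^ 2 ≤ Real.cosh (Real.pi * y) := by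
  have h1 : Real.cosh (Real.pi * y) = 1 + 2 * Real.sinh (Real.pi * y / 2) ^ 2 := by
    have h := Real.cosh_two_mul (Real.pi * y / 2)
    rw [show 2 * (Real.pi * y / 2) = Real.pi * y by ring, Real.cosh_sq'] at h
    linarith
  have h2 : |Real.pi * y / 2| ≤ |Real.sinh (Real.pi * y / 2)| := by
    rw [Real.abs_sinh]
    exact Real.self_le_sinh_iff.2 (abs_nonneg _)
  have h3 : (Real.pi * y / 2) ^ 2 ≤ Real.sinh (Real.pi * y / 2) ^ 2 := sq_le_sq.2 h2
  have h4 : (9 : ℝ) ≤ Real.pi ^ 2 := by nlinarith [Real.pi_gt_three]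
  nlinarith [sq_nonneg y, mul_le_mul_of_nonneg_right h4 (sq_nonneg y)]

theorem uu_pos (y : ℝ) : 0 < uu y := by
  have := Real.cosh_pos (Real.pi * y)
  have := Real.pi_pos
  unfold uu
  positivity

theorem uu_le (y : ℝ) : (1 + |y|) * uu y ≤ 4 * (1 + y ^ 2)⁻¹ := by
  have h1 := cosh_ge y
  have h0 : 0 < 1 + y ^ 2 := by positivity
  have h2 : (1 + y ^ 2) ^ 2 ≤ Real.cosh (Real.pi * y) ^ 2 := pow_le_pow_left₀ h0.le h1 2
  have h3 : uu y ≤ 2 / (1 + y ^ 2) ^ 2 := by
    unfold uu
    exact div_le_div₀ (by norm_num) (by linarith [Real.pi_le_four]) (by positivity) h2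
  have h4 : 1 + |y| ≤ 2 * (1 + y ^ 2) := by
    nlinarith [sq_abs y, sq_nonneg (|y| - 1), abs_nonneg y]
  calc (1 + |y|) * uu y ≤ (2 * (1 + y ^ 2)) * (2 / (1 + y ^ 2) ^ 2) :=
        mul_le_mul h4 h3 (uu_pos y).le (by positivity)
    _ = 4 * (1 + y ^ 2)⁻¹ := by field_simp; norm_num

theorem abs_TT (y : ℝ) : |TT y| ≤ 1 := (Real.abs_tanh_lt_one _).le

theorem uu_neg (y : ℝ) : uu (-y) = uu y := by simp [uu]

theorem TT_neg (y : ℝ) : TT (-y) = -TT y := by simp [TT]

theorem deriv_TT (y : ℝ) : HasDerivAt TT (2 * uu y) y := by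
  have hc := (Real.cosh_pos (Real.pi * y)).ne'
  have h1 : HasDerivAt (fun y : ℝ => Real.pi * y) Real.pi y := by
    simpa using (hasDerivAt_id y).const_mul Real.pi
  have h2 := (h1.sinh).div (h1.cosh) hc
  have h3 : TT = fun y : ℝ => Real.sinh (Real.pi * y) / Real.cosh (Real.pi * y) := by
    funext z
    rw [TT, Real.tanh_eq_sinh_div_cosh]
  rw [h3]
  refine h2.congr_deriv ?_
  have h4 := Real.cosh_sq' (Real.pi * y)
  unfold uu
  field_simp
  nlinarith

theorem deriv_uu (y : ℝ) : HasDerivAt uu (-(2 * Real.pi) * (uu y * TT y)) y := by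
  have hc := (Real.cosh_pos (Real.pi * y)).ne'
  have h1 : HasDerivAt (fun y : ℝ => Real.pi * y) Real.pi y := by
    simpa using (hasDerivAt_id y).const_mul Real.pi
  have h2 := (hasDerivAt_const y (Real.pi / 2)).div (h1.cosh.pow 2) (pow_ne_zero 2 hc)
  refine h2.congr_deriv ?_
  unfold uu TT
  rw [Real.tanh_eq_sinh_div_cosh]
  simp only [Pi.pow_apply]
  field_simp
  ring

theorem cont_TT : Continuous TT := continuous_iff_continuousAt.2 fun y => (deriv_TT y).continuousAt

theorem cont_uu : Continuous uu := continuous_iff_continuousAt.2 fun y => (deriv_uu y).continuousAt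

theorem integ {g : ℝ → ℝ} (hg : Continuous g) (hb : ∀ y, |g y| ≤ 1 + |y|) :
    Integrable fun y => g y * uu y := by
  refine (integrable_inv_one_add_sq.const_mul 4).mono' (hg.mul cont_uu).aestronglyMeasurable
    (Eventually.of_forall fun y => ?_)
  rw [Real.norm_eq_abs, abs_mul, abs_of_pos (uu_pos y)]
  exact (mul_le_mul_of_nonneg_right (hb y) (uu_pos y).le).trans (uu_le y)

theorem integ1 : Integrable uu := by
  simpa using integ (g := fun _ => 1) continuous_const fun y => by simp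

theorem integ2 : Integrable fun y => TT y * uu y :=
  integ cont_TT fun y => (abs_TT y).trans (by simp)

theorem integ3 : Integrable fun y => y * uu y :=
  integ continuous_id fun y => by simp

theorem integ4 : Integrable fun y => y * TT y * uu y :=
  integ (continuous_id.mul cont_TT) fun y => by
    rw [abs_mul]
    nlinarith [abs_TT y, abs_nonneg y, abs_nonneg (TT y)]

theorem lim_top : Tendsto (fun y : ℝ => 4 * (1 + y ^ 2)⁻¹) atTop (𝓝 0) := by
  have h : Tendsto (fun y : ℝ => 1 + y ^ 2) atTop atTop :=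
    tendsto_atTop_add_const_left _ _ (tendsto_pow_atTop two_ne_zero)
  simpa using h.inv_tendsto_atTop.const_mul 4

theorem yu_top : Tendsto (fun y : ℝ => y * uu y) atTop (𝓝 0) := by
  refine squeeze_zero_norm (fun y => ?_) lim_top
  rw [Real.norm_eq_abs, abs_mul, abs_of_pos (uu_pos y)]
  exact (mul_le_mul_of_nonneg_right (by linarith) (uu_pos y).le).trans (uu_le y)

theorem yu_bot : Tendsto (fun y : ℝ => y * uu y) atBot (𝓝 0) := by
  have h := (yu_top.comp tendsto_neg_atBot_atTop).neg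
  simp only [Function.comp_def, uu_neg, neg_mul, neg_neg, neg_zero] at h
  exact h

theorem TT_top : Tendsto TT atTop (𝓝 1) := by
  have h : Tendsto (fun y : ℝ => TT y - 1) atTop (𝓝 0) := by
    refine squeeze_zero_norm' ?_ lim_top
    filter_upwards [eventually_ge_atTop (0 : ℝ)] with y hy
    have hc := Real.cosh_pos (Real.pi * y)
    have h1 : 0 ≤ TT y := by
      rw [TT, Real.tanh_eq_sinh_div_cosh]
      exact div_nonneg (Real.sinh_nonneg_iff.2 (mul_nonneg Real.pi_pos.le hy)) hc.le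
    have h2 : TT y ≤ 1 := (le_abs_self _).trans (abs_TT y)
    have h3 : 1 - TT y ^ 2 = 2 / Real.pi * uu y := by
      have h4 := Real.cosh_sq' (Real.pi * y)
      have := Real.pi_pos
      rw [TT, Real.tanh_eq_sinh_div_cosh, uu]
      field_simp
      nlinarith
    have h5 : 2 / Real.pi ≤ 1 := by
      rw [div_le_one Real.pi_pos]
      linarith [Real.pi_gt_three]
    have h6 := uu_le y
    have h7 := uu_pos y
    rw [Real.norm_eq_abs, abs_of_nonpos (by linarith)]
    nlinarith [abs_nonneg y, mul_nonneg h1 (sub_nonneg.2 h2), mul_le_mul_of_nonneg_right h5 h7.le,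
      mul_nonneg (abs_nonneg y) h7.le]
  simpa using h.add_const 1

theorem TT_bot : Tendsto TT atBot (𝓝 (-1)) := by
  have h := (TT_top.comp tendsto_neg_atBot_atTop).neg
  simp only [Function.comp_def, TT_neg, neg_neg] at h
  exact h

theorem odd_zero {g : ℝ → ℝ} (hg : ∀ y, g (-y) = -g y) : ∫ y, g y = 0 := by
  have h := integral_neg_eq_self g volume
  simp only [hg, integral_neg] at h
  linarith

theorem int1 : ∫ y, uu y = 1 := by
  have h := integral_of_hasDerivAt_of_tendsto deriv_TT (integ1.const_mul 2) TT_bot TT_top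
  rw [integral_const_mul] at h
  linarith

theorem int2 : ∫ y, TT y * uu y = 0 := odd_zero fun y => by rw [TT_neg, uu_neg, neg_mul]

theorem int3 : ∫ y, y * uu y = 0 := odd_zero fun y => by rw [uu_neg, neg_mul]

theorem int4 : ∫ y, y * TT y * uu y = 1 / (2 * Real.pi) := by
  have hd : ∀ y : ℝ, HasDerivAt (fun y : ℝ => TT y / 2 - y * uu y)
      (2 * Real.pi * (y * TT y * uu y)) y := fun y => by
    refine (((deriv_TT y).div_const 2).sub ((hasDerivAt_id y).mul (deriv_uu y))).congr_deriv ?_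
    simp only [id]
    ring
  have h := integral_of_hasDerivAt_of_tendsto hd (integ4.const_mul _)
    ((TT_bot.div_const 2).sub yu_bot) ((TT_top.div_const 2).sub yu_top)
  rw [integral_const_mul] at h
  have := Real.pi_pos
  field_simp
  linarith

theorem comb {f g : ℝ → ℝ} (hf : Integrable f) (hg : Integrable g) (c d : ℂ) :
    ∫ y, (c * (f y : ℂ) + d * (g y : ℂ)) = c * ((∫ y, f y : ℝ) : ℂ) + d * ((∫ y, g y : ℝ) : ℂ) := by
  have hf' : Integrable fun y => (f y : ℂ) := hf.ofReal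
  have hg' : Integrable fun y => (g y : ℂ) := hg.ofReal
  rw [integral_add (hf'.const_mul c) (hg'.const_mul d), integral_const_mul,
    integral_const_mul, integral_complex_ofReal, integral_complex_ofReal]

theorem ker_eq (a b : ℤ) (y : ℝ) :
    ker a b y = (uu y : ℂ) * (a + Complex.I * (Real.pi * b * TT y : ℝ)) := rfl

variable {a b : ℤ}

theorem JJ_congr {n : ℕ} {f g : ℂ → ℂ} (h : ∀ y : ℝ, f (ln n y) = g (ln n y)) :
    JJ a b n f = JJ a b n g := by
  simp only [JJ, h]

theorem JJ_succ (n : ℕ) (f : ℂ → ℂ) : JJ a b (n + 1) f = JJ a b n fun s => f (s + 1) := by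
  have h : ∀ y : ℝ, ln (n + 1) y = ln n y + 1 := fun y => by
    simp only [ln]
    push_cast
    ring
  simp only [JJ, h]

theorem JJ_mul (n : ℕ) (c : ℂ) (f : ℂ → ℂ) :
    JJ a b n (fun s => c * f s) = c * JJ a b n f := by
  simp only [JJ, mul_assoc, integral_const_mul]

theorem JJ_add (hi : IntStmt) (n : ℕ) {f g : ℂ → ℂ} (hf : Good f) (hg : Good g) :
    JJ a b n (fun s => f s + g s) = JJ a b n f + JJ a b n g := by
  simp only [JJ, add_mul]
  exact integral_add ((hi a b).1 n f hf) ((hi a b).1 n g hg)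

theorem JJ_sub (hi : IntStmt) (n : ℕ) {f g : ℂ → ℂ} (hf : Good f) (hg : Good g) :
    JJ a b n (fun s => f s - g s) = JJ a b n f - JJ a b n g := by
  simp only [JJ, sub_mul]
  exact integral_sub ((hi a b).1 n f hf) ((hi a b).1 n g hg)

theorem JJ_sum (hi : IntStmt) (n : ℕ) {ι : Type} (t : Finset ι) {f : ι → ℂ → ℂ}
    (hf : ∀ i ∈ t, Good (f i)) :
    JJ a b n (fun s => ∑ i ∈ t, f i s) = ∑ i ∈ t, JJ a b n (f i) := by
  simp only [JJ, sum_mul]
  exact integral_finsetSum t fun i hit => (hi a b).1 n _ (hf i hit)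

/-- The common value of the two recursions. -/
def rhs (a b : ℤ) (k : ℕ) : ℚ := (if k = 1 then a else 0) - if k = 2 then b else 0

theorem bt_rec (k : ℕ) : ∑ i ∈ range k, (k.choose i : ℚ) * bt a b 1 i = rhs a b k := by
  have h1 := sum_bernoulli k
  have h2 : ∑ i ∈ range k, (k.choose i : ℚ) * (i * _root_.bernoulli (i - 1)) =
      if k = 2 then 2 else 0 := by
    rcases k with _ | k
    · simp
    · rw [sum_range_succ']
      have h3 : ∀ i ∈ range k, (((k + 1).choose (i + 1) : ℕ) : ℚ) *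
          (((i + 1 : ℕ) : ℚ) * _root_.bernoulli (i + 1 - 1)) =
          (k + 1) * ((k.choose i : ℚ) * _root_.bernoulli i) := fun i _ => by
        have h4 : (((k + 1) * k.choose i : ℕ) : ℚ) = (((k + 1).choose (i + 1) * (i + 1) : ℕ) : ℚ) := by
          rw [Nat.add_one_mul_choose_eq]
        push_cast at h4 ⊢
        rw [← mul_assoc, ← mul_assoc, h4]
      rw [sum_congr rfl h3, ← mul_sum, sum_bernoulli]
      by_cases hk : k = 1
      · subst hk
        norm_num
      · simp [hk]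
  have h5 : ∀ i ∈ range k, (k.choose i : ℚ) * bt a b 1 i =
      a * ((k.choose i : ℚ) * _root_.bernoulli i) -
        b / 2 * ((k.choose i : ℚ) * (i * _root_.bernoulli (i - 1))) := fun i _ => by
    rw [bt]
    push_cast
    ring
  rw [sum_congr rfl h5, sum_sub_distrib, ← mul_sum, ← mul_sum, h1, h2, rhs]
  split_ifs <;> ring

theorem JJ_rec (hi : IntStmt) (hs : ShiftStmt) (hj : JumpStmt) (k : ℕ) :
    ∑ i ∈ range k, (k.choose i : ℂ) * JJ a b 0 (fun s => s ^ i) = (rhs a b k : ℂ) := by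
  have h1 : ∑ i ∈ range k, (k.choose i : ℂ) * JJ a b 0 (fun s => s ^ i) =
      JJ a b 0 fun s => (s + 1) ^ k - s ^ k := by
    rw [JJ_congr (g := fun s => ∑ i ∈ range k, (k.choose i : ℂ) * s ^ i),
      JJ_sum hi 0 _ fun i _ => (Good.const _).mul (Good.id.pow i)]
    · simp only [JJ_mul]
    · intro y
      rw [add_pow, sum_range_succ]
      simp [mul_comm]
  rw [h1]
  match k with
  | 0 => simp [JJ, rhs]
  | 1 =>
    rw [JJ_congr (g := fun _ => 1) fun y => by ring, (hj a b).1]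
    simp [rhs]
  | 2 =>
    rw [JJ_congr (g := fun s => 2 * s + 1) fun y => by ring, (hj a b).2]
    simp [rhs]
  | k + 3 =>
    have h2 := hs a b 0 (fun s => s ^ k) (Good.id.pow k)
    rw [JJ_succ] at h2
    rw [JJ_sub hi 0 ((Good.id.add (Good.const 1)).pow _) (Good.id.pow _),
      JJ_congr (g := fun s => (s + 1 - (0 : ℕ)) ^ 3 * (s + 1) ^ k) fun y => by push_cast; ring,
      h2, JJ_congr (f := fun s => s ^ (k + 3)) (g := fun s => (s - (0 : ℕ)) ^ 3 * s ^ k)
        fun y => by push_cast; ring]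
    simp [rhs]

theorem val_pow (hi : IntStmt) (hs : ShiftStmt) (hj : JumpStmt) (k : ℕ) :
    JJ a b 0 (fun s => s ^ k) = (bt a b 1 k : ℂ) := by
  induction k using Nat.strong_induction_on with
  | _ k ih =>
    have h1 := JJ_rec (a := a) (b := b) hi hs hj (k + 1)
    have h2 := congrArg (fun q : ℚ => (q : ℂ)) (bt_rec (a := a) (b := b) (k + 1))
    push_cast at h2
    rw [← h2, sum_range_succ, sum_range_succ,
      sum_congr rfl fun i h => by rw [ih i (mem_range.1 h)]] at h1
    have h3 : (((k + 1).choose k : ℕ) : ℂ) ≠ 0 := by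
      rw [Nat.choose_succ_self_right]
      exact Nat.cast_ne_zero.2 (Nat.succ_ne_zero k)
    exact mul_left_cancel₀ h3 (add_left_cancel h1)

theorem pole_step (hi : IntStmt) (hs : ShiftStmt) (hj : JumpStmt) {j : ℕ} (h : 1 ≤ j) :
    JJ a b 0 (fun s => (s + (j + 1 : ℕ))⁻¹) =
      JJ a b 0 (fun s => (s + j)⁻¹) - (a / (j : ℂ) ^ 2 + b / (j : ℂ) ^ 3) := by
  have hj0 : (j : ℂ) ≠ 0 := Nat.cast_ne_zero.2 (by omega)
  have g0 := Good.inv h
  have g1 : Good fun s => (s + (j + 1 : ℕ))⁻¹ := Good.inv (by omega)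
  have h2 := hs a b 0 _ g0
  rw [JJ_succ] at h2
  have gA : Good fun s => (s + 1) ^ 3 * (s + (j + 1 : ℕ))⁻¹ :=
    ((Good.id.add (Good.const 1)).pow 3).mul g1
  have gB : Good fun s => s ^ 3 * (s + j)⁻¹ := (Good.id.pow 3).mul g0
  have h3 : JJ a b 0 (fun s => (s + 1) ^ 3 * (s + (j + 1 : ℕ))⁻¹) =
      JJ a b 0 fun s => s ^ 3 * (s + j)⁻¹ := by
    rw [JJ_congr (g := fun s => (s + 1 - (0 : ℕ)) ^ 3 * (s + 1 + j)⁻¹) fun y => by push_cast; ring,
      h2]
    exact JJ_congr fun y => by simp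
  have gC : Good fun s => 2 * s + 1 := ((Good.const 2).mul Good.id).add (Good.const 1)
  have h4 : JJ a b 0 (fun s => (s + (j + 1 : ℕ))⁻¹ - (s + j)⁻¹) =
      JJ a b 0 fun s => (-((j : ℂ) ^ 2)⁻¹ * 1 + ((j : ℂ) ^ 3)⁻¹ * (2 * s + 1)) -
        ((j : ℂ) ^ 3)⁻¹ * ((s + 1) ^ 3 * (s + (j + 1 : ℕ))⁻¹ - s ^ 3 * (s + j)⁻¹) := by
    refine JJ_congr fun y => ?_
    have hre : -1 < (ln 0 y).re := by
      simp [ln]
      norm_num
    have n0 := Good.ne h hre
    have n1 := Good.ne (j := j + 1) (by omega) hre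
    generalize ln 0 y = s at n0 n1
    field_simp
    push_cast
    ring
  rw [JJ_sub hi 0 g1 g0, JJ_sub hi 0 (((Good.const _).mul (Good.const 1)).add ((Good.const _).mul gC))
    ((Good.const _).mul (gA.sub gB)),
    JJ_add hi 0 ((Good.const _).mul (Good.const 1)) ((Good.const _).mul gC),
    JJ_mul, JJ_mul, JJ_mul, JJ_sub hi 0 gA gB, h3, (hj a b).1, (hj a b).2] at h4
  linear_combination h4

theorem pole_lim (hi : IntStmt) :
    Tendsto (fun j : ℕ => JJ a b 0 fun s => (s + (j + 1 : ℕ))⁻¹) atTop (𝓝 0) := by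
  obtain ⟨C, -, hC⟩ := (hi a b).2
  have h1 : Tendsto (fun j : ℕ => C * ((j : ℝ) + 1 / 2)⁻¹) atTop (𝓝 0) := by
    simpa using (tendsto_atTop_add_const_right _ (1 / 2 : ℝ)
      tendsto_natCast_atTop_atTop).inv_tendsto_atTop.const_mul C
  refine squeeze_zero_norm (fun j => hC 0 _ _ fun y => ?_) h1
  have h0 : (0 : ℝ) < j + 1 / 2 := by positivity
  have h2 : (j : ℝ) + 1 / 2 ≤ ‖ln 0 y + (j + 1 : ℕ)‖ := by
    refine le_trans ?_ (Complex.re_le_norm _)
    simp [ln]
    linarith
  rw [norm_inv]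
  exact (inv_anti₀ h0 h2).trans (le_mul_of_one_le_right (by positivity)
    (Real.one_le_exp (by positivity)))

theorem zr_lim {s : ℕ} (hs : 1 < s) :
    Tendsto (fun j : ℕ => ∑ u ∈ range j, 1 / ((u : ℝ) + 1) ^ s) atTop (𝓝 (zr s)) := by
  have h := (summable_nat_add_iff 1).2 (Real.summable_one_div_nat_pow.2 hs)
  push_cast at h
  exact h.hasSum.tendsto_sum_nat

theorem Hh_lim : Tendsto (fun j : ℕ => ((Hh a b (j + 1) : ℚ) : ℝ)) atTop
    (𝓝 (a * zr 2 + b * zr 3)) := by
  refine (((zr_lim one_lt_two).const_mul (a : ℝ)).add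
    ((zr_lim (s := 3) (by norm_num)).const_mul (b : ℝ))).congr fun j => ?_
  rw [Hh, sum_Ico_eq_sum_range, mul_sum, mul_sum, ← sum_add_distrib]
  push_cast
  exact sum_congr (by simp) fun u _ => by ring

theorem Hh_succ {j : ℕ} (h : 1 ≤ j) :
    Hh a b (j + 1) = Hh a b j + (a / (j : ℚ) ^ 2 + b / (j : ℚ) ^ 3) := sum_Ico_succ_top h _

theorem val_pole (hi : IntStmt) (hs : ShiftStmt) (hj : JumpStmt) {j : ℕ} (h : 1 ≤ j) :
    JJ a b 0 (fun s => (s + j)⁻¹) = ((a * zr 2 + b * zr 3 - Hh a b j : ℝ) : ℂ) := by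
  have h1 : ∀ i : ℕ, JJ a b 0 (fun s => (s + (i + 1 : ℕ))⁻¹) + (((Hh a b (i + 1) : ℚ) : ℝ) : ℂ) =
      JJ a b 0 (fun s => (s + (0 + 1 : ℕ))⁻¹) + (((Hh a b (0 + 1) : ℚ) : ℝ) : ℂ) := fun i => by
    induction i with
    | zero => rfl
    | succ i ih =>
      rw [pole_step hi hs hj (j := i + 1) (by omega), Hh_succ (j := i + 1) (by omega), ← ih]
      push_cast
      ring
  have h2 := (pole_lim (a := a) (b := b) hi).add (Hh_lim (a := a) (b := b)).ofReal
  simp only [h1] at h2
  have h3 := tendsto_nhds_unique h2 tendsto_const_nhds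
  obtain ⟨i, rfl⟩ : ∃ i, j = i + 1 := ⟨j - 1, by omega⟩
  rw [← h1 i] at h3
  push_cast at h3 ⊢
  linear_combination -h3

end

end ValP

open ValP in
theorem jump : JumpStmt := by
  intro a b
  constructor
  · have h : ∀ y : ℝ, (1 : ℂ) * ker a b y =
        a * (uu y : ℂ) + (Complex.I * Real.pi * b) * ((TT y * uu y : ℝ) : ℂ) := fun y => by
      rw [ker_eq]
      push_cast
      ring
    rw [JJ]
    simp only [h]
    rw [comb integ1 integ2, int1, int2]
    simp
  · have h : ∀ y : ℝ, (2 * ln 0 y + 1) * ker a b y =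
        (2 * Complex.I * a) * ((y * uu y : ℝ) : ℂ) +
          (-2 * Real.pi * b) * ((y * TT y * uu y : ℝ) : ℂ) := fun y => by
      rw [ker_eq, ln]
      push_cast
      linear_combination (2 * y * Real.pi * b * TT y * uu y : ℂ) * Complex.I_mul_I
    rw [JJ]
    simp only [h]
    rw [comb integ3 integ4, int3, int4]
    have : (Real.pi : ℂ) ≠ 0 := Complex.ofReal_ne_zero.2 Real.pi_pos.ne'
    push_cast
    field_simp
    ring

theorem val (hi : IntStmt) (hs : ShiftStmt) (hj : JumpStmt) : ValStmt := fun _ _ =>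
  ⟨ValP.val_pow hi hs hj, fun _ h => ValP.val_pole hi hs hj h⟩

end Pool.Agent.MP_807c24_nt.Z23
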