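import Pool.Agent.MP_807c24_nt.Z23.Alg
import Pool.Agent.MP_807c24_nt.Z23.Bern
import Pool.Agent.MP_807c24_nt.Z23.Entry
import Pool.Agent.MP_807c24_nt.Z23.Sq
import Pool.Agent.MP_807c24_nt.Z23.Medium
import Pool.Agent.MP_807c24_nt.Z23.Small
import Pool.Agent.MP_807c24_nt.Z23.Large
import Pool.Agent.MP_807c24_nt.Z23.Nonzero
import Pool.Agent.MP_807c24_nt.Z23.Prime
import Pool.Agent.MP_807c24_nt.Z23.Shift
import Pool.Agent.MP_807c24_nt.Z23.Val
import Pool.Agent.MP_807c24_nt.Z23.Bound
import Pool.Agent.MP_807c24_nt.Z23.Phi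
import Pool.Agent.MP_807c24_nt.Z23.Size
import Pool.Agent.MP_807c24_nt.Z23.Real
import Pool.Agent.MP_807c24_nt.Z23.PiSq
import Pool.Agent.MP_807c24_nt.Z23.Final

/-! Assembly. -/

namespace Pool.Agent.MP_807c24_nt.Z23

theorem coreB : CoreStmt :=
  core (real (bound pf link int shift (val int shift jump)) phi size)
    (small link (entryS pf bern dist)) (medium link (entryM pf bern dist) thresh sq)
    (large link cancel (entryL bern)) nonzero primeSum

end Pool.Agent.MP_807c24_nt.Z23
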