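import Pool.Agent.MP_807c24_nt.Z23.Nonzero

/-! Simple fractions, linearity of the functional, cancellation of poles. -/

namespace Pool.Agent.MP_807c24_nt.Z23

open Finset Polynomial

theorem pf : PfStmt := fun S N => by
  have := H13.pfrac S N
  rwa [mul_comm] at this

theorem link : LinkStmt := fun a b x L P => by
  have e : mom a b x L = fun k => H13.mu x a b (Icc 1 (3 * L)) (Np (Zm L) * X ^ k) :=
    funext fun k => Mu_eq _ _ _ _ _
  rw [e, Mu_eq, H13.lam_mu]

theorem Mu_zero (a b x : ℤ) (S : Finset ℕ) : Mu a b x S 0 = 0 := by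
  simp [Mu, res, D57.Alg.lam_zero]

theorem Mu_add (a b x : ℤ) (S : Finset ℕ) (N N' : ℚ[X]) :
    Mu a b x S (N + N') = Mu a b x S N + Mu a b x S N' := by
  simpa [Mu_eq] using H13.mu_lin x a b S 1 N N'

theorem Mu_C_mul (a b x : ℤ) (S : Finset ℕ) (c : ℚ) (N : ℚ[X]) :
    Mu a b x S (C c * N) = c * Mu a b x S N := by
  have := H13.mu_lin x a b S c N 0
  simp only [← Mu_eq] at this
  rwa [add_zero, Mu_zero, add_zero] at this

theorem Mu_sum {ι : Type*} (a b x : ℤ) (S : Finset ℕ) (s : Finset ι) (N : ι → ℚ[X]) :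
    Mu a b x S (∑ i ∈ s, N i) = ∑ i ∈ s, Mu a b x S (N i) := by
  classical
  induction s using Finset.induction_on with
  | empty => simpa using Mu_zero a b x S
  | insert i s hi ih => rw [sum_insert hi, sum_insert hi, Mu_add, ih]

theorem cancel : CancelStmt := fun a b x S T N h => by
  have e : Dp S = Dp (S \ T) * Dp T := (prod_sdiff h).symm
  have ev : ∀ j : ℕ, (Dp T).eval (-(j : ℚ)) = ∏ i ∈ T, ((i : ℚ) - j) := fun j => by
    rw [Dp, eval_prod]
    exact prod_congr rfl fun i _ => by simp [neg_add_eq_sub]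
  unfold Mu
  congr 1
  · congr 1
    refine (div_modByMonic_unique _ (Dp T * (N %ₘ Dp (S \ T))) (Dp_monic S) ⟨?_, ?_⟩).1
    · rw [e]
      linear_combination Dp T * modByMonic_add_div N (Dp (S \ T))
    · rw [e, degree_mul, degree_mul, add_comm]
      exact WithBot.add_lt_add_right (degree_ne_bot.2 (Dp_monic T).ne_zero)
        (degree_modByMonic_lt N (Dp_monic _))
  · rw [← sum_sdiff h, sum_eq_zero (s := T) fun j hj => ?_, add_zero]
    · refine sum_congr rfl fun j hj => ?_
      obtain ⟨h1, h2⟩ := mem_sdiff.1 hj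
      have h3 : T ⊆ S.erase j := fun i hi => mem_erase.2 ⟨fun g => h2 (g ▸ hi), h hi⟩
      rw [res, res, eval_mul, ev, ← prod_sdiff h3, erase_sdiff_comm, mul_comm (∏ i ∈ T, _),
        mul_div_mul_right]
      exact prod_ne_zero_iff.2 fun i hi => sub_ne_zero.2 fun g => h2 (Nat.cast_inj.1 g ▸ hi)
    · rw [res, eval_mul, ev, prod_eq_zero hj (sub_self _), zero_mul, zero_div, zero_mul]

end Pool.Agent.MP_807c24_nt.Z23
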