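import Pool.Agent.MP_807c24_nt.Z23.Spec
import Pool.Agent.MP_807c24_nt.D57.Alg
import Pool.Agent.MP_807c24_nt.H13.Class

/-! Small facts shared by the other files. -/

namespace Pool.Agent.MP_807c24_nt.Z23

open Finset Polynomial

theorem Np_zero : Np 0 = 1 := by simp [Np]

theorem Np_add (M M' : Multiset ℤ) : Np (M + M') = Np M * Np M' := by simp [Np]

theorem Np_cons (t : ℤ) (M : Multiset ℤ) : Np (t ::ₘ M) = (X - C (t : ℚ)) * Np M := by simp [Np]

theorem Np_singleton (t : ℤ) : Np {t} = X - C (t : ℚ) := by simp [Np]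

theorem Np_nsmul (n : ℕ) (M : Multiset ℤ) : Np (n • M) = Np M ^ n := by
  simp [Np, Multiset.map_nsmul, Multiset.prod_nsmul]

theorem Np_replicate (n : ℕ) (t : ℤ) : Np (Multiset.replicate n t) = (X - C (t : ℚ)) ^ n := by
  simp [Np]

theorem Np_replicate_zero (n : ℕ) : Np (Multiset.replicate n 0) = X ^ n := by simp [Np]

theorem Np_monic (M : Multiset ℤ) : (Np M).Monic :=
  monic_multiset_prod_of_monic _ _ fun _ _ => monic_X_sub_C _

theorem Np_natDegree (M : Multiset ℤ) : (Np M).natDegree = M.card := by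
  have h := natDegree_multiset_prod_X_sub_C_eq_card (M.map fun t : ℤ => (t : ℚ))
  rw [Multiset.map_map, Multiset.card_map] at h
  exact h

theorem Np_eval (M : Multiset ℤ) (z : ℚ) : (Np M).eval z = (M.map fun t : ℤ => z - (t : ℚ)).prod := by
  simp [Np, eval_multiset_prod]

theorem Dp_eq (S : Finset ℕ) : Dp S = Np (S.val.map fun j : ℕ => -(j : ℤ)) := by
  rw [Np, Multiset.map_map, Dp, Finset.prod_eq_multiset_prod]
  congr 1
  refine Multiset.map_congr rfl fun j _ => ?_
  simp [sub_eq_add_neg]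

theorem Dp_monic (S : Finset ℕ) : (Dp S).Monic := by
  rw [Dp_eq]
  exact Np_monic _

theorem Dp_natDegree (S : Finset ℕ) : (Dp S).natDegree = S.card := by
  rw [Dp_eq, Np_natDegree, Multiset.card_map, Finset.card_val]

theorem Np_rg (l : ℕ) : Np (rg l) = ∏ t ∈ range l, (X - C (t : ℚ)) := by
  rw [Np, rg, Multiset.map_map, Finset.prod_eq_multiset_prod, Finset.range_val]
  simp

theorem card_rg (l : ℕ) : (rg l).card = l := by simp [rg]

theorem countP_rg (l : ℕ) (P : ℤ → Prop) [DecidablePred P] :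
    (rg l).countP P = ((range l).filter fun t : ℕ => P t).card := by
  rw [rg, Multiset.countP_map, Finset.card_def, Finset.filter_val, Finset.range_val]

theorem od_add (M M' : Multiset ℤ) (S : Finset ℕ) (q : ℕ) (c : ℤ) :
    od (M + M') S q c = od M S q c + (M'.countP (fun t => (q : ℤ) ∣ t - c) : ℤ) := by
  rw [od, od, Multiset.countP_add]
  push_cast
  ring

theorem od_congr (M : Multiset ℤ) (S : Finset ℕ) (q : ℕ) {c c' : ℤ} (h : (q : ℤ) ∣ c - c') :
    od M S q c = od M S q c' := by
  have h1 : ∀ t : ℤ, (q : ℤ) ∣ t - c ↔ (q : ℤ) ∣ t - c' := fun t => by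
    rw [show t - c' = t - c + (c - c') by ring]
    exact (dvd_add_left h).symm
  have h2 : ∀ j : ℕ, (q : ℤ) ∣ (j : ℤ) + c ↔ (q : ℤ) ∣ (j : ℤ) + c' := fun j => by
    rw [show (j : ℤ) + c = j + c' + (c - c') by ring]
    exact dvd_add_left h
  simp only [od, h1, h2]

namespace Good

theorem const (c : ℂ) : Good fun _ => c :=
  ⟨differentiableOn_const c, ‖c‖, 0, fun _ _ => by simp⟩

theorem id : Good fun s => s :=
  ⟨differentiableOn_id, 1, 1, fun _ _ => by simp⟩

theorem mul {f g : ℂ → ℂ} (hf : Good f) (hg : Good g) : Good fun s => f s * g s := by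
  obtain ⟨f1, C, m, f2⟩ := hf
  obtain ⟨g1, C', m', g2⟩ := hg
  refine ⟨f1.mul g1, C * C', m + m', fun s hs => ?_⟩
  rw [norm_mul, pow_add, mul_mul_mul_comm]
  exact mul_le_mul (f2 s hs) (g2 s hs) (norm_nonneg _) ((norm_nonneg _).trans (f2 s hs))

theorem add {f g : ℂ → ℂ} (hf : Good f) (hg : Good g) : Good fun s => f s + g s := by
  obtain ⟨f1, C, m, f2⟩ := hf
  obtain ⟨g1, C', m', g2⟩ := hg
  refine ⟨f1.add g1, |C| + |C'|, m + m', fun s hs => (norm_add_le _ _).trans ?_⟩
  have h1 : 1 ≤ 1 + ‖s‖ := le_add_of_nonneg_right (norm_nonneg _)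
  rw [add_mul]
  exact add_le_add
    ((f2 s hs).trans (mul_le_mul (le_abs_self _) (pow_le_pow_right₀ h1 (by omega))
      (by positivity) (abs_nonneg _)))
    ((g2 s hs).trans (mul_le_mul (le_abs_self _) (pow_le_pow_right₀ h1 (by omega))
      (by positivity) (abs_nonneg _)))

theorem sub {f g : ℂ → ℂ} (hf : Good f) (hg : Good g) : Good fun s => f s - g s := by
  simpa [sub_eq_add_neg] using hf.add ((const (-1)).mul hg)

theorem pow {f : ℂ → ℂ} (hf : Good f) (n : ℕ) : Good fun s => f s ^ n := by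
  induction n with
  | zero => simpa using const 1
  | succ n ih => simpa [pow_succ] using ih.mul hf

theorem sum {ι : Type} {t : Finset ι} {f : ι → ℂ → ℂ} (hf : ∀ i ∈ t, Good (f i)) :
    Good fun s => ∑ i ∈ t, f i s := by
  classical
  induction t using Finset.induction_on with
  | empty => simpa using const 0
  | insert i t hi ih =>
    simp only [sum_insert hi]
    exact (hf i (mem_insert_self _ _)).add (ih fun j hj => hf j (mem_insert_of_mem hj))

theorem prod {ι : Type} {t : Finset ι} {f : ι → ℂ → ℂ} (hf : ∀ i ∈ t, Good (f i)) :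
    Good fun s => ∏ i ∈ t, f i s := by
  classical
  induction t using Finset.induction_on with
  | empty => simpa using const 1
  | insert i t hi ih =>
    simp only [prod_insert hi]
    exact (hf i (mem_insert_self _ _)).mul (ih fun j hj => hf j (mem_insert_of_mem hj))

theorem ne {j : ℕ} (hj : 1 ≤ j) {s : ℂ} (hs : -1 < s.re) : s + j ≠ 0 := fun h => by
  have h1 : (1 : ℝ) ≤ j := by exact_mod_cast hj
  have h2 := congrArg Complex.re h
  simp at h2
  linarith

theorem inv {j : ℕ} (hj : 1 ≤ j) : Good fun s => (s + j)⁻¹ := by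
  refine ⟨(differentiableOn_id.add_const _).inv fun s hs => ne hj hs, 2, 0, fun s hs => ?_⟩
  have h1 : (1 : ℝ) ≤ j := by exact_mod_cast hj
  have h2 : (1 / 2 : ℝ) ≤ ‖s + j‖ := by
    refine le_trans ?_ (Complex.re_le_norm _)
    simp
    linarith
  rw [norm_inv, pow_zero, mul_one]
  exact (inv_anti₀ (by norm_num) h2).trans (by norm_num)

theorem aeval (P : ℚ[X]) : Good fun s => Polynomial.aeval s P := by
  simp only [aeval_eq_sum_range]
  refine sum fun i _ => ?_
  simpa [Algebra.smul_def] using (const (algebraMap ℚ ℂ (P.coeff i))).mul (id.pow i)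

end Good

end Pool.Agent.MP_807c24_nt.Z23
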