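import Pool.Agent.MP_807c24_nt.Z23.Basic

/-! Bounds for the coefficients of a polynomial along an arithmetic progression. -/

namespace Pool.Agent.MP_807c24_nt.Z23

open Finset Polynomial
open Pool.Agent.MP_807c24_nt.H13 (pn)
open Pool.Agent.MP_807c24_nt.H13.Class
open Pool.Agent.MP_807c24_nt.D57 (lam)

variable {p : ℕ} [hp : Fact p.Prime]

variable (p) in
/-- All coefficients are bounded by `B`. -/
def Cb (P : ℚ[X]) (B : ℝ) : Prop := ∀ k, pn p (P.coeff k) ≤ B

namespace Cb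

variable {P P' : ℚ[X]} {A B : ℝ}

theorem nonneg (h : Cb p P B) : 0 ≤ B := (pn_nonneg _).trans (h 0)

theorem mono (h : Cb p P A) (hAB : A ≤ B) : Cb p P B := fun k => (h k).trans hAB

theorem zero (hB : 0 ≤ B) : Cb p 0 B := fun k => by rwa [coeff_zero, pn_zero]

theorem add (h : Cb p P B) (h' : Cb p P' B) : Cb p (P + P') B := fun k => by
  rw [coeff_add]
  exact pn_add (h k) (h' k)

theorem sub (h : Cb p P B) (h' : Cb p P' B) : Cb p (P - P') B := fun k => by
  rw [coeff_sub]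
  exact pn_sub (h k) (h' k)

theorem mul (h : Cb p P A) (h' : Cb p P' B) : Cb p (P * P') (A * B) := fun k => by
  rw [coeff_mul]
  exact pn_sum (mul_nonneg h.nonneg h'.nonneg) fun _ _ => pn_mul_le (h _) (h' _)

theorem const {u : ℚ} (h : pn p u ≤ B) : Cb p (C u) B := fun k => by
  rw [coeff_C]
  split_ifs
  · exact h
  · rw [pn_zero]
    exact (pn_nonneg _).trans h

theorem one : Cb p 1 1 := const (u := 1) pn_one.le

theorem X_le : Cb p X 1 := fun k => by
  rw [coeff_X]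
  split_ifs
  · exact pn_one.le
  · rw [pn_zero]
    exact zero_le_one

theorem pow (h : Cb p P A) (n : ℕ) : Cb p (P ^ n) (A ^ n) := by
  induction n with
  | zero => simpa using one
  | succ n ih => simpa only [pow_succ] using ih.mul h

theorem sum {ι : Type} {s : Finset ι} {f : ι → ℚ[X]} (hB : 0 ≤ B) (h : ∀ i ∈ s, Cb p (f i) B) :
    Cb p (∑ i ∈ s, f i) B :=
  Finset.sum_induction f (fun x => Cb p x B) (fun _ _ => add) (zero hB) h

theorem prod {ι : Type} {s : Finset ι} {f : ι → ℚ[X]} {A : ι → ℝ} (h : ∀ i ∈ s, Cb p (f i) (A i)) :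
    Cb p (∏ i ∈ s, f i) (∏ i ∈ s, A i) := by
  classical
  induction s using Finset.induction_on with
  | empty => simpa using one
  | insert i t hi ih =>
    rw [prod_insert hi, prod_insert hi]
    exact (h i (mem_insert_self _ _)).mul (ih fun j hj => h j (mem_insert_of_mem hj))

theorem lin {u v : ℚ} (hu : pn p u ≤ B) (hv : pn p v ≤ B) : Cb p (C u + C v * X) B :=
  (const hu).add (by simpa using (const hv).mul X_le)

/-- Division by a linear factor whose constant term dominates. -/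
theorem div_lin {u v : ℚ} (hu : u ≠ 0) (hv : pn p v ≤ pn p u)
    (h : Cb p (P * (C u + C v * X)) (B * pn p u)) : Cb p P B := by
  have u0 : 0 < pn p u := pn_pos hu
  have key : ∀ k, pn p (P.coeff k * u) ≤ B * pn p u → pn p (P.coeff k) ≤ B := fun k hk => by
    rw [pn_mul] at hk
    exact le_of_mul_le_mul_right hk u0
  intro k
  induction k with
  | zero => exact key 0 (by simpa [mul_add, coeff_mul_C, ← mul_assoc] using h 0)
  | succ k ih =>
    refine key _ ?_
    have e : P.coeff (k + 1) * u = (P * (C u + C v * X)).coeff (k + 1) - P.coeff k * v := by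
      rw [mul_add, ← mul_assoc, coeff_add, coeff_mul_X, coeff_mul_C, coeff_mul_C]
      ring
    rw [e]
    exact pn_sub (h _) (pn_mul_le ih hv)

theorem comp {R : ℚ[X]} (h : Cb p P B) (hR : Cb p R 1) : Cb p (P.comp R) B := by
  rw [comp_eq_sum_left, Polynomial.sum]
  exact sum h.nonneg fun i _ => by simpa using (const (h i)).mul (hR.pow i)

theorem eval (h : Cb p P B) {z : ℚ} (hz : pn p z ≤ 1) : pn p (P.eval z) ≤ B := by
  have := (h.comp (const hz)) 0
  rwa [comp_C, coeff_C_zero] at this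

theorem map (R : ℤ[X]) : Cb p (R.map (Int.castRingHom ℚ)) 1 := fun k => by
  rw [coeff_map]
  exact pn_int _

/-- Division by a monic integral polynomial. -/
theorem of_mul_monic {D : ℚ[X]} (hD : D.Monic) (hD1 : Cb p D 1) (hB : 0 ≤ B)
    (h : ∀ k, D.natDegree ≤ k → pn p ((P * D).coeff k) ≤ B) : Cb p P B := by
  intro k
  obtain ⟨n, hn⟩ : ∃ n, P.natDegree < k + n := ⟨P.natDegree + 1, by omega⟩
  induction n using Nat.strong_induction_on generalizing k with
  | _ n ih =>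
    rcases Nat.lt_or_ge P.natDegree k with hk | hk
    · rwa [coeff_eq_zero_of_natDegree_lt hk, pn_zero]
    · have h1 := h (k + D.natDegree) (by omega)
      rw [coeff_mul, ← Finset.add_sum_erase _ _
        (show (k, D.natDegree) ∈ antidiagonal (k + D.natDegree) by simp), hD.coeff_natDegree,
        mul_one] at h1
      have h2 : pn p (∑ x ∈ (antidiagonal (k + D.natDegree)).erase (k, D.natDegree),
          P.coeff x.1 * D.coeff x.2) ≤ B := by
        refine pn_sum hB fun x hx => ?_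
        obtain ⟨x1, x2⟩ := mem_erase.1 hx
        rw [HasAntidiagonal.mem_antidiagonal] at x2
        rcases Nat.lt_or_ge D.natDegree x.2 with h3 | h3
        · rwa [coeff_eq_zero_of_natDegree_lt h3, mul_zero, pn_zero]
        · have h4 : k < x.1 := by
            rcases Nat.lt_or_ge k x.1 with h4 | h4
            · exact h4
            · exact absurd (Prod.ext (show x.1 = k by omega) (show x.2 = D.natDegree by omega)) x1
          simpa using pn_mul_le (ih (n - 1) (by omega) x.1 (by omega)) (hD1 x.2)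
      simpa using pn_sub h1 h2

theorem divByMonic {D : ℚ[X]} (h : Cb p P B) (hD : D.Monic) (hD1 : Cb p D 1) :
    Cb p (P /ₘ D) B := by
  refine of_mul_monic hD hD1 h.nonneg fun k hk => ?_
  have e : P /ₘ D * D = P - P %ₘ D := by
    rw [eq_sub_iff_add_eq, add_comm, mul_comm]
    exact modByMonic_add_div P D
  have h0 : (P %ₘ D).coeff k = 0 := coeff_eq_zero_of_degree_lt
    ((degree_modByMonic_lt P hD).trans_le (degree_le_of_natDegree_le hk))
  rw [e, coeff_sub, h0, sub_zero]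
  exact h k

end Cb

theorem Cb_Np (M : Multiset ℤ) : Cb p (Np M) 1 := by
  induction M using Multiset.induction_on with
  | empty => simpa [Np_zero] using Cb.one
  | cons t M ih => simpa [Np_cons] using (Cb.X_le.sub (Cb.const (pn_int t))).mul ih

theorem Cb_Dp (S : Finset ℕ) : Cb p (Dp S) 1 := by
  rw [Dp_eq]
  exact Cb_Np _

variable (p) in
/-- All coefficients of `P (c + Q X)` are bounded by `B`. -/
def Gb (Q c : ℕ) (P : ℚ[X]) (B : ℝ) : Prop := Cb p (P.comp (C (c : ℚ) + C (Q : ℚ) * X)) B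

namespace Gb

variable {Q c : ℕ} {P P' : ℚ[X]} {A B : ℝ}

theorem nonneg (h : Gb p Q c P B) : 0 ≤ B := Cb.nonneg h

theorem mono (h : Gb p Q c P A) (hAB : A ≤ B) : Gb p Q c P B := Cb.mono h hAB

theorem of_cb (h : Cb p P B) : Gb p Q c P B := h.comp (Cb.lin (pn_nat c) (pn_nat Q))

theorem add (h : Gb p Q c P B) (h' : Gb p Q c P' B) : Gb p Q c (P + P') B := by
  unfold Gb
  rw [add_comp]
  exact Cb.add h h'

theorem sub (h : Gb p Q c P B) (h' : Gb p Q c P' B) : Gb p Q c (P - P') B := by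
  unfold Gb
  rw [sub_comp]
  exact Cb.sub h h'

theorem mul (h : Gb p Q c P A) (h' : Gb p Q c P' B) : Gb p Q c (P * P') (A * B) := by
  unfold Gb
  rw [mul_comp]
  exact Cb.mul h h'

theorem const {u : ℚ} (h : pn p u ≤ B) : Gb p Q c (C u) B := of_cb (Cb.const h)

theorem pow (h : Gb p Q c P A) (n : ℕ) : Gb p Q c (P ^ n) (A ^ n) := by
  unfold Gb
  rw [pow_comp]
  exact Cb.pow h n

theorem sum {ι : Type} {s : Finset ι} {f : ι → ℚ[X]} (hB : 0 ≤ B)
    (h : ∀ i ∈ s, Gb p Q c (f i) B) : Gb p Q c (∑ i ∈ s, f i) B :=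
  Finset.sum_induction f (fun x => Gb p Q c x B) (fun _ _ => add) (of_cb (Cb.zero hB)) h

theorem prod {ι : Type} {s : Finset ι} {f : ι → ℚ[X]} {A : ι → ℝ}
    (h : ∀ i ∈ s, Gb p Q c (f i) (A i)) : Gb p Q c (∏ i ∈ s, f i) (∏ i ∈ s, A i) := by
  unfold Gb
  rw [Polynomial.prod_comp]
  exact Cb.prod h

theorem sub_comp' (Q c : ℕ) (t : ℚ) :
    (X - C t).comp (C (c : ℚ) + C (Q : ℚ) * X) = C (c - t) + C (Q : ℚ) * X := by
  rw [sub_comp, X_comp, C_comp, C_sub]
  ring

theorem add_comp' (Q c : ℕ) (t : ℚ) :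
    (X + C t).comp (C (c : ℚ) + C (Q : ℚ) * X) = C (c + t) + C (Q : ℚ) * X := by
  rw [add_comp, X_comp, C_comp, C_add]
  ring

theorem X_sub {t : ℚ} (h : pn p (c - t) ≤ B) (hQ : pn p Q ≤ B) : Gb p Q c (X - C t) B := by
  unfold Gb
  rw [sub_comp']
  exact Cb.lin h hQ

theorem X_add {t : ℚ} (h : pn p (c + t) ≤ B) (hQ : pn p Q ≤ B) : Gb p Q c (X + C t) B := by
  unfold Gb
  rw [add_comp']
  exact Cb.lin h hQ

theorem dp {S : Finset ℕ} (hS : ∀ j ∈ S, pn p Q ≤ pn p (c + j)) :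
    Gb p Q c (Dp S) (∏ j ∈ S, pn p (c + j)) :=
  prod fun j hj => X_add le_rfl (hS j hj)

/-- Division by the denominator. -/
theorem div {S : Finset ℕ} (h1 : ∀ j ∈ S, 1 ≤ j) (hS : ∀ j ∈ S, pn p Q ≤ pn p (c + j))
    (h : Gb p Q c (P * Dp S) (B * ∏ j ∈ S, pn p (c + j))) : Gb p Q c P B := by
  induction S using Finset.induction_on with
  | empty => simpa [Dp] using h
  | insert j S hj ih =>
    refine ih (fun i hi => h1 i (mem_insert_of_mem hi)) (fun i hi => hS i (mem_insert_of_mem hi)) ?_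
    have j0 : (c : ℚ) + j ≠ 0 := by
      have : (1 : ℚ) ≤ j := by exact_mod_cast h1 j (mem_insert_self _ _)
      positivity
    refine Cb.div_lin j0 (hS j (mem_insert_self _ _)) ?_
    rw [← add_comp', ← mul_comp]
    rw [Dp, prod_insert hj, prod_insert hj, mul_comm (X + _), mul_comm (pn p _), ← mul_assoc,
      ← mul_assoc] at h
    exact h

/-- The polynomial part is bounded by the function and the residues. -/
theorem quot (hpf : PfStmt) {S : Finset ℕ} {N : ℚ[X]} (h1 : ∀ j ∈ S, 1 ≤ j)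
    (hS : ∀ j ∈ S, pn p Q ≤ pn p (c + j))
    (hN : Gb p Q c N (B * ∏ j ∈ S, pn p (c + j)))
    (hr : ∀ j ∈ S, pn p (res S N j) ≤ B * pn p (c + j)) : Gb p Q c (N /ₘ Dp S) B := by
  refine div h1 hS ?_
  rw [eq_sub_of_add_eq (hpf S N).symm]
  refine hN.sub (sum hN.nonneg fun j hj => ?_)
  rw [← Finset.mul_prod_erase S _ hj, ← mul_assoc]
  exact (const (hr j hj)).mul (dp fun i hi => hS i (mem_of_mem_erase hi))

/-- The coefficients of an integral polynomial along a progression decrease. -/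
theorem coeff_le (h : Cb p P B) (Q c k : ℕ) :
    pn p ((P.comp (C (c : ℚ) + C (Q : ℚ) * X)).coeff k) ≤ B * pn p Q ^ k := by
  have e : P.comp (C (c : ℚ) + C (Q : ℚ) * X) = (P.comp (C (c : ℚ) + X)).comp (C (Q : ℚ) * X) := by
    rw [comp_assoc, add_comp, C_comp, X_comp]
  rw [e, comp_C_mul_X_coeff]
  exact pn_mul_le (h.comp ((Cb.const (pn_nat c)).add Cb.X_le) k) (pn_pow _ _).le

end Gb

/-! ### The moments -/

theorem pn_lam {μ : ℕ → ℚ} {P : ℚ[X]} {B : ℝ} (hB : 0 ≤ B)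
    (h : ∀ k, k ≤ P.natDegree → pn p (P.coeff k * μ k) ≤ B) : pn p (lam μ P) ≤ B :=
  pn_sum hB fun k hk => h k (le_natDegree_of_mem_supp k hk)

theorem pn_two_inv : pn p (2 : ℚ)⁻¹ ≤ p := by
  rw [pn_inv]
  exact (pn_inv_le_abs (p := p) (c := 2) (by norm_num)).trans (by exact_mod_cast hp.out.two_le)

theorem pn_two_odd (h : p ≠ 2) : pn p (2 : ℚ)⁻¹ = 1 := by
  have : ¬(p : ℤ) ∣ 2 := fun h2 =>
    h ((Nat.prime_dvd_prime_iff_eq hp.out Nat.prime_two).1 (by exact_mod_cast h2))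
  rw [pn_inv, show (2 : ℚ) = ((2 : ℤ) : ℚ) by norm_num, pn_unit this, inv_one]

theorem pn_bt (a b : ℤ) (A k : ℕ) {U V T : ℝ} (hU : pn p (_root_.bernoulli k) ≤ U)
    (hV : pn p (_root_.bernoulli (k - 1)) ≤ V) (hT : pn p (2 : ℚ)⁻¹ ≤ T) {B : ℝ}
    (h1 : U * (p : ℝ) ^ A ≤ B) (h2 : V * (T * ((p : ℝ) ^ A) ^ 2) ≤ B) :
    pn p (bt a b (p ^ A) k) ≤ B := by
  have e : pn p (((p ^ A : ℕ) : ℚ))⁻¹ = (p : ℝ) ^ A := by
    rw [pn_inv, Nat.cast_pow, pn_pow, pn_p, inv_pow, inv_inv]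
  rw [bt, div_eq_mul_inv, div_eq_mul_inv, mul_inv, ← inv_pow]
  refine pn_sub (le_trans ?_ h1) (le_trans ?_ h2)
  · simpa using pn_mul_le (pn_mul_le (pn_int a) hU) e.le
  · have := pn_mul_le (pn_mul_le (pn_mul_le (pn_int (p := p) b) (pn_nat k)) hV)
      (pn_mul_le hT ((pn_pow _ 2).trans (congrArg (· ^ 2) e)).le)
    rwa [one_mul, one_mul] at this

theorem bt_any (hb : BernStmt) (a b : ℤ) (A k : ℕ) :
    pn p (bt a b (p ^ A) k) ≤ (p : ℝ) ^ (2 * A + 2) :=
  pn_bt a b A k (hb p k).1 (hb p _).1 pn_two_inv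
    (by rw [← pow_succ']; exact pow_le_pow_right₀ one_le_p (by omega)) (le_of_eq (by ring))

theorem bt_three (hb : BernStmt) (h : p ≠ 2) (a b : ℤ) (k : ℕ) :
    pn p (bt a b p k) ≤ (p : ℝ) ^ 3 := by
  have := pn_bt (p := p) a b 1 k (hb p k).1 (hb p _).1 (pn_two_odd h).le (B := (p : ℝ) ^ 3)
    (by rw [← pow_succ']; exact pow_le_pow_right₀ one_le_p (by omega)) (le_of_eq (by ring))
  rwa [pow_one] at this

theorem bt_two (hb : BernStmt) (h : p ≠ 2) (a b : ℤ) {k : ℕ} (hk : k + 1 ≤ p) :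
    pn p (bt a b p k) ≤ (p : ℝ) ^ 2 := by
  have h2 := hp.out.two_le
  have := pn_bt (p := p) a b 1 k (hb p k).1 ((hb p _).2 (by omega)) (pn_two_odd h).le
    (B := (p : ℝ) ^ 2) (le_of_eq (by ring)) (le_of_eq (by ring))
  rwa [pow_one] at this

theorem bt_one (hb : BernStmt) (h : p ≠ 2) (a b : ℤ) (k : ℕ) : pn p (bt a b 1 k) ≤ p := by
  have := pn_bt (p := p) a b 0 k (hb p k).1 (hb p _).1 (pn_two_odd h).le
    (B := (p : ℝ)) (le_of_eq (by ring)) (le_of_eq (by ring))
  rwa [pow_zero] at this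

theorem bt_zero (hb : BernStmt) (h : p ≠ 2) (a b : ℤ) {k : ℕ} (hk : k + 2 ≤ p) :
    pn p (bt a b 1 k) ≤ 1 := by
  have := pn_bt (p := p) a b 0 k ((hb p k).2 hk) ((hb p _).2 (by omega)) (pn_two_odd h).le
    (B := 1) (le_of_eq (by ring)) (le_of_eq (by ring))
  rwa [pow_zero] at this

/-- Contribution of one class, any prime. -/
theorem nu_any (hb : BernStmt) (a b : ℤ) {A c : ℕ} {P : ℚ[X]} {B : ℝ} (h : Gb p (p ^ A) c P B) :
    pn p (lam (bt a b (p ^ A)) (P.comp (C (c : ℚ) + C ((p ^ A : ℕ) : ℚ) * X))) ≤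
      B * (p : ℝ) ^ (2 * A + 2) :=
  pn_lam (mul_nonneg h.nonneg (pow_nonneg p_pos.le _)) fun k _ => pn_mul_le (h k) (bt_any hb a b A k)

/-- Contribution of one class modulo an odd prime, for an integral polynomial. -/
theorem nu_odd (hb : BernStmt) (h2 : p ≠ 2) (a b : ℤ) {c : ℕ} {P : ℚ[X]} {y : ℤ} (hy : y + 1 ≤ p)
    (h1 : Cb p P 1) (h : Gb p p c P ((p : ℝ) ^ (-y))) :
    pn p (lam (bt a b p) (P.comp (C (c : ℚ) + C (p : ℚ) * X))) ≤ (p : ℝ) ^ (2 - y) := by
  have p0 : (0 : ℝ) < p := p_pos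
  refine pn_lam (zpow_nonneg p0.le _) fun k _ => ?_
  rcases Nat.lt_or_ge k p with hk | hk
  · refine (pn_mul_le (h k) (bt_two hb h2 a b hk)).trans_eq ?_
    rw [← zpow_natCast, ← zpow_add₀ p0.ne']
    congr 1
    push_cast
    ring
  · refine (pn_mul_le (Gb.coeff_le h1 p c k) (bt_three hb h2 a b k)).trans ?_
    rw [one_mul, pn_p, inv_pow, ← zpow_natCast, ← zpow_natCast, ← zpow_neg, ← zpow_add₀ p0.ne']
    exact zpow_le_zpow_right₀ one_le_p (by omega)

end Pool.Agent.MP_807c24_nt.Z23
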