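import Pool.Agent.MP_807c24_nt.D57.Alg
import Pool.Agent.MP_807c24_nt.D57.Two

/-! The Bernoulli functional: distribution relation, simple fractions, Taylor coefficients. -/

namespace Pool.Agent.MP_807c24_nt.Z23.H13

open Finset Polynomial
open Pool.Agent.MP_807c24_nt.D57 (lam hank)
open Pool.Agent.MP_807c24_nt.D57.Alg

noncomputable section

/-- The functional `X^k ↦ B_k`. -/
def vol (f : ℚ[X]) : ℚ := lam _root_.bernoulli f

theorem vol_diff (g : ℚ[X]) : vol (taylor 1 g - g) = g.coeff 1 := by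
  induction g using Polynomial.induction_on' with
  | add f g hf hg =>
    rw [map_add, add_sub_add_comm, coeff_add, ← hf, ← hg]
    exact lam_add _ _ _
  | monomial k a =>
    have e : taylor 1 (monomial k a) - monomial k a =
        ∑ i ∈ range k, monomial i (a * (k.choose i : ℚ)) := by
      rw [taylor_monomial, add_pow, sum_range_succ, mul_add, mul_sum, ← C_mul_X_pow_eq_monomial]
      simp only [map_one, one_pow, mul_one, Nat.choose_self, Nat.cast_one, add_sub_cancel_right]
      refine sum_congr rfl fun i _ => ?_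
      rw [← C_mul_X_pow_eq_monomial, C_mul, C_eq_natCast]
      ring
    rw [e, vol, lam_sum, coeff_monomial]
    simp only [lam_monomial, mul_assoc]
    rw [← mul_sum, _root_.sum_bernoulli]
    split_ifs <;> simp

theorem exists_diff (f : ℚ[X]) : ∃ g : ℚ[X], taylor 1 g - g = f := by
  induction f using Polynomial.induction_on' with
  | add f g hf hg =>
    obtain ⟨a, ha⟩ := hf
    obtain ⟨b, hb⟩ := hg
    exact ⟨a + b, by rw [map_add, add_sub_add_comm, ha, hb]⟩
  | monomial k a =>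
    refine ⟨C (a / (k + 1)) * Polynomial.bernoulli (k + 1), ?_⟩
    have h := bernoulli_comp_one_add_X (k + 1)
    rw [taylor_mul, taylor_C, taylor_apply, map_one, add_comm X, h, mul_add, add_sub_cancel_left,
      Nat.add_sub_cancel, nsmul_eq_mul, ← C_eq_natCast, ← mul_assoc, ← C_mul,
      C_mul_X_pow_eq_monomial]
    congr 1
    push_cast
    field_simp

theorem lam_scale (ν : ℕ → ℚ) (q : ℚ) (f : ℚ[X]) :
    lam ν (f.comp (C q * X)) = lam (fun l => q ^ l * ν l) f := by
  induction f using Polynomial.induction_on' with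
  | add f g hf hg => rw [add_comp, lam_add, lam_add, hf, hg]
  | monomial k a =>
    rw [monomial_comp, mul_pow, ← C_pow, ← mul_assoc, ← C_mul, lam_C_mul, lam_X_pow, lam_monomial,
      mul_assoc]

theorem lam_deriv (ν : ℕ → ℚ) (f : ℚ[X]) :
    lam ν (derivative f) = lam (fun l => l * ν (l - 1)) f := by
  induction f using Polynomial.induction_on' with
  | add f g hf hg => rw [map_add, lam_add, lam_add, hf, hg]
  | monomial k a => rw [derivative_monomial, lam_monomial, lam_monomial, mul_assoc]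

theorem lam_lin (ν ν' : ℕ → ℚ) (a b : ℚ) (f : ℚ[X]) :
    lam (fun l => a * ν l - b * ν' l) f = a * lam ν f - b * lam ν' f := by
  induction f using Polynomial.induction_on' with
  | add f g hf hg => rw [lam_add, lam_add, lam_add, hf, hg]; ring
  | monomial k c => simp only [lam_monomial]; ring

/-- The distribution relation. -/
theorem vol_dist (q : ℕ) (f : ℚ[X]) :
    q * vol f = ∑ c ∈ range q, lam (fun l => (q : ℚ) ^ l * _root_.bernoulli l) (taylor (c : ℚ) f) := by
  obtain ⟨g, rfl⟩ := exists_diff f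
  have e : ∀ c : ℕ, taylor (c : ℚ) (taylor 1 g - g) = taylor ((c + 1 : ℕ) : ℚ) g - taylor (c : ℚ) g := by
    intro c
    rw [map_sub, taylor_taylor, Nat.cast_succ]
  simp only [e]
  rw [← lam_sum, sum_range_sub (fun c : ℕ => taylor (c : ℚ) g), Nat.cast_zero, taylor_zero,
    ← lam_scale, sub_comp]
  have e2 : (taylor (q : ℚ) g).comp (C (q : ℚ) * X) = taylor 1 (g.comp (C (q : ℚ) * X)) := by
    simp only [taylor_apply, comp_assoc, add_comp, mul_comp, X_comp, C_comp, map_one]
    congr 1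
    ring
  rw [e2, vol_diff]
  have := vol_diff (g.comp (C (q : ℚ) * X))
  rw [comp_C_mul_X_coeff, pow_one] at this
  rw [mul_comm]
  exact this.symm

/-- The functional on polynomials. -/
def Lam (a2 a3 : ℚ) (f : ℚ[X]) : ℚ :=
  lam (fun k => a2 * _root_.bernoulli k - a3 * k * _root_.bernoulli (k - 1) / 2) f

/-- Local weights. -/
def ww (a2 a3 : ℚ) (q l : ℕ) : ℚ :=
  a2 / q * ((q : ℚ) ^ l * _root_.bernoulli l) -
    a3 / (2 * q) * (l * ((q : ℚ) ^ (l - 1) * _root_.bernoulli (l - 1)))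

theorem Lam_eq (a2 a3 : ℚ) (f : ℚ[X]) : Lam a2 a3 f = a2 * vol f - a3 / 2 * vol (derivative f) := by
  rw [vol, vol, lam_deriv, ← lam_lin, Lam]
  congr 1
  funext k
  ring

theorem Lam_dist (a2 a3 : ℚ) {q : ℕ} (hq : 0 < q) (f : ℚ[X]) :
    Lam a2 a3 f = ∑ c ∈ range q, lam (ww a2 a3 q) (taylor (c : ℚ) f) := by
  have h0 : (q : ℚ) ≠ 0 := by exact_mod_cast hq.ne'
  have e : ∀ c : ℚ, taylor c (derivative f) = derivative (taylor c f) := by
    intro c
    simp [taylor_apply, derivative_comp]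
  have h1 := vol_dist q f
  have h2 := vol_dist q (derivative f)
  simp only [e, lam_deriv] at h2
  unfold ww
  simp only [lam_lin]
  rw [sum_sub_distrib, ← mul_sum, ← mul_sum, ← h1, ← h2, Lam_eq]
  field_simp

/-- The denominator. -/
def Dn (J : Finset ℕ) : ℚ[X] := ∏ j ∈ J, (X + C (j : ℚ))

/-- The residue at `-j`. -/
def rs (J : Finset ℕ) (N : ℚ[X]) (j : ℕ) : ℚ :=
  N.eval (-(j : ℚ)) / ∏ j' ∈ J.erase j, ((j' : ℚ) - j)

theorem Dn_monic (J : Finset ℕ) : (Dn J).Monic := monic_prod_of_monic _ _ fun _ _ => monic_X_add_C _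

theorem pfrac (J : Finset ℕ) (N : ℚ[X]) :
    N = Dn J * (N /ₘ Dn J) + ∑ j ∈ J, C (rs J N j) * Dn (J.erase j) := by
  have h1 := modByMonic_add_div N (Dn J)
  have hd : (N %ₘ Dn J).degree < J.card := by
    refine (degree_modByMonic_lt N (Dn_monic J)).trans_eq ?_
    rw [Dn, degree_prod, sum_congr rfl fun j _ => degree_X_add_C _]
    simp
  have h2 := Lagrange.eq_interpolate (s := J) (v := fun j : ℕ => -(j : ℚ)) (f := N %ₘ Dn J)
    (fun a _ b _ h => by simpa using h) hd
  rw [Lagrange.interpolate_eq_sum] at h2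
  rw [add_comm, eq_comm]
  refine Eq.trans ?_ h1
  congr 1
  rw [h2]
  refine sum_congr rfl fun j hj => ?_
  have h0 : (Dn J).eval (-(j : ℚ)) = 0 := by
    rw [Dn, eval_prod]
    exact prod_eq_zero hj (by simp)
  have h3 : (N %ₘ Dn J).eval (-(j : ℚ)) = N.eval (-(j : ℚ)) := by
    conv_rhs => rw [← h1]
    rw [eval_add, eval_mul, h0, zero_mul, add_zero]
  rw [h3, rs, Dn]
  congr 1
  · congr 2
    exact prod_congr rfl fun _ _ => by ring
  · exact prod_congr rfl fun _ _ => by simp

theorem taylor_quot (J : Finset ℕ) (c : ℚ) (hc : ∀ j ∈ J, c + j ≠ 0) (N' : ℚ[X]) (e l : ℕ)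
    (hl : l ≤ e) :
    (taylor c (((X - C c) ^ e * N') /ₘ Dn J)).coeff l =
      (if l = e then N'.eval c / (Dn J).eval c else 0) -
        ∑ j ∈ J, rs J ((X - C c) ^ e * N') j * ((-1) ^ l / (c + j) ^ (l + 1)) := by
  set N := (X - C c) ^ e * N' with hN
  set D : PowerSeries ℚ := ((taylor c (Dn J) : ℚ[X]) : PowerSeries ℚ) with hD
  have hT : ∀ S : Finset ℕ, ((taylor c (Dn S) : ℚ[X]) : PowerSeries ℚ) =
      ∏ j ∈ S, (PowerSeries.C (c + j) + PowerSeries.X) := by
    intro S
    have : taylor c (Dn S) = ∏ j ∈ S, (C (c + j) + X) := by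
      rw [Dn, taylor_apply, Polynomial.prod_comp]
      refine prod_congr rfl fun j _ => ?_
      rw [add_comp, X_comp, C_comp, C_add]
      ring
    rw [this, ← coeToPowerSeries.ringHom_apply, map_prod]
    refine prod_congr rfl fun j _ => ?_
    rw [coeToPowerSeries.ringHom_apply, Polynomial.coe_add, coe_C, coe_X]
  have h0 : PowerSeries.constantCoeff D = (Dn J).eval c := by
    rw [hD, ← PowerSeries.coeff_zero_eq_constantCoeff_apply, coeff_coe, taylor_coeff_zero]
  have h1 : PowerSeries.constantCoeff D ≠ 0 := by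
    rw [h0, Dn, eval_prod]
    exact prod_ne_zero_iff.2 fun j hj => by simpa using hc j hj
  have h2 := congrArg (fun f : ℚ[X] => ((taylor c f : ℚ[X]) : PowerSeries ℚ) * D⁻¹) (pfrac J N)
  simp only [map_add, taylor_mul, map_sum, taylor_C, Polynomial.coe_add, Polynomial.coe_mul] at h2
  rw [← hD] at h2
  have h3 : ((∑ j ∈ J, C (rs J N j) * taylor c (Dn (J.erase j)) : ℚ[X]) : PowerSeries ℚ) * D⁻¹ =
      ∑ j ∈ J, PowerSeries.C (rs J N j) * (PowerSeries.C (c + j) + PowerSeries.X)⁻¹ := by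
    rw [← coeToPowerSeries.ringHom_apply, map_sum, sum_mul]
    refine sum_congr rfl fun j hj => ?_
    rw [coeToPowerSeries.ringHom_apply, Polynomial.coe_mul, coe_C, mul_assoc]
    congr 1
    rw [PowerSeries.eq_inv_iff_mul_eq_one (by simpa using hc j hj), mul_right_comm, hT,
      prod_erase_mul _ _ hj, ← hT, ← hD, PowerSeries.mul_inv_cancel _ h1]
  rw [add_mul, h3, mul_right_comm, PowerSeries.mul_inv_cancel _ h1, one_mul] at h2
  have h4 : ((taylor c N : ℚ[X]) : PowerSeries ℚ) * D⁻¹ =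
      PowerSeries.X ^ e * (((taylor c N' : ℚ[X]) : PowerSeries ℚ) * D⁻¹) := by
    rw [hN, taylor_mul, taylor_pow, map_sub, taylor_X, taylor_C, add_sub_cancel_right,
      Polynomial.coe_mul, Polynomial.coe_pow, coe_X, mul_assoc]
  have h5 := congrArg (PowerSeries.coeff l) (h4.symm.trans h2)
  rw [map_add, coeff_coe, map_sum, PowerSeries.coeff_X_pow_mul'] at h5
  rw [eq_sub_iff_add_eq]
  refine Eq.trans ?_ (h5.symm.trans ?_)
  · congr 1
    refine sum_congr rfl fun j hj => ?_
    rw [PowerSeries.coeff_C_mul, Pool.Agent.MP_807c24_nt.H13.Class.inv_lin (hc j hj),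
      PowerSeries.coeff_mk]
  · by_cases h : l = e
    · rw [if_pos h, if_pos h.ge, h, Nat.sub_self, PowerSeries.coeff_zero_eq_constantCoeff_apply,
        map_mul, PowerSeries.constantCoeff_inv, h0,
        ← PowerSeries.coeff_zero_eq_constantCoeff_apply, coeff_coe, taylor_coeff_zero,
        div_eq_mul_inv]
    · rw [if_neg h, if_neg (by omega)]

theorem taylor_int (J : Finset ℕ) (c : ℤ) (N : ℤ[X]) (l : ℕ) :
    ∃ z : ℤ, (taylor (c : ℚ) (N.map (Int.castRingHom ℚ) /ₘ Dn J)).coeff l = z := by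
  have e : Dn J = (∏ j ∈ J, (X + C (j : ℤ))).map (Int.castRingHom ℚ) := by
    simp [Dn, Polynomial.map_prod]
  have hm : (∏ j ∈ J, (X + C (j : ℤ)) : ℤ[X]).Monic :=
    monic_prod_of_monic _ _ fun _ _ => monic_X_add_C _
  refine ⟨(taylor c (N /ₘ ∏ j ∈ J, (X + C (j : ℤ)))).coeff l, ?_⟩
  rw [e, ← map_divByMonic _ hm, show (c : ℚ) = Int.castRingHom ℚ c from rfl, ← map_taylor,
    coeff_map]
  rfl

end

end Pool.Agent.MP_807c24_nt.Z23.H13
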