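import Pool.Agent.MP_807c24_nt.Z23.Spec

/-! The numerical inequality on the line. -/

namespace Pool.Agent.MP_807c24_nt.Z23

open Finset

namespace PhiP

/-- Numerator cell. -/
def cn (a k : ℕ) : ℕ := ((352 - 64 * a : ℤ).natAbs ^ 2 + k ^ 2 + 1024) ^ 3

/-- Denominator cell. -/
def cd (a j : ℕ) : ℕ := (416 + 64 * a) ^ 2 + j ^ 2 - 1024

/-- Bound for one root factor. -/
def QI (s j k : ℕ) : ℕ := max (ro s ^ 2 - j ^ 2) (k ^ 2 - ro s ^ 2)

/-- One interval. -/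
def step (j k : ℕ) : Bool :=
  (List.range 9).all fun s =>
    decide ((∏ a ∈ range 8, cn a k) * (∏ s' ∈ range s, QI s' j k ^ 4) * (10 ^ 5) ^ j *
      27182818286 ^ be s ≤ (∏ a ∈ range 24, cd a j) * (4096 ^ 4) ^ s * 121683 ^ j * (10 ^ 10) ^ be s)

/-- All intervals. -/
def chk : ℕ → List ℕ → Bool
  | j, [] => decide (1600 ≤ j)
  | j, k :: l => step j k && chk k l

/-- Break points. -/
def bps : List ℕ :=
  [22, 46, 58, 67, 74, 80, 86, 92, 98, 103, 109, 116, 124, 136, 147, 157, 166, 175, 182, 188, 194,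
    199, 204, 210, 216, 223, 231, 242, 252, 262, 272, 282, 289, 295, 300, 305, 310, 316, 323, 332,
    342, 352, 363, 375, 385, 393, 400, 406, 412, 418, 425, 433, 442, 451, 460, 469, 479, 490, 502,
    515, 525, 534, 542, 550, 558, 566, 574, 583, 593, 602, 611, 620, 628, 636, 644, 652, 661, 670,
    680, 691, 704, 720, 739, 764, 798, 848, 928, 1075, 1419, 1600]

theorem chk_bps : chk 0 bps = true := by decide +kernel

theorem cn_cast (a k : ℕ) : (cn a k : ℝ) =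
    ((11 / 2 - (a : ℝ)) ^ 2 + ((k : ℝ) / 64) ^ 2 + 1 / 4) ^ 3 * 4096 ^ 3 := by
  unfold cn
  rw [Nat.cast_pow, Nat.cast_add, Nat.cast_add, Nat.cast_pow, Nat.cast_natAbs, Int.cast_abs,
    sq_abs, ← mul_pow]
  congr 1
  push_cast
  ring

theorem cd_cast (a j : ℕ) : (cd a j : ℝ) =
    ((13 / 2 + (a : ℝ)) ^ 2 + ((j : ℝ) / 64) ^ 2 - 1 / 4) * 4096 := by
  unfold cd
  rw [Nat.cast_sub (by nlinarith [Nat.zero_le a, Nat.zero_le j])]
  push_cast
  ring

theorem den_pos (a : ℕ) (η : ℝ) : 0 < (13 / 2 + (a : ℝ)) ^ 2 + η ^ 2 - 1 / 4 := by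
  have ha : (0 : ℝ) ≤ a := Nat.cast_nonneg a
  nlinarith [sq_nonneg η]

theorem cd_pos (a j : ℕ) : (0 : ℝ) < cd a j := by
  rw [cd_cast]
  exact mul_pos (den_pos a _) (by norm_num)

theorem WW_nonneg (η : ℝ) : 0 ≤ WW η :=
  div_nonneg (prod_nonneg fun _ _ => by positivity) (prod_nonneg fun a _ => (den_pos a η).le)

theorem WW_le (j k : ℕ) {η : ℝ} (h1 : (j : ℝ) / 64 ≤ η) (h2 : η ≤ (k : ℝ) / 64) :
    WW η ≤ (∏ a ∈ range 8, (cn a k : ℝ)) / ∏ a ∈ range 24, (cd a j : ℝ) := by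
  have hj : (0 : ℝ) ≤ (j : ℝ) / 64 := by positivity
  have h0 : 0 ≤ η := hj.trans h1
  simp only [cn_cast, cd_cast, prod_mul_distrib, prod_const, card_range]
  rw [← pow_mul, mul_div_mul_right _ _ (by positivity)]
  refine div_le_div₀ (prod_nonneg fun _ _ => by positivity)
    (prod_le_prod (fun _ _ => by positivity) fun a _ => ?_) (prod_pos fun a _ => den_pos a _)
    (prod_le_prod (fun a _ => (den_pos a _).le) fun a _ => ?_)
  · gcongr
  · gcongr

theorem QQ_le (s j k : ℕ) {η : ℝ} (h1 : (j : ℝ) / 64 ≤ η) (h2 : η ≤ (k : ℝ) / 64) :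
    (((ro s : ℝ) / 64) ^ 2 - η ^ 2) ^ 4 ≤ (QI s j k : ℝ) ^ 4 / 4096 ^ 4 := by
  have hj : (0 : ℝ) ≤ (j : ℝ) / 64 := by positivity
  have h0 : 0 ≤ η := hj.trans h1
  have a1 : ((j : ℝ) / 64) ^ 2 ≤ η ^ 2 := pow_le_pow_left₀ hj h1 2
  have a2 : η ^ 2 ≤ ((k : ℝ) / 64) ^ 2 := pow_le_pow_left₀ h0 h2 2
  have b1 : ro s ^ 2 ≤ QI s j k + j ^ 2 := by
    have := le_max_left (ro s ^ 2 - j ^ 2) (k ^ 2 - ro s ^ 2)
    unfold QI
    omega
  have b2 : k ^ 2 ≤ QI s j k + ro s ^ 2 := by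
    have := le_max_right (ro s ^ 2 - j ^ 2) (k ^ 2 - ro s ^ 2)
    unfold QI
    omega
  have c1 : (ro s : ℝ) ^ 2 ≤ QI s j k + (j : ℝ) ^ 2 := by exact_mod_cast b1
  have c2 : (k : ℝ) ^ 2 ≤ QI s j k + (ro s : ℝ) ^ 2 := by exact_mod_cast b2
  rw [← div_pow, ← (by decide : Even 4).pow_abs]
  refine pow_le_pow_left₀ (abs_nonneg _) (abs_le.2 ⟨?_, ?_⟩) 4
  · rw [div_pow] at a2 ⊢
    linarith
  · rw [div_pow] at a1 ⊢
    linarith

theorem r_le : (121683 / 10 ^ 5 : ℝ) ≤ Real.exp (157 / 800) := by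
  refine le_trans ?_ (Real.sum_le_exp_of_nonneg (by norm_num) 10)
  simp only [Finset.sum_range_succ, Finset.sum_range_zero, Nat.factorial]
  norm_num

theorem exp_ge (j b : ℕ) : (121683 / 10 ^ 5 : ℝ) ^ j / (27182818286 / 10 ^ 10) ^ b ≤
    Real.exp (-(b : ℝ) + 314 / 25 * (j / 64)) := by
  have e1 : Real.exp (-(b : ℝ) + 314 / 25 * (j / 64)) =
      Real.exp (157 / 800) ^ j / Real.exp 1 ^ b := by
    rw [← Real.exp_nat_mul, ← Real.exp_nat_mul, ← Real.exp_sub]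
    congr 1
    ring
  have e2 : Real.exp 1 ≤ 27182818286 / 10 ^ 10 := Real.exp_one_lt_d9.le.trans (by norm_num)
  rw [e1]
  exact div_le_div₀ (by positivity) (pow_le_pow_left₀ (by positivity) r_le _) (by positivity)
    (pow_le_pow_left₀ (by positivity) e2 _)

theorem alg {a b q x r s E F : ℝ} (hb : 0 < b) (hx : 0 < x) (hs : 0 < s) (hE : 0 < E) (hF : 0 < F)
    (h : a * q * s * E ≤ b * x * r * F) : a / b * (q / x) ≤ r / s / (E / F) := by
  have e2 : r / s / (E / F) = r * F / (s * E) := by field_simp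
  rw [div_mul_div_comm, e2, div_le_div_iff₀ (by positivity) (by positivity)]
  linarith

theorem of_step {j k : ℕ} (h : step j k = true) {s : ℕ} (hs : s ≤ 8) {η : ℝ}
    (h1 : (j : ℝ) / 64 ≤ η) (h2 : η ≤ (k : ℝ) / 64) :
    WW η * ∏ s' ∈ range s, (((ro s' : ℝ) / 64) ^ 2 - η ^ 2) ^ 4 ≤
      Real.exp (-(be s : ℝ) + 314 / 25 * η) := by
  have h4 := List.all_eq_true.1 h s (List.mem_range.2 (by omega))
  rw [decide_eq_true_eq] at h4
  have h6 : (∏ a ∈ range 8, (cn a k : ℝ)) * (∏ s' ∈ range s, (QI s' j k : ℝ) ^ 4) * (10 ^ 5) ^ j *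
      27182818286 ^ be s ≤
      (∏ a ∈ range 24, (cd a j : ℝ)) * (4096 ^ 4) ^ s * 121683 ^ j * (10 ^ 10) ^ be s := by
    have := (Nat.cast_le (α := ℝ)).2 h4
    simpa only [Nat.cast_mul, Nat.cast_pow, Nat.cast_ofNat, Nat.cast_prod] using this
  have h7 := alg (prod_pos fun a _ => cd_pos a j) (by positivity) (by positivity) (by positivity)
    (by positivity) h6
  rw [← div_pow, ← div_pow] at h7
  have h9 : ∏ s' ∈ range s, (((ro s' : ℝ) / 64) ^ 2 - η ^ 2) ^ 4 ≤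
      (∏ s' ∈ range s, (QI s' j k : ℝ) ^ 4) / (4096 ^ 4) ^ s := by
    rw [show ((4096 : ℝ) ^ 4) ^ s = ∏ _s' ∈ range s, ((4096 : ℝ) ^ 4) by
      rw [prod_const, card_range], ← prod_div_distrib]
    exact prod_le_prod (fun a _ => by positivity) fun a _ => QQ_le a j k h1 h2
  refine (mul_le_mul (WW_le j k h1 h2) h9 (prod_nonneg fun _ _ => by positivity)
    (div_nonneg (prod_nonneg fun _ _ => Nat.cast_nonneg _)
      (prod_nonneg fun _ _ => Nat.cast_nonneg _))).trans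
    (h7.trans ((exp_ge j _).trans (Real.exp_le_exp.2 (by linarith))))

theorem l_le (s : ℕ) : ro s ≤ 473 ∧ be s ≤ 99 := by
  by_cases h : s < 9
  · interval_cases s <;> decide
  · obtain ⟨t, rfl⟩ : ∃ t, s = t + 9 := ⟨s - 9, by omega⟩
    simp [ro, be]

theorem WW_le_one (η : ℝ) : WW η ≤ 1 := by
  have h1 : ∏ a ∈ range 8, ((11 / 2 - (a : ℝ)) ^ 2 + η ^ 2 + 1 / 4) ^ 3 ≤ (η ^ 2 + 42) ^ 24 := by
    refine (prod_le_prod (fun _ _ => by positivity) (g := fun _ => (η ^ 2 + 42) ^ 3)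
      fun a ha => ?_).trans ?_
    · have ha' : (a : ℝ) ≤ 7 := by
        have := mem_range.1 ha
        exact_mod_cast (show a ≤ 7 by omega)
      have ha0 : (0 : ℝ) ≤ a := by positivity
      exact pow_le_pow_left₀ (by positivity) (by nlinarith) _
    · rw [prod_const, card_range, ← pow_mul]
  have h2 : (η ^ 2 + 42) ^ 24 ≤ ∏ a ∈ range 24, ((13 / 2 + (a : ℝ)) ^ 2 + η ^ 2 - 1 / 4) := by
    refine le_trans ?_ (prod_le_prod (f := fun _ => η ^ 2 + 42) (fun _ _ => by positivity)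
      fun a _ => ?_)
    · rw [prod_const, card_range]
    · have ha0 : (0 : ℝ) ≤ a := by positivity
      nlinarith
  exact div_le_one_of_le₀ (h1.trans h2) (prod_nonneg fun a _ => (den_pos a η).le)

theorem tail {s : ℕ} (hs : s ≤ 8) {η : ℝ} (h : 25 ≤ η) :
    WW η * ∏ s' ∈ range s, (((ro s' : ℝ) / 64) ^ 2 - η ^ 2) ^ 4 ≤
      Real.exp (-(be s : ℝ) + 314 / 25 * η) := by
  have h0 : 0 < η := by linarith
  have h3 : ∏ s' ∈ range s, (((ro s' : ℝ) / 64) ^ 2 - η ^ 2) ^ 4 ≤ η ^ 64 := by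
    refine (prod_le_prod (fun _ _ => by positivity) (g := fun _ => (η ^ 2) ^ 4)
      fun a _ => ?_).trans ?_
    · have a1 : (ro a : ℝ) ≤ 473 := by exact_mod_cast (l_le a).1
      have a3 : (0 : ℝ) ≤ (ro a : ℝ) / 64 := by positivity
      have a4 : ((ro a : ℝ) / 64) ^ 2 ≤ η ^ 2 := pow_le_pow_left₀ a3 (by linarith) 2
      rw [← (by decide : Even 4).pow_abs]
      refine pow_le_pow_left₀ (abs_nonneg _) (abs_le.2 ⟨?_, ?_⟩) 4
      · linarith [sq_nonneg ((ro a : ℝ) / 64)]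
      · linarith [sq_nonneg η]
    · rw [prod_const, card_range, ← pow_mul, ← pow_mul]
      exact pow_le_pow_right₀ (by linarith) (by omega)
  have h4 : η ^ 64 ≤ 25 ^ 64 * Real.exp (η / 25 - 1) ^ 64 := by
    rw [← mul_pow]
    refine pow_le_pow_left₀ h0.le ?_ _
    linarith [Real.add_one_le_exp (η / 25 - 1)]
  have h5 : (25 : ℝ) ^ 64 ≤ (27 / 10) ^ 208 := by norm_num
  have h6 : (27 / 10 : ℝ) ^ 208 ≤ Real.exp 1 ^ 208 :=
    pow_le_pow_left₀ (by norm_num) (le_trans (by norm_num) Real.exp_one_gt_d9.le) _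
  have h7 : (be s : ℝ) ≤ 99 := by exact_mod_cast (l_le s).2
  refine (mul_le_of_le_one_left (prod_nonneg fun _ _ => by positivity) (WW_le_one η)).trans
    (h3.trans (h4.trans ((mul_le_mul_of_nonneg_right (h5.trans h6) (by positivity)).trans ?_)))
  rw [← Real.exp_nat_mul, ← Real.exp_nat_mul, ← Real.exp_add]
  refine Real.exp_le_exp.2 ?_
  push_cast
  linarith

theorem chk_nil (j : ℕ) : chk j [] = decide (1600 ≤ j) := rfl

theorem chk_cons (j k : ℕ) (l : List ℕ) : chk j (k :: l) = (step j k && chk k l) := rfl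

theorem of_chk {s : ℕ} (hs : s ≤ 8) (l : List ℕ) : ∀ j : ℕ, chk j l = true → ∀ η : ℝ,
    (j : ℝ) / 64 ≤ η →
    WW η * ∏ s' ∈ range s, (((ro s' : ℝ) / 64) ^ 2 - η ^ 2) ^ 4 ≤
      Real.exp (-(be s : ℝ) + 314 / 25 * η) := by
  induction l with
  | nil =>
    intro j h η h1
    rw [chk_nil, decide_eq_true_eq] at h
    have : (1600 : ℝ) ≤ j := by exact_mod_cast h
    exact tail hs (by linarith)
  | cons k l ih =>
    intro j h η h1
    rw [chk_cons, Bool.and_eq_true] at h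
    rcases le_total η ((k : ℝ) / 64) with h2 | h2
    · exact of_step h.1 hs h1 h2
    · exact ih k h.2 η h2

end PhiP

theorem phi : PhiStmt := fun _ hs η hη => PhiP.of_chk hs _ 0 PhiP.chk_bps η (by simpa using hη)

end Pool.Agent.MP_807c24_nt.Z23
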