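import Pool.Agent.MP_807c24_nt.D57.Spec

/-!
Specification for: 1, zeta(2), zeta(3) are linearly independent over the rationals.

Assume `x = a zeta(2) + b zeta(3)` is an integer. The functional `Mu` sends `s^k` to
`a B_k - b k B_(k-1) / 2` and `1/(s+j)` to `x - sum_{u<j} (a/u^2 + b/u^3)`. With
`R = prod_{t<L} (s-t)^3 / prod_{1<=j<=3L} (s+j)` the Hankel determinant of size `2L` of the moments
`Mu (R s^d)` is a rational number that is too small for its denominators, and it is not zero when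
`L` is a large prime.
-/

namespace Pool.Agent.MP_807c24_nt.Z23

open Finset Filter Topology Polynomial
open Pool.Agent.MP_807c24_nt.H13 (zr pn)
open Pool.Agent.MP_807c24_nt.D57 (lam hank psi)

noncomputable section

/-! ### The functional -/

/-- Moments of the polynomial part along a progression of step `Q`. -/
def bt (a b : ℤ) (Q k : ℕ) : ℚ :=
  a * _root_.bernoulli k / Q - b * k * _root_.bernoulli (k - 1) / (2 * (Q : ℚ) ^ 2)

/-- The harmonic part. -/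
def Hh (a b : ℤ) (j : ℕ) : ℚ := ∑ u ∈ Ico 1 j, ((a : ℚ) / (u : ℚ) ^ 2 + (b : ℚ) / (u : ℚ) ^ 3)

/-- The denominator with simple poles at `-j`, `j ∈ S`. -/
def Dp (S : Finset ℕ) : ℚ[X] := ∏ j ∈ S, (X + C (j : ℚ))

/-- Residue of `N / Dp S` at `-j`. -/
def res (S : Finset ℕ) (N : ℚ[X]) (j : ℕ) : ℚ :=
  N.eval (-(j : ℚ)) / ∏ i ∈ S.erase j, ((i : ℚ) - j)

/-- The functional at `N / Dp S`. -/
def Mu (a b x : ℤ) (S : Finset ℕ) (N : ℚ[X]) : ℚ :=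
  lam (bt a b 1) (N /ₘ Dp S) + ∑ j ∈ S, res S N j * (x - Hh a b j)

/-- The monic polynomial with the given integer roots. -/
def Np (M : Multiset ℤ) : ℚ[X] := (M.map fun t : ℤ => X - C (t : ℚ)).prod

/-- The points `0, …, l-1`. -/
def rg (l : ℕ) : Multiset ℤ := (Multiset.range l).map fun t : ℕ => (t : ℤ)

/-- The triple zeros. -/
def Zm (L : ℕ) : Multiset ℤ := 3 • rg L

/-- The moments. -/
def mom (a b x : ℤ) (L d : ℕ) : ℚ := Mu a b x (Icc 1 (3 * L)) (Np (Zm L) * X ^ d)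

/-- The Hankel determinant. -/
def Del (a b x : ℤ) (L : ℕ) : ℚ := hank (mom a b x L) (2 * L)

/-! ### Algebra -/

/-- Partial fractions. -/
def PfStmt : Prop :=
  ∀ (S : Finset ℕ) (N : ℚ[X]),
    N = (N /ₘ Dp S) * Dp S + ∑ j ∈ S, C (res S N j) * Dp (S.erase j)

/-- The moment functional. -/
def LinkStmt : Prop :=
  ∀ (a b x : ℤ) (L : ℕ) (P : ℚ[X]),
    lam (mom a b x L) P = Mu a b x (Icc 1 (3 * L)) (Np (Zm L) * P)

/-- Cancellation of poles. -/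
def CancelStmt : Prop :=
  ∀ (a b x : ℤ) (S T : Finset ℕ) (N : ℚ[X]), T ⊆ S →
    Mu a b x S (Dp T * N) = Mu a b x (S \ T) N

/-- Denominators of the Bernoulli numbers. -/
def BernStmt : Prop :=
  ∀ (p : ℕ) [Fact p.Prime] (k : ℕ),
    pn p (_root_.bernoulli k) ≤ p ∧ (k + 2 ≤ p → pn p (_root_.bernoulli k) ≤ 1)

/-- The distribution relation. -/
def DistStmt : Prop :=
  ∀ (a b : ℤ) (Q : ℕ) (P : ℚ[X]), 0 < Q →
    lam (bt a b 1) P = ∑ c ∈ range Q, lam (bt a b Q) (P.comp (C (c : ℚ) + C (Q : ℚ) * X))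

/-! ### One entry, p-adically -/

/-- Zeros minus poles in the class of `c` modulo `q`. -/
def od (M : Multiset ℤ) (S : Finset ℕ) (q : ℕ) (c : ℤ) : ℤ :=
  (M.countP (fun t => (q : ℤ) ∣ t - c) : ℤ) - ((S.filter fun j : ℕ => (q : ℤ) ∣ (j : ℤ) + c).card : ℤ)

/-- Size of a residue. -/
def ResStmt : Prop :=
  ∀ (p : ℕ) [Fact p.Prime] (S : Finset ℕ) (M : Multiset ℤ) (A j : ℕ), j ∈ S →
    (∀ i ∈ S, i < p ^ (A + 1)) →
    pn p (res S (Np M) j) ≤ (p : ℝ) ^ (-((∑ e ∈ Icc 1 A, od M S (p ^ e) (-(j : ℤ))) + A))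

/-- Any prime. -/
def EntrySStmt : Prop :=
  ∀ (p : ℕ) [Fact p.Prime] (a b x : ℤ) (S : Finset ℕ) (M : Multiset ℤ) (A : ℕ) (y : ℤ),
    (∀ j ∈ S, 1 ≤ j ∧ j + p ^ A ≤ p ^ (A + 1)) →
    (∀ c : ℤ, y ≤ ∑ e ∈ Icc 1 A, od M S (p ^ e) c) →
    pn p (Mu a b x S (Np M)) ≤ (p : ℝ) ^ (2 * (A : ℤ) + 2 - y)

/-- A prime whose square is beyond the poles. -/
def EntryMStmt : Prop :=
  ∀ (p : ℕ) [Fact p.Prime] (a b x : ℤ) (S : Finset ℕ) (M : Multiset ℤ) (y : ℤ), p ≠ 2 →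
    (∀ j ∈ S, 1 ≤ j ∧ j + p ≤ p ^ 2) → y + 1 ≤ p → (∀ c : ℤ, y ≤ od M S p c) →
    pn p (Mu a b x S (Np M)) ≤ (p : ℝ) ^ (2 - y)

/-- Direct bound from the residues; integral when the degree is small. -/
def EntryLStmt : Prop :=
  ∀ (p : ℕ) [Fact p.Prime] (a b x : ℤ) (S : Finset ℕ) (M : Multiset ℤ) (y : ℤ), p ≠ 2 →
    (∀ j ∈ S, 1 ≤ j ∧ j < p ^ 2) →
    (∀ j ∈ S, (if j ≤ p then -1 else 2) - od M S p (-(j : ℤ)) ≤ y) →
    (1 ≤ y ∨ (0 ≤ y ∧ M.card + 2 ≤ p + S.card)) →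
    pn p (Mu a b x S (Np M)) ≤ (p : ℝ) ^ y

/-! ### The determinant, p-adically -/

/-- The basis built from thresholds. -/
def ThreshStmt : Prop :=
  ∀ (p : ℕ) [Fact p.Prime] (μ : ℕ → ℚ) (Z U : ℕ) (T : ℤ) (α : ℕ → Multiset ℤ), α U = 0 →
    (∀ w w' s : ℕ, pn p (lam μ (Np (α w + α w' + Multiset.replicate s 0))) ≤
      (p : ℝ) ^ (T + ((w + w') / 2 : ℕ))) →
    pn p (hank μ Z) ≤ (p : ℝ) ^ ((Z : ℤ) * T + (∑ w ∈ range U, (α w).card : ℕ))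

/-- Autocorrelation of the multiplicities summed over the positive multiples of `q`. -/
def Phi (L q : ℕ) : ℤ := 4 * psi (3 * L) q + 12 * psi L q - 3 * psi (4 * L) q

/-- Sums over the classes. -/
def SqStmt : Prop :=
  ∀ L q : ℕ, 0 < q → ∑ c ∈ range q, od (Zm L) (Icc 1 (3 * L)) q c = 0 ∧
    ∑ c ∈ range q, od (Zm L) (Icc 1 (3 * L)) q c ^ 2 = 12 * L + 2 * Phi L q

/-- Bound for small primes. -/
def fS (L p : ℕ) : ℝ :=
  40 * L * Real.log (4 * L) - (4 * (L : ℝ) ^ 2 - 2 * L) *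
    (∑ e ∈ Icc 1 (Nat.log p (4 * L)), 1 / (p : ℝ) ^ e) * Real.log p

/-- Bound for medium primes. -/
def fM (L p : ℕ) : ℝ := (9 * L - 4 * (L : ℝ) ^ 2 / p + p / 16 + (Phi L p : ℝ) / 2) * Real.log p

/-- Bound for large primes. -/
def fL (L p : ℕ) : ℝ :=
  (((4 * L - p : ℕ) : ℝ) + 4 * ((3 * L - p : ℕ) : ℝ) - ((5 * L - 2 * p : ℕ) : ℝ) -
    6 * ((2 * L - p : ℕ) : ℝ)) * Real.log p

/-- Every prime up to `4 L`. -/
def SmallStmt : Prop :=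
  ∀ (p : ℕ) [Fact p.Prime] (a b x : ℤ) (L : ℕ), p ≤ 4 * L →
    pn p (Del a b x L) ≤ Real.exp (fS L p)

/-- Medium primes. -/
def MediumStmt : Prop :=
  ∀ (p : ℕ) [Fact p.Prime] (a b x : ℤ) (L : ℕ), 1 ≤ L → 6 * L ≤ p ^ 2 →
    pn p (Del a b x L) ≤ Real.exp (fM L p)

/-- Large primes. -/
def LargeStmt : Prop :=
  ∀ (p : ℕ) [Fact p.Prime] (a b x : ℤ) (L : ℕ), 2 ≤ L → 3 * L < 2 * p →
    pn p (Del a b x L) ≤ Real.exp (fL L p)

/-- The prime that shows that the determinant is not zero. -/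
def NonzeroStmt : Prop :=
  ∀ (p : ℕ) [Fact p.Prime] (a b x : ℤ), 367 < p → ¬(p : ℤ) ∣ b → Del a b x p ≠ 0

/-- The bound used for each prime. -/
def ff (L p : ℕ) : ℝ :=
  if p ^ 2 < 6 * L then fS L p else if 2 * p ≤ 3 * L then fM L p else fL L p

/-- Sum over the primes. -/
def PrimeStmt : Prop :=
  ∀ᶠ L : ℕ in atTop, ∑ p ∈ (range (4 * L + 1)).filter Nat.Prime, ff L p ≤
    -4 * (L : ℝ) ^ 2 * Real.log L + 82 / 5 * (L : ℝ) ^ 2

/-! ### The real side -/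

/-- The kernel on a vertical line through a half-integer. -/
def ker (a b : ℤ) (y : ℝ) : ℂ :=
  ((Real.pi / 2 / Real.cosh (Real.pi * y) ^ 2 : ℝ) : ℂ) *
    (a + Complex.I * (Real.pi * b * Real.tanh (Real.pi * y) : ℝ))

/-- The vertical line. -/
def ln (n : ℕ) (y : ℝ) : ℂ := n - 1 / 2 + y * Complex.I

/-- The integral along the line. -/
def JJ (a b : ℤ) (n : ℕ) (f : ℂ → ℂ) : ℂ := ∫ y : ℝ, f (ln n y) * ker a b y

/-- Holomorphic to the right of `-1`, of polynomial growth. -/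
def Good (f : ℂ → ℂ) : Prop :=
  DifferentiableOn ℂ f {s | -1 < s.re} ∧
    ∃ (C : ℝ) (m : ℕ), ∀ s : ℂ, -1 / 2 ≤ s.re → ‖f s‖ ≤ C * (1 + ‖s‖) ^ m

/-- Integrability, and the trivial bound. -/
def IntStmt : Prop :=
  ∀ a b : ℤ, (∀ (n : ℕ) (f : ℂ → ℂ), Good f →
      MeasureTheory.Integrable fun y : ℝ => f (ln n y) * ker a b y) ∧
    ∃ C : ℝ, 0 < C ∧ ∀ (n : ℕ) (f : ℂ → ℂ) (B : ℝ),
      (∀ y : ℝ, ‖f (ln n y)‖ ≤ B * Real.exp (6281 / 1000 * |y|)) → ‖JJ a b n f‖ ≤ C * B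

/-- The line can be moved across a triple zero. -/
def ShiftStmt : Prop :=
  ∀ (a b : ℤ) (n : ℕ) (g : ℂ → ℂ), Good g →
    JJ a b (n + 1) (fun s => (s - n) ^ 3 * g s) = JJ a b n (fun s => (s - n) ^ 3 * g s)

/-- The three elementary jumps. -/
def JumpStmt : Prop :=
  ∀ a b : ℤ, JJ a b 0 (fun _ => 1) = a ∧ JJ a b 0 (fun s => 2 * s + 1) = -b

/-- Values on monomials and simple poles. -/
def ValStmt : Prop :=
  ∀ a b : ℤ, (∀ k : ℕ, JJ a b 0 (fun s => s ^ k) = (bt a b 1 k : ℂ)) ∧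
    ∀ j : ℕ, 1 ≤ j →
      JJ a b 0 (fun s => (s + j)⁻¹) = ((a * zr 2 + b * zr 3 - Hh a b j : ℝ) : ℂ)

/-- The rational function `R`. -/
def Rr (L : ℕ) (s : ℂ) : ℂ := (∏ t ∈ range L, (s - t) ^ 3) / ∏ j ∈ Icc 1 (3 * L), (s + j)

/-- The functional is bounded by the size of the function on the line. -/
def BoundStmt : Prop :=
  ∀ a b x : ℤ, (x : ℝ) = a * zr 2 + b * zr 3 →
    ∃ C : ℝ, 0 < C ∧ ∀ (L n : ℕ) (P : ℚ[X]) (B : ℝ), n ≤ L →
      (∀ y : ℝ, ‖Rr L (ln n y) * aeval (ln n y) P‖ ≤ B * Real.exp (6281 / 1000 * |y|)) →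
      |((lam (mom a b x L) P : ℚ) : ℝ)| ≤ C * B

/-- Heights (in units `m / 64`) of the roots of the basis polynomials. -/
def ro (s : ℕ) : ℕ := [32, 148, 255, 355, 149, 473, 461, 442].getD s 0

/-- Exponents in the numerical inequality. -/
def be (s : ℕ) : ℕ := [99, 96, 88, 80, 71, 57, 48, 34, 19].getD s 0

/-- Scaled bound for `|R|^2`. -/
def WW (η : ℝ) : ℝ :=
  (∏ a ∈ range 8, ((11 / 2 - (a : ℝ)) ^ 2 + η ^ 2 + 1 / 4) ^ 3) /
    ∏ a ∈ range 24, ((13 / 2 + (a : ℝ)) ^ 2 + η ^ 2 - 1 / 4)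

/-- The numerical inequality on the line. -/
def PhiStmt : Prop :=
  ∀ s : ℕ, s ≤ 8 → ∀ η : ℝ, 0 ≤ η →
    WW η * ∏ s' ∈ range s, (((ro s' : ℝ) / 64) ^ 2 - η ^ 2) ^ 4 ≤
      Real.exp (-(be s : ℝ) + 314 / 25 * η)

/-- The unit of length. -/
def mm (L : ℕ) : ℕ := L / 8 + 1

/-- Size of `R` on the line (with two spare powers of `1 + |y|`). -/
def SizeStmt : Prop :=
  ∀ (L : ℕ) (y : ℝ), 24 ≤ L →
    (‖Rr L (ln (6 * mm L) y)‖ * (1 + |y|) ^ 2) ^ 2 ≤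
      (52000 * (mm L : ℝ)) ^ 52 * Real.exp (|y| / 500) * WW (|y| / mm L) ^ mm L

/-- The determinant is small. -/
def RealStmt : Prop :=
  ∀ a b x : ℤ, (x : ℝ) = a * zr 2 + b * zr 3 →
    ∃ C : ℝ, ∀ L : ℕ, 24 ≤ L → |((Del a b x L : ℚ) : ℝ)| ≤
      Real.exp (L * (C + 60 * Real.log L) + 4 * (L : ℝ) ^ 2 * Real.log L - 83 / 5 * (L : ℝ) ^ 2)

/-- The square of pi is irrational. -/
def PiSqStmt : Prop := Irrational (Real.pi ^ 2)

/-- The theorem in the case `b ≠ 0`. -/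
def CoreStmt : Prop := ∀ a b x : ℤ, b ≠ 0 → (x : ℝ) ≠ a * zr 2 + b * zr 3

end

end Pool.Agent.MP_807c24_nt.Z23
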